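import Pool.Agent.Lib.Pa76659I.Defs

/-!
# Pa76659I.Loc: which bits of the oracle the witnesses, codes and contents depend on

PROOFS. `W_congr`: `Pa76659P.J_congr` with `κ = 1`: the strings `v` with
`v.length ≤ 2 * x.length + 1`; `false :: w` reads `X (ls s w)` and `(ls s w).length = s + 6 + w.length`;
`true :: u` reads `X u`.
`ct_congr`: `IsC.eval_congr` and `P.cpx`.
`cd_congr`: `EE^[jj s] (J 1 Z) = J (jj s + 1) Z` (by induction, `J`, `Function.iterate_add_apply` or
`Function.iterate_succ_apply'`), and `J_congr`: the strings of length at most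
`2^(jj s + 1) * (code 0 B ζ).length + 1`.
`vlu_congr`: `code_length`: `false :: z` and `true :: z` have codes of the same length.
`Lz_lt_tlx`: `Lz P z ≤ need .. ≤ (z.length+2)^(2^P.B) ≤ (code 0 P.B (rt ..)).length`.
-/

set_option maxHeartbeats 4000000

namespace Pool.Agent.Lib.Pa76659I

open Pool.Agent.Lib.Pa76659 Pool.Agent.Lib.Pa76659.Hier Pool.Agent.Lib.Pa76659H

variable {m : ℕ}

theorem ls_length (s : ℕ) (w : Str) : (ls s w).length = s + 6 + w.length := by
  unfold ls
  simp only [List.length_cons, List.length_append, List.length_replicate]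
  omega

theorem ls_inj {s s' : ℕ} {w w' : Str} (h : ls s w = ls s' w') : s = s' ∧ w = w' := by
  unfold ls at h
  simp only [List.cons.injEq, true_and] at h
  exact rep_inj true _ _ _ _ h

theorem jj_le {s : ℕ} (hs : s ≤ m) : jj s ≤ m := by
  unfold jj
  omega

theorem jj_pos {s : ℕ} (hs : 1 ≤ s) : 1 ≤ jj s := by
  unfold jj
  omega

theorem J_iter (s : ℕ) (Z : Lang) : EE^[s] (J 1 Z) = J (s + 1) Z := by
  unfold J
  rw [← Function.iterate_add_apply]

theorem join_ls_congr (s : ℕ) (X X' : Lang) (L : ℕ)
    (h : ∀ v : Str, v.length ≤ s + 6 + L → X v = X' v) :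
    ∀ v : Str, v.length ≤ L + 1 → join (ln s X) X v = join (ln s X') X' v
  | [], _ => rfl
  | false :: w, hv => by
      rw [List.length_cons] at hv
      show X (ls s w) = X' (ls s w)
      apply h
      rw [ls_length]
      omega
  | true :: u, hv => by
      rw [List.length_cons] at hv
      show X u = X' u
      apply h
      omega

theorem W_congr (s : ℕ) (X X' : Lang) (x : Str)
    (h : ∀ v : Str, v.length ≤ s + 6 + 2 * x.length → X v = X' v) : W s X x = W s X' x := by
  unfold W
  apply Pa76659P.J_congr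
  intro v hv
  rw [pow_one] at hv
  exact join_ls_congr s X X' (2 * x.length) h v hv

theorem ct_congr (P : Par m) {k : ℕ} (hk : k ≤ m) (z : Str) (X X' : Lang)
    (h : ∀ v : Str, v.length ≤ Lz P z → X v = X' v) : ct k X z = ct k X' z := by
  have h1 := P.cpx k hk z
  exact IsC.eval_congr (fun v hv => h v hv) h1

theorem cd_congr (B s : ℕ) (ζ : Str) (X X' : Lang)
    (h : ∀ v : Str, v.length ≤ tlx B s ζ → X v = X' v) : cd B s X ζ = cd B s X' ζ := by
  unfold cd W
  rw [J_iter, J_iter]
  apply Pa76659P.J_congr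
  exact join_ls_congr s X X' (2 ^ (jj s + 1) * (code 0 B ζ).length) h

theorem tlx_rt (B s : ℕ) (b : Bool) (z : Str) : tlx B s (rt s b z) = tlx B s (rt s false z) := by
  have h1 : (rt s b z).length = (rt s false z).length := by
    unfold rt
    split_ifs <;> simp
  unfold tlx
  rw [code_length, code_length, h1]

theorem vlu_congr (B s : ℕ) (z : Str) (X X' : Lang)
    (h : ∀ v : Str, v.length ≤ tlx B s (rt s false z) → X v = X' v) :
    vlu B s X z = vlu B s X' z := by
  have key : ∀ b : Bool, cd B s X (rt s b z) = cd B s X' (rt s b z) := by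
    intro b
    apply cd_congr
    rw [tlx_rt]
    exact h
  have h0 := key false
  have h1 := key true
  unfold vlu
  unfold rt at h0 h1
  by_cases hs : s % 2 = 0
  · rw [if_pos hs] at h0 h1
    rw [if_pos hs, if_pos hs, h0, h1]
  · rw [if_neg hs] at h0
    rw [if_neg hs, if_neg hs, h0]

theorem Lz_mono (P : Par m) {z z' : Str} (h : z.length ≤ z'.length) : Lz P z ≤ Lz P z' :=
  Nat.pow_le_pow_left (by omega) _

theorem need_le (P : Par m) (ζ : Str) :
    need m P.b P.e ζ.length ≤ (code 0 P.B ζ).length := by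
  have h := P.hB ζ.length
  rw [code_length]
  omega

theorem Lz_lt_code (P : Par m) (ζ : Str) : Lz P ζ < (code 0 P.B ζ).length := by
  have h := need_le P ζ
  unfold need at h
  unfold Lz
  omega

theorem Lz_lt_tlx (P : Par m) (s : ℕ) (z : Str) : Lz P z < tlx P.B s (rt s false z) := by
  have h1 : z.length ≤ (rt s false z).length := by
    unfold rt
    split_ifs <;> simp
  have h2 := Lz_mono P h1
  have h3 := Lz_lt_code P (rt s false z)
  have h4 : (code 0 P.B (rt s false z)).length ≤
      2 ^ (jj s + 1) * (code 0 P.B (rt s false z)).length :=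
    Nat.le_mul_of_pos_left _ (by positivity)
  unfold tlx
  omega

theorem rule_congr (P : Par m) {s : ℕ} (hs : s ≤ m) (z : Str) (X X' : Lang)
    (h : ∀ v : Str, v.length ≤ tlx P.B s (rt s false z) → X v = X' v)
    (hX : vlu P.B s X z = ct (jj s) X z) : vlu P.B s X' z = ct (jj s) X' z := by
  rw [← vlu_congr P.B s z X X' h, hX]
  exact ct_congr P (jj_le hs) z X X' (fun v hv => h v (hv.trans (Lz_lt_tlx P s z).le))

end Pool.Agent.Lib.Pa76659I
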