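import Pool.Agent.Lib.Pa76659I.Lane
import Pool.Agent.Lib.Pa76659I.Loc

/-!
# Pa76659I.Cmp: lanes in complete mode

PROOFS. `ctr_isC`: cases on `s % 2` and `ζ`; for `s` even and `ζ = false :: z` it is
`P.cpx (jj s) _ z` with `IsC.mono` (`Lz P z ≤ Lz P (false :: z)`), otherwise constant or `P.cpx`.

`enc_lf_RDc`: `lf` is a constant (`Pa76659P.Wd.exists_enc_const` or `exists_enc` with w = t = m = 0) or
`decG (jj s) (Lz P ζ) (ctr s ζ) p`, which is `IsC (SL L) L L 1` by `Pa76659P.Wd.decG_isC`;
`Pa76659P.exists_enc` needs `L + L + 1 + L * (3 * L + 3) ≤ (es (code ..) p).length`, and this follows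
from `need_le P ζ` (`es_length`).

`enc_LTc`: if `x` is not a leaf use `enc_false`, otherwise `enc_lf_RDc` (the `choose_spec` of the
`dif`; the string is `es (code 0 P.B q.1) q.2 = x`).

`cd_complete`: `cd_root` with `D = RDc P s ζ` (fan-ins `2^(Lz P ζ)`, bounded by `Lz_lt_code`), and
`Pa76659P.Wd.decG_spec` with `ctr_isC`.

`rule_complete`: both roots `rt s b z` have table strings of length `tlx .. ≥ N` (`ls_length`,
`es_length`), so `lane_W` with `G = LT P.B s (RDc P s)` and `LT_leaf` give the hypothesis of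
`cd_complete`; then `vlu` is `xor (ct ..) false` for `s` even, `ct ..` for `s` odd.
-/

set_option maxHeartbeats 4000000

namespace Pool.Agent.Lib.Pa76659I

open Pool.Agent.Lib.Pa76659 Pool.Agent.Lib.Pa76659.Hier Pool.Agent.Lib.Pa76659H

variable {m : ℕ}

theorem ctr_isC (P : Par m) {s : ℕ} (hs : s ≤ m) (ζ : Str) :
    IsC (SL (Lz P ζ)) (Lz P ζ) (Lz P ζ) (jj s + 1) (ctr s ζ) := by
  by_cases h : s % 2 = 0
  · rcases ζ with _ | ⟨b, z⟩
    · have e : ctr s [] = fun _ => false := by
        funext X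
        simp [ctr, h]
      rw [e]
      exact IsC.const _ _ _ _ _
    · cases b
      · have e : ctr s (false :: z) = fun X => ct (jj s) X z := by
          funext X
          simp [ctr, h]
        rw [e]
        have h3 : Lz P z ≤ Lz P (false :: z) := Lz_mono P (by simp)
        exact (P.cpx (jj s) (jj_le hs) z).mono (SL_mono h3) h3 h3
      · have e : ctr s (true :: z) = fun _ => false := by
          funext X
          simp [ctr, h]
        rw [e]
        exact IsC.const _ _ _ _ _
  · have e : ctr s ζ = fun X => ct (jj s) X ζ := by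
      funext X
      simp only [ctr, if_neg h]
    rw [e]
    exact P.cpx (jj s) (jj_le hs) ζ

theorem enc_lf_RDc (P : Par m) {s : ℕ} (hs : s ≤ m) (ζ : Str) (p : List ℕ) :
    ∃ T, Pa76659P.Enc 1 (lf (RDc P s ζ) p) (es (code 0 P.B ζ) p) T := by
  have hlen : (code 0 P.B ζ).length ≤ (es (code 0 P.B ζ) p).length := by
    rw [es_length]
    exact Nat.le_mul_of_pos_right _ (by positivity)
  unfold lf
  cases nb (RDc P s ζ).mm 0 p with
  | some b =>
      exact Pa76659P.Wd.exists_enc_const 0 _
        ((Pa76659P.Wd.one_le_code 0 P.B ζ).trans hlen) b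
  | none =>
      have h := need_le P ζ
      unfold need at h
      refine Pa76659P.exists_enc (k := 0) (Pa76659P.Wd.decG_isC (jj s) (Lz P ζ) (ctr s ζ) p) _ ?_
      unfold Lz
      omega

theorem enc_LTc (P : Par m) {s : ℕ} (hs : s ≤ m) (x : Str) :
    ∃ T, Pa76659P.Enc 1 (LT P.B s (RDc P s) x) x T := by
  unfold LT
  split_ifs with h
  · have h1 := h.choose_spec
    obtain ⟨_, _, h4⟩ := h1
    obtain ⟨T, hT⟩ := enc_lf_RDc P hs h.choose.1 h.choose.2
    rw [h4] at hT
    exact ⟨T, hT⟩
  · exact enc_false x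

theorem cd_complete (P : Par m) {s : ℕ} (hs : s ≤ m) (ζ : Str) (X : Lang)
    (hX : ∀ p : List ℕ, p.length = jj s → Valid (code 0 P.B ζ) p →
      W s X (es (code 0 P.B ζ) p) = lf (RDc P s ζ) p X) :
    cd P.B s X ζ = ctr s ζ X := by
  rw [cd_root P.B s (RDc P s ζ) ζ X ?_ hX]
  · exact (Pa76659P.Wd.decG_spec (ctr_isC P hs ζ) X).symm
  · intro i _
    apply Nat.pow_le_pow_right (by norm_num)
    exact (Lz_lt_code P ζ).le.trans (Nat.le_mul_of_pos_right _ (by positivity))

theorem cd_complete2 (P : Par m) {s : ℕ} (hs : s ≤ m) (b : Bool) (z : Str) (X : Lang) (N : ℕ)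
    (hN : N ≤ tlx P.B s (rt s false z))
    (hX : ∀ w, N ≤ (ls s w).length → X (ls s w) = SC P s w) :
    cd P.B s X (rt s b z) = ctr s (rt s b z) X := by
  apply cd_complete P hs
  intro p hp hv
  rw [lane_W s (LT P.B s (RDc P s)) _ (enc_LTc P hs _) X ?_, LT_leaf P.B s (RDc P s) _ p hp hv]
  intro y hy
  apply hX
  rw [ls_length, List.length_append, hy, es_length, hp]
  rw [← tlx_rt P.B s b z] at hN
  unfold tlx at hN
  rw [pow_succ] at hN
  have e : (code 0 P.B (rt s b z)).length * 2 ^ jj s + (code 0 P.B (rt s b z)).length * 2 ^ jj s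
      = 2 ^ jj s * 2 * (code 0 P.B (rt s b z)).length := by ring
  omega

theorem rule_complete (P : Par m) {s : ℕ} (hs : s ≤ m) (z : Str) (X : Lang) (N : ℕ)
    (hN : N ≤ tlx P.B s (rt s false z))
    (hX : ∀ w, N ≤ (ls s w).length → X (ls s w) = SC P s w) :
    vlu P.B s X z = ct (jj s) X z := by
  have h0 := cd_complete2 P hs false z X N hN hX
  have h1 := cd_complete2 P hs true z X N hN hX
  by_cases h : s % 2 = 0
  · simp only [rt, if_pos h] at h0 h1
    unfold vlu
    rw [if_pos h, h0, h1]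
    simp [ctr, h]
  · simp only [rt, if_neg h] at h0
    unfold vlu
    rw [if_neg h, h0]
    simp only [ctr, if_neg h]

end Pool.Agent.Lib.Pa76659I
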