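import Pool.Agent.Lib.Pa76659H.Main
import Pool.Agent.Lib.Pa76659P.PLim

/-!
HighInitial: for every `m` an oracle with infinite polynomial hierarchy relative to which exactly the
first `m` inclusions of the chain of the high classes are proper. Definitions.

Lane `s` of the oracle, `1 ≤ s ≤ m`, holds the tables of the witness `W s`; lane `m + 1` holds the
names of the free literals of the collapse zones.
-/

set_option maxHeartbeats 4000000
set_option linter.unusedSectionVars false

namespace Pool.Agent.Lib.Pa76659I

open Pool.Agent.Lib.Pa76659 Pool.Agent.Lib.Pa76659.Hier Pool.Agent.Lib.Pa76659H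

/-! ### lanes, contents, witnesses, the rule -/

/-- strings of lane `s` -/
def ls (s : ℕ) (w : Str) : Str :=
  true :: false :: false :: false :: false :: (List.replicate s true ++ false :: w)

/-- lane `s` of the oracle -/
def ln (s : ℕ) (X : Lang) : Lang := fun w => X (ls s w)

/-- static tables which make `J` universal -/
noncomputable def U0 : Lang := Pa76659P.exists_tables2.choose

/-- the contents: `ct k X` is complete for the level `k + 1` relative to `X` -/
noncomputable def ct (k : ℕ) (X : Lang) : Lang := J (k + 1) (join U0 X)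

/-- the witness of lane `s` -/
noncomputable def W (s : ℕ) (X : Lang) : Lang := J 1 (join (ln s X) X)

/-- the level of the witness of lane `s` -/
def jj (s : ℕ) : ℕ := (s + 1) / 2

/-- roots of the codes of `z` in lane `s` (for odd `s` only one root) -/
def rt (s : ℕ) (b : Bool) (z : Str) : Str := if s % 2 = 0 then b :: z else z

/-- decoded value of a root -/
noncomputable def cd (B s : ℕ) (X : Lang) (ζ : Str) : Bool := EE^[jj s] (W s X) (code 0 B ζ)

/-- decoded value of `z` in lane `s` -/
noncomputable def vlu (B s : ℕ) (X : Lang) (z : Str) : Bool :=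
  if s % 2 = 0 then xor (cd B s X (false :: z)) (cd B s X (true :: z)) else cd B s X z

/-- the rule: the witnesses `W s`, `1 ≤ s ≤ m`, compute the contents -/
def RR (m B : ℕ) (X : Lang) : Prop := ∀ s, 1 ≤ s → s ≤ m → ∀ z, vlu B s X z = ct (jj s) X z

/-- length of the table strings of the root `ζ` in lane `s` -/
def tlx (B s : ℕ) (ζ : Str) : ℕ := s + 6 + 2 ^ (jj s + 1) * (code 0 B ζ).length

/-! ### parameters -/

/-- bound for the lengths of the names of the families attached to a string of length `n` -/
def nl (m e n : ℕ) : ℕ := m + 7 + (3 + (n + 4) ^ (2 ^ e) + (n + 2)) * 2 ^ m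

/-- how long the code of a string of length `n` has to be -/
def need (m b e n : ℕ) : ℕ :=
  (n + 2) ^ b + (n + 2) ^ b + 1 + (n + 2) ^ b * (3 * (n + 2) ^ b + 3) +
    2 * ((n + 2) ^ b * 2 ^ m + 3) + 3 + 2 * (3 * nl m e n + 3)

/-- parameters -/
structure Par (m : ℕ) where
  b : ℕ
  e : ℕ
  B : ℕ
  cpx : ∀ k ≤ m, ∀ z : Str, IsC (SL ((z.length + 2) ^ b)) ((z.length + 2) ^ b)
    ((z.length + 2) ^ b) (k + 1) (fun X => ct k X z)
  he : ∀ n : ℕ, 2 ^ (m + 1) * (n + 2) ^ b + 2 ≤ (n + 2) ^ (2 ^ e)
  hB : ∀ n : ℕ, need m b e n ≤ (n + 2) ^ (2 ^ B)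

variable {m : ℕ}

/-- range of the contents -/
def Lz (P : Par m) (z : Str) : ℕ := (z.length + 2) ^ P.b

/-! ### conditions -/

/-- members of a condition -/
def Mem' (P : Par m) (q : Cnd) (X : Lang) : Prop := Mem q X ∧ RR m P.B X

structure WF' (P : Par m) (q : Cnd) : Prop where
  wf : WF q
  rl : ∀ s, 1 ≤ s → s ≤ m → ∀ z, tlx P.B s (rt s false z) < q.N →
    vlu P.B s q.σ z = ct (jj s) q.σ z
  ci : ∀ c ∈ q.cols, ∀ X, nEval c.i X = W m X

/-- the set of the column is high at level `l.length` on the whole condition -/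
def Just' (P : Par m) (q : Cnd) (c : Col) : Prop := ∀ X, Mem' P q X → ∀ s,
  sEval c.p c.l (join X (hs c X)) s = QQ (c.l.length + 1) X s

def PP' (P : Par m) (q : Cnd) : Prop := WF' P q ∧ ∀ c ∈ q.cols, Just' P q c

/-- the scale lemma -/
def ScaleLemma' (P : Par m) : Prop := ∀ q, PP' P q → ∀ (p : PIx) (l : List NIx), l ≠ [] →
  ∃ X, Mem' P q X ∧ ∃ s, sEval p l X s ≠ QQ (l.length + 1) X s

/-- height of the main trees in the zones of type `t` -/
def kap (t : ℕ) : ℕ := t / 2 + 1

/-- the machines against which the test language is diagonalised in the zones of type `t` -/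
noncomputable def mach (t : ℕ) (p' p : PIx) (l : List NIx) (X : Lang) : Lang :=
  if t % 2 = 0 then sEval p l (join X (W t X)) else pEval p' (sEval p l (join X (W t X)))

/-- the zone lemma for type `t` -/
def ZoneLemma (P : Par m) (t : ℕ) : Prop := ∀ q, PP' P q → ∀ (p' p : PIx) (l : List NIx),
  l.length + 1 = kap t → ∃ X, Mem' P q X ∧ ∃ s, mach t p' p l X s ≠ QQ (kap t) X s

/-! ### lane tables from targets -/

/-- The table bits of a lane for the targets `G x` of the bits `x` of the witness. The argument `w`
is `x ++ y` with `y.length = x.length`. -/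
noncomputable def SG (G : Str → Lang → Bool) (w : Str) : Bool :=
  Pa76659P.tabOf 1 (G (w.take (w.length / 2))) (w.take (w.length / 2)) w

/-- data of a root: fan-ins and functions at the leaves -/
structure RD where
  mm : ℕ → ℕ
  g : List ℕ → Lang → Bool

/-- function at the leaf `p`, constant outside the fan-ins -/
def lf (D : RD) (p : List ℕ) : Lang → Bool :=
  match nb D.mm 0 p with
  | some b => fun _ => b
  | none => D.g p

open Classical in
/-- targets of the bits of the witness of lane `s` -/
noncomputable def LT (B s : ℕ) (D : Str → RD) (x : Str) : Lang → Bool :=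
  if h : ∃ q : Str × List ℕ, q.2.length = jj s ∧ Valid (code 0 B q.1) q.2 ∧
    es (code 0 B q.1) q.2 = x then lf (D h.choose.1) h.choose.2 else fun _ => false

/-- content carried by a root -/
noncomputable def ctr (s : ℕ) (ζ : Str) (X : Lang) : Bool :=
  if s % 2 = 0 then
    (match ζ with
      | false :: z => ct (jj s) X z
      | _ => false)
  else ct (jj s) X ζ

/-- complete mode: the root carries the circuit of its content -/
noncomputable def RDc (P : Par m) (s : ℕ) (ζ : Str) : RD :=
  ⟨fun _ => 2 ^ Lz P ζ, Pa76659P.Wd.decG (jj s) (Lz P ζ) (ctr s ζ)⟩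

/-- the bits of lane `s` in complete mode -/
noncomputable def SC (P : Par m) (s : ℕ) (w : Str) : Bool := SG (LT P.B s (RDc P s)) w

open Classical in
/-- the oracle `Y` with all lanes in complete mode -/
noncomputable def bg (P : Par m) (Y : Lang) (v : Str) : Bool :=
  if h : ∃ t : ℕ × Str, 1 ≤ t.1 ∧ t.1 ≤ m ∧ v = ls t.1 t.2 then SC P h.choose.1 h.choose.2
  else Y v

/-! ### the zones of type `t` -/

/-- base string of the names of the family `y` -/
def bas (P : Par m) (y : Str) : Str := code 0 P.e y

/-- name of the literal `p` of the family `y` -/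
noncomputable def nmv (P : Par m) (y : Str) (p : List ℕ) : Str := ls (m + 1) (es (bas P y) p)

/-- family strings: `f = false` for lane `t`, `f = true` for lane `m` -/
def yv (t : ℕ) (f b : Bool) (z : Str) : Str := if t % 2 = 0 then b :: f :: z else f :: z

/-- fan-ins -/
def mA (t N : ℕ) (i : ℕ) : ℕ := 2 ^ (N * 2 ^ (kap t - 1 - i))

/-- the root of the main tree -/
def s0 (N : ℕ) : Str := false :: List.replicate (N - 1) false

/-- one free tree of the zone -/
noncomputable def T1 (P : Par m) (t N : ℕ) (y : Str) (X : Lang) : Bool :=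
  tr (mA t N) (jj t) (fun p => X (nmv P y p)) []

/-- the value coded by the free trees of family `f` at `z` -/
noncomputable def FT (P : Par m) (t N : ℕ) (f : Bool) (z : Str) (X : Lang) : Bool :=
  if t % 2 = 0 then xor (T1 P t N (yv t f false z) X) (T1 P t N (yv t f true z) X)
  else T1 P t N (yv t f false z) X

/-- the content which the free trees of family `f` at `z` should have -/
noncomputable def cz (m t : ℕ) (f : Bool) (z : Str) (X : Lang) : Bool :=
  if f = true then ct (jj m) X z else ct (jj t) X z

/-- active roots of the zone -/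
def act (P : Par m) (N E : ℕ) (ζ : Str) : Prop := N ≤ Lz P ζ ∧ ζ.length < E

/-- the string `z` of the root `ζ` of lane `s` -/
def zof (s : ℕ) (ζ : Str) : Str := if s % 2 = 0 then ζ.tail else ζ

/-- the pair bit of the root `ζ` -/
def bof (ζ : Str) : Bool := ζ.headD false

open Classical in
/-- decomposition of a circuit of level `k` in a tree of decision trees -/
noncomputable def decD (S : Set Str) (k w T : ℕ) (f : Lang → Bool) : List ℕ → Lang → Bool :=
  if h : ∃ g : List ℕ → Lang → Bool, (∀ p, IsC S w T 0 (g p)) ∧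
      ∀ Y, f Y = tr (fun _ => 2 ^ w) k (fun p => g p Y) [] then h.choose else fun _ _ => false

/-- the names which the bits of the witness of lane `m` read in the zones of type `t < m` -/
def nms (P : Par m) (t : ℕ) (ζ : Str) : Set Str := {v | ∃ (b : Bool) (p : List ℕ),
  p.length = jj t ∧ Valid (bas P (yv t true b (zof m ζ))) p ∧
    v = nmv P (yv t true b (zof m ζ)) p}

/-- function carried by the root `ζ` of lane `m` in the zones of type `t < m` -/
noncomputable def fd (P : Par m) (t N : ℕ) (ζ : Str) (X : Lang) : Bool :=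
  if m % 2 = 0 ∧ bof ζ = true then false else FT P t N true (zof m ζ) X

open Classical in
/-- root data in the zone -/
noncomputable def RDz (P : Par m) (t N E s : ℕ) (ζ : Str) : RD :=
  if act P N E ζ ∧ ¬ (s % 2 = 0 ∧ ζ = []) ∧ (s = t ∨ s = m) then
    (if s = t then ⟨mA t N, fun p X => X (nmv P (yv t false (bof ζ) (zof s ζ)) p)⟩
    else ⟨fun _ => 2 ^ (2 * (Lz P ζ * 2 ^ m + 3)),
      decD (nms P t ζ) (jj m) (2 * (Lz P ζ * 2 ^ m + 3)) 2 (fd P t N ζ)⟩)
  else RDc P s ζ

/-- the bits of lane `s` in the zone -/
noncomputable def SZ (P : Par m) (t N E s : ℕ) (w : Str) : Bool := SG (LT P.B s (RDz P t N E s)) w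

open Classical in
/-- the free part of the worlds of the zone -/
noncomputable def Yz (P : Par m) (t N E : ℕ) (x : List ℕ → Bool) (v : Str) : Bool :=
  if h : ∃ a : ℕ × Str, 1 ≤ a.1 ∧ a.1 ≤ m ∧ v = ls a.1 a.2 then SZ P t N E h.choose.1 h.choose.2
  else if h : ∃ a : Str × List ℕ, a.2.length = jj t ∧ Valid (bas P a.1) a.2 ∧
    v = nmv P a.1 a.2 then x (h.choose.2 ++ [Pa76659P.rk h.choose.1])
  else if h : ∃ p : List ℕ, p.length = kap t ∧ Valid (s0 N) p ∧ v = es (s0 N) p then
    x (h.choose ++ [0])
  else false

/-- the worlds of the zone -/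
noncomputable def Xz (P : Par m) (t E : ℕ) (q : Cnd) (x : List ℕ → Bool) : Lang :=
  Phi q (fun _ _ => none) (Yz P t q.N E x)

end Pool.Agent.Lib.Pa76659I
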