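import Pool.Agent.Lib.Pa76659I.Defs

/-!
# Pa76659I.Idx: one index of a nondeterministic machine computes the witness `W s`

PROOF of `exists_im`. `W s X = EE (J0 (Z X))` with `Z X = join (ln s X) X` (`J_succ`, `J_zero`).
All programs of the library are explicit, only the statements `J0_mem`, `join_mem`, `PO_subset`,
`NPO_subset` (Pa76659/Progs.lean, Subst.lean) hide them in existentials; restate them uniformly:
(1) `∃ M p, ∀ X x, Halts X M (inp x) (p.eval x.length) ∧ Z X x = accepts X M (inp x) (p.eval ..)`:
    branch on the first bit: `[]` gives false; `true :: u`: pop and query register 0;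
    `false :: w`: pop, push `false`, `pushN s`, push `false` four times, push `true` (so that register
    0 holds `ls s w`), query; see `join_mem2`, `reg_mem` in Pa76659P/Member.lean (`exec_pushN`, `st`,
    `upd_st`), and `exec_of_halts`.
(2) `∃ M p, ∀ Z x, Halts Z M (inp x) .. ∧ J0 Z x = accepts Z M (inp x) ..`: the proof of `J0_mem`
    with the quantifiers exchanged (the program is `progJ0`).
(3) `progEE` with `iEE = (progEE, 10X+10, X)`, `nEval_iEE B : nEval iEE B = EE B`
    (Pa76659/Limit.lean; its proof shows halting as well).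
(4) composition by `sim_accepts` (Subst.lean) as in the proof of `NPO_subset`: if `N, pN` decide
    `B X` from `X` for all `X`, then `trP (M.bnd + 2) N M` with the same witness polynomial does for
    oracle `X` what `M` does for oracle `B X`. Apply it twice: `M = progEE`, `B = J0 (Z X)` over
    `Z X`, and then `Z X` over `X`.
`nEval i X x` is by definition `decide (∃ y, y.length = i.2.2.eval x.length ∧ accepts X i.1 (inp2 x y)
(i.2.1.eval x.length) = true)`.

PROOF of `W_mem`. As `Pa76659P.Aw_mem`: `ln s X ∈ PO X`, `join (ln s X) X ∈ PO X`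
(`Pa76659P.join_mem2`, `query_mem`), `J 1 Z = EE (J0 Z) ∈ NPO (J0 Z) ⊆ NPO Z ⊆ NPO X`
(`EE_mem`, `J0_mem`, `NPO_subset`).
-/

set_option maxHeartbeats 4000000

namespace Pool.Agent.Lib.Pa76659I

open Pool.Agent.Lib.Pa76659 Pool.Agent.Lib.Pa76659.Hier Pool.Agent.Lib.Pa76659H

namespace IdxAux

/-- a machine which computes `F X` from `X` for all `X` -/
def UPO (F : Lang → Lang) : Prop := ∃ (M : Prog) (p : Polynomial ℕ), ∀ (X : Lang) (x : Str),
  Halts X M (inp x) (p.eval x.length) ∧ (F X x = accepts X M (inp x) (p.eval x.length))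

/-- a nondeterministic machine which computes `F X` from `X` for all `X` -/
def UNP (F : Lang → Lang) : Prop := ∃ i : NIx, ∀ X : Lang,
  (∀ x y : Str, y.length = i.2.2.eval x.length → Halts X i.1 (inp2 x y) (i.2.1.eval x.length)) ∧
  nEval i X = F X

theorem exec_of_halts (C : Lang) (N : Prog) (u : ℕ → Str) (n : ℕ) (h : Halts C N u n) :
    Exec C N u (runN C n ([N], u)).2 n := by
  have := exec_shift C 0 N u _ h u
  have e1 : ∀ s0 u : ℕ → Str, mg 0 s0 u = u := by
    intro s0 u; funext r; simp [mg]
  have e2 : ∀ P : Prog, P.shift 0 = P := by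
    intro P
    induction P with
    | skip => rfl
    | push r b => rfl
    | pop r => rfl
    | query r t => rfl
    | seq p q hp hq => simp [Prog.shift, hp, hq]
    | branch r p q e hp hq he => simp [Prog.shift, hp, hq, he]
    | loop r p hp => simp [Prog.shift, hp]
  rwa [e1, e1, e2] at this

theorem upo_ln (s : ℕ) : UPO (ln s) := by
  refine ⟨Prog.seq (Prog.push 0 false) (Prog.seq (pushN s) (Prog.seq (Prog.push 0 false)
    (Prog.seq (Prog.push 0 false) (Prog.seq (Prog.push 0 false) (Prog.seq (Prog.push 0 false)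
    (Prog.seq (Prog.push 0 true) (Prog.query 0 0))))))),
    Polynomial.C (2 * s + 20), fun X x => ?_⟩
  rw [Polynomial.eval_C]
  have h1 := exec_push (O := X) 0 false (st [x, [], [], [], [], []])
  rw [upd_st _ _ _ (by simp)] at h1
  have h2 := exec_pushN (O := X) [] s (false :: x)
  have hf : ∀ (b : Bool) (a : Str), Exec X (Prog.push 0 b) (st [a, [], [], [], [], []])
      (st [b :: a, [], [], [], [], []]) 1 := by
    intro b a
    have := exec_push (O := X) 0 b (st [a, [], [], [], [], []])
    rwa [upd_st _ _ _ (by simp)] at this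
  have h3 := exec_query (O := X) 0 0 (st [ls s x, [], [], [], [], []])
  rw [upd_st _ _ _ (by simp)] at h3
  have hall := h1.seq (h2.seq ((hf false _).seq ((hf false _).seq ((hf false _).seq
    ((hf false _).seq ((hf true _).seq h3))))))
  rw [← inp_st] at hall
  obtain ⟨h8, h9⟩ := hall.halts (N := 2 * s + 20) (by omega)
  refine ⟨h8, ?_⟩
  rw [h9]
  show X (ls s x) = (some (X (ls s x)) == some true)
  cases X (ls s x) <;> rfl

theorem upo_id : UPO (fun X => X) := by
  refine ⟨Prog.query 0 0, 1, fun O x => ?_⟩
  have h := (exec_query (O := O) 0 0 (inp x)).halts (N := 1) le_rfl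
  simp only [Polynomial.eval_one]
  refine ⟨h.1, ?_⟩
  rw [h.2]
  simp [inp]

theorem upo_join {A B : Lang → Lang} (hA : UPO A) (hB : UPO B) :
    UPO (fun X => join (A X) (B X)) := by
  obtain ⟨MA, pA, hA⟩ := hA
  obtain ⟨MB, pB, hB⟩ := hB
  refine ⟨Prog.branch 0 (Prog.seq (Prog.pop 0) MB) (Prog.seq (Prog.pop 0) MA)
    Prog.skip, pA + pB + 4, fun X x => ?_⟩
  simp only [Polynomial.eval_add, Polynomial.eval_ofNat]
  rcases x with _ | ⟨b, v⟩
  · have h1 : Exec X (Prog.branch 0 (Prog.seq (Prog.pop 0) MB)
        (Prog.seq (Prog.pop 0) MA) Prog.skip) (inp []) (inp []) 2 :=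
      Exec.branch_nil (by simp [inp]) (exec_skip _)
    obtain ⟨h2, h3⟩ := h1.halts
      (N := pA.eval ([] : Str).length + pB.eval ([] : Str).length + 4) (by omega)
    refine ⟨h2, ?_⟩
    rw [h3]; simp [join, inp]
  · have e : Function.update (inp (b :: v)) 0 v = inp v := by
      funext r
      unfold inp
      by_cases hr : r = 0
      · subst hr; simp
      · simp [hr]
    have hpop : Exec X (Prog.pop 0) (inp (b :: v)) (inp v) 1 := by
      have := exec_pop (O := X) 0 (inp (b :: v))
      rwa [show (inp (b :: v) 0).tail = v by simp [inp], e] at this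
    have hleA : pA.eval v.length ≤ pA.eval (b :: v : Str).length :=
      poly_mono pA (by simp)
    have hleB : pB.eval v.length ≤ pB.eval (b :: v : Str).length :=
      poly_mono pB (by simp)
    cases b
    · obtain ⟨h5, h6⟩ := hA X v
      have h1 := exec_of_halts X MA _ _ h5
      have h2 := Exec.branch_false (r := 0) (p := Prog.seq (Prog.pop 0) MB) (e := Prog.skip)
        (s := inp (false :: v)) (l := v) (by simp [inp]) (hpop.seq h1)
      obtain ⟨h3, h4⟩ := h2.halts
        (N := pA.eval (false :: v : Str).length + pB.eval (false :: v : Str).length + 4) (by omega)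
      refine ⟨h3, ?_⟩
      rw [h4]
      show A X v = _
      rw [h6]
      rfl
    · obtain ⟨h5, h6⟩ := hB X v
      have h1 := exec_of_halts X MB _ _ h5
      have h2 := Exec.branch_true (r := 0) (q := Prog.seq (Prog.pop 0) MA) (e := Prog.skip)
        (s := inp (true :: v)) (l := v) (by simp [inp]) (hpop.seq h1)
      obtain ⟨h3, h4⟩ := h2.halts
        (N := pA.eval (true :: v : Str).length + pB.eval (true :: v : Str).length + 4) (by omega)
      refine ⟨h3, ?_⟩
      rw [h4]
      show B X v = _
      rw [h6]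
      rfl

theorem upo_J0 : UPO J0 := by
  refine ⟨progJ0, 5 * Polynomial.X + (Polynomial.X + 1) * (2 * Polynomial.X + 30) + 20,
    fun Z w => ?_⟩
  simp only [Polynomial.eval_add, Polynomial.eval_mul, Polynomial.eval_X, Polynomial.eval_ofNat,
    Polynomial.eval_one]
  have h1 := exec_push (O := Z) 0 false (st [w, [], [], [], [], []])
  rw [upd_st _ _ _ (by simp)] at h1
  have h2 := exec_query (O := Z) 0 5 (st [false :: w, [], [], [], [], []])
  rw [upd_st _ _ _ (by simp)] at h2
  set z := Z (false :: w) with hz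
  have h3 := exec_pop (O := Z) 0 (st [false :: w, [], [], [], [], [z]])
  rw [upd_st _ _ _ (by simp)] at h3
  have h4 := exec_mv (O := Z) (show 0 ≠ 1 by norm_num) w (st [w, [], [], [], [], [z]]) rfl
  rw [upd_st _ _ _ (by simp), upd_st _ _ _ (by simp)] at h4
  obtain ⟨u', f', h5, h6⟩ := exec_main (O := Z) [] [z] (w.reverse ++ []) [] []
  have h7 : Exec Z (Prog.branch 5 (Prog.branch 4 (Prog.push 0 true) (Prog.push 0 true)
      (Prog.push 0 false)) (Prog.push 0 true) Prog.skip) (st [[], [], u', [], f', [z]])
      (st [[!(z && decide (f' = []))], [], u', [], f', [z]]) 3 := by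
    have h8 : ∀ b, Exec Z (Prog.push 0 b) (st [[], [], u', [], f', [z]])
        (st [[b], [], u', [], f', [z]]) 1 := by
      intro b
      have := exec_push (O := Z) 0 b (st [[], [], u', [], f', [z]])
      rwa [upd_st _ _ _ (by simp)] at this
    cases hz2 : z
    · rw [hz2] at h8
      exact (Exec.branch_false (l := []) rfl (h8 true)).mono (by omega)
    · rw [hz2] at h8
      refine Exec.branch_true (l := []) rfl ?_
      rcases hf : f' with _ | ⟨c, l⟩
      · rw [hf] at h8
        exact Exec.branch_nil rfl (h8 false)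
      · rw [hf] at h8
        cases c
        · exact Exec.branch_false (l := l) rfl (h8 true)
        · exact Exec.branch_true (l := l) rfl (h8 true)
  have hall := h1.seq (h2.seq (h3.seq (h4.seq (h5.seq h7))))
  rw [← inp_st] at hall
  obtain ⟨h8, h9⟩ := hall.halts
    (N := 5 * w.length + (w.length + 1) * (2 * w.length + 30) + 20) (by
      simp only [List.append_nil, List.length_reverse, List.length_nil, Nat.add_zero]
      omega)
  refine ⟨h8, ?_⟩
  have h10 : decide (f' = []) = interp Z w.reverse [] := by
    rw [List.append_nil] at h6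
    cases h11 : interp Z w.reverse []
    · rw [h11] at h6
      simp only [decide_eq_false_iff_not, h6]; simp
    · rw [h11] at h6
      simp [h6]
  refine Eq.trans ?_ h9.symm
  rw [h10]
  unfold J0
  rw [← hz]
  cases (z && interp Z w.reverse []) <;> rfl

theorem unp_EE : UNP EE := by
  refine ⟨iEE, fun X => ⟨fun x y _ => ?_, nEval_iEE X⟩⟩
  obtain ⟨s', h1, h2⟩ := exec_progEE X x y
  have h3 := (h1.halts (N := 10 * x.length + 10) le_rfl).1
  show Halts X progEE (inp2 x y) ((10 * Polynomial.X + 10 : Polynomial ℕ).eval x.length)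
  simp only [Polynomial.eval_add, Polynomial.eval_mul, Polynomial.eval_ofNat,
    Polynomial.eval_X]
  exact h3

theorem unp_comp {F G : Lang → Lang} (hF : UPO F) (hG : UNP G) : UNP (fun X => G (F X)) := by
  obtain ⟨N, pN, hF⟩ := hF
  obtain ⟨⟨M, p, q⟩, hG⟩ := hG
  refine ⟨(trP (M.bnd + 2) N M, p * (TT N pN).comp (Polynomial.X + q + p), q), fun X => ?_⟩
  obtain ⟨h1, h2⟩ := hG (F X)
  dsimp only at h1
  have key : ∀ x y : Str, y.length = q.eval x.length →
      Halts X (trP (M.bnd + 2) N M) (inp2 x y)
        ((p * (TT N pN).comp (Polynomial.X + q + p)).eval x.length) ∧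
      accepts X (trP (M.bnd + 2) N M) (inp2 x y)
        ((p * (TT N pN).comp (Polynomial.X + q + p)).eval x.length) =
        accepts (F X) M (inp2 x y) (p.eval x.length) := by
    intro x y hy
    exact sim_accepts (hF X) M (inp2 x y) (p.eval x.length) (x.length + y.length)
      ((p * (TT N pN).comp (Polynomial.X + q + p)).eval x.length) (h1 x y hy) (by
        intro i hi
        simp only [inp2]
        rw [if_neg (by omega), if_neg (by omega)]) (inp2_bdd x y) (by
        rw [Polynomial.eval_mul, Polynomial.eval_comp, Polynomial.eval_add, Polynomial.eval_add,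
          Polynomial.eval_X, hy])
  refine ⟨fun x y hy => (key x y hy).1, ?_⟩
  show _ = G (F X)
  rw [← h2]
  funext x
  unfold nEval
  apply decide_eq_decide.2
  constructor
  · rintro ⟨y, hy, hy2⟩
    exact ⟨y, hy, by rw [← (key x y hy).2]; exact hy2⟩
  · rintro ⟨y, hy, hy2⟩
    exact ⟨y, hy, by rw [(key x y hy).2]; exact hy2⟩

theorem unp_W (s : ℕ) : UNP (W s) := by
  have h := unp_comp (upo_join (upo_ln s) upo_id) (unp_comp upo_J0 unp_EE)
  exact h

end IdxAux

theorem exists_im (s : ℕ) : ∃ i : NIx, ∀ X : Lang, nEval i X = W s X := by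
  obtain ⟨i, hi⟩ := IdxAux.unp_W s
  exact ⟨i, fun X => (hi X).2⟩

theorem W_mem (s : ℕ) (X : Lang) : W s X ∈ NPO X := by
  obtain ⟨i, hi⟩ := IdxAux.unp_W s
  obtain ⟨h1, h2⟩ := hi X
  refine ⟨i.1, i.2.1, i.2.2, fun x => ⟨fun y hy => h1 x y hy, ?_⟩⟩
  rw [← h2]
  simp [nEval]

end Pool.Agent.Lib.Pa76659I
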