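import Pool.Agent.Lib.Pa76659I.Loc
import Pool.Agent.Lib.Pa76659I.Idx
import Pool.Agent.Lib.Pa76659P.Member

/-!
# Pa76659I.Fin: from the properties of the oracle to the classes

`C 0 = RHighSucc X 0`, `C (2 k + 1) = High X (k + 1)`, `C (2 k) = RHighSucc X k`.

PROOFS.
`univ`: every `L ∈ Sig X (k + 1)` is `fun x => ct k X (code j B x)` for some `j B`:
`exists_sEval` and `Univ2 U0` (`Pa76659P.exists_tables2.choose_spec U0 (fun _ _ => rfl)`), see
`Pa76659P.Sig_univ`.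
`W_in`: `W s X ∈ C s` for `1 ≤ s ≤ m`: `W_mem`; `cd B s X ∈ Sig (join X (W s X)) (jj s)` by
`EE_iter_mem _ (Pa76659P.right_mem ..)` and `Pa76659P.Sig_code`. `s` odd, `s = 2k+1`, `jj s = k+1`:
`L ∈ Sig X (k+2)` is `ct (k+1) X ∘ code = vlu ∘ code = cd ∘ code ∈ Sig .. (k+1)`. `s` even,
`s = 2k`, `jj s = k`: `C ∈ Sig X (k+1)` is `xor (cd (false :: code ..)) (cd (true :: code ..)) ∈
PO (cd B s X)` (`Pa76659P.xor_mem`, `code_mem_cons`), and `RHighSucc X k` is about
`DelSucc X (k+1) ⊆ DelSucc (join X (W s X)) k`. See `val_sig`, `val_del`, `allProper_of_spec` in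
Pa76659P/Member.lean.
`W_out`: `W t X ∉ C (t - 1)` for `1 ≤ t ≤ m`. `t = 2k + 1`: if `DelSucc X (k+1) ⊆
DelSucc (join X (W t X)) k` then `QQ (k+1) X ∈ DelSucc X (k+1)` (`QQ_mem`, `query_mem`) is
`pEval p' (sEval p l (join ..))` with `l.length = k` (`exists_pEval`, `exists_sEval`), `kap t = k+1`.
`t = 2k + 2`: `C (t-1) = High X (k+1)`: `QQ (k+2) X ∈ Sig X (k+2) ⊆ Sig (join X (W t X)) (k+1)` is
`sEval p l ..` with `l.length = k+1`, `kap t = k+2`.
`all_in`: every `A ∈ High X (k+1)` is in `C m` (`1 ≤ m`): `QQ (k+2) X ∈ Sig (join X A) (k+1)` is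
`sEval p l (join X A)` with `l.length = k+1`; `A = nEval a X` (`exists_nEval`); `h3` gives a column, so
`W m X ∈ PO (join X A)` by `walk_mem` (Pa76659H/Walk.lean; see `highCollapse_of`), then
`join X (W m X) ∈ PO (join X A)` (`Pa76659P.join_mem2`), `Pa76659P.Sig_subset` and `W_in`.
Chain: `Pa76659P.high_rhigh`, `rhigh_high` are stated for the classes of Pa76659P, the same facts for
Pa76659H are `high_rhigh`, `rhigh_high` in Pa76659H/Fin.lean; the classes used here are those of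
Pa76659H. Infinite hierarchy from `h2` as in `highCollapse_of`.
Conclusion: for `j < m` the set `W (j+1) X` is in `C (j+1)` and not in `C j`; for `j ≥ m`:
`C (j+1) ⊆ High X k ⊆ C m ⊆ C j`.
-/

set_option maxHeartbeats 4000000

namespace Pool.Agent.Lib.Pa76659I

open Pool.Agent.Lib.Pa76659 Pool.Agent.Lib.Pa76659.Hier Pool.Agent.Lib.Pa76659H

/-- the chain of the high classes relative to `X` -/
def HC (X : Lang) (j : ℕ) : Set Lang :=
  if j % 2 = 0 then RHighSucc X (j / 2) else High X ((j + 1) / 2)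

theorem HC_even (X : Lang) (k : ℕ) : HC X (2 * k) = RHighSucc X k := by
  unfold HC
  rw [if_pos (by omega), show 2 * k / 2 = k by omega]

theorem HC_odd (X : Lang) (k : ℕ) : HC X (2 * k + 1) = High X (k + 1) := by
  unfold HC
  rw [if_neg (by omega), show (2 * k + 1 + 1) / 2 = k + 1 by omega]

theorem HC_succ (X : Lang) (j : ℕ) : HC X j ⊆ HC X (j + 1) := by
  rcases Nat.even_or_odd' j with ⟨k, rfl | rfl⟩
  · rw [HC_even, HC_odd]
    exact rhigh_high
  · rw [HC_odd, show 2 * k + 1 + 1 = 2 * (k + 1) by ring, HC_even]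
    exact high_rhigh

theorem HC_mono (X : Lang) {i j : ℕ} (h : i ≤ j) : HC X i ⊆ HC X j := by
  induction j, h using Nat.le_induction with
  | base => exact subset_rfl
  | succ j _ ih => exact ih.trans (HC_succ X j)

theorem HC_high (X : Lang) (j : ℕ) : ∃ k, HC X j ⊆ High X (k + 1) := by
  rcases Nat.even_or_odd' j with ⟨k, rfl | rfl⟩
  · refine ⟨k, ?_⟩
    rw [HC_even]
    exact rhigh_high
  · refine ⟨k, ?_⟩
    rw [HC_odd]

theorem univU0 : Pa76659P.Univ2 U0 :=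
  Pa76659P.exists_tables2.choose_spec U0 (fun _ _ => rfl)

/-- universality of the contents -/
theorem ct_univ {X L : Lang} {k : ℕ} (h : L ∈ Sig X (k + 1)) :
    ∃ j B, ∀ x, ct k X (code j B x) = L x :=
  Pa76659P.Sig_univ univU0 h

theorem cd_sig (B s : ℕ) (X : Lang) (k : ℕ) (hk : jj s = k + 1) :
    cd B s X ∈ Sig (join X (W s X)) (k + 1) := by
  have h1 := EE_iter_mem (W s X) (Pa76659P.right_mem X (W s X)) (k + 1)
  have h2 := Pa76659P.Sig_code h1 0 B
  unfold cd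
  rw [hk]
  exact h2

theorem W_sig {m B : ℕ} {X : Lang} (h1 : RR m B X) {k : ℕ} (hk : 2 * k + 1 ≤ m) :
    Sig X (k + 2) ⊆ Sig (join X (W (2 * k + 1) X)) (k + 1) := by
  intro L hL
  obtain ⟨j, B', h⟩ := ct_univ hL
  have hj : jj (2 * k + 1) = k + 1 := by
    unfold jj
    omega
  have e : L = fun x => cd B (2 * k + 1) X (code j B' x) := by
    funext x
    rw [← h x]
    have h2 := h1 (2 * k + 1) (by omega) hk (code j B' x)
    rw [hj] at h2
    rw [← h2]
    unfold vlu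
    rw [if_neg (by omega)]
  rw [e]
  exact Pa76659P.Sig_code (cd_sig B _ X k hj) j B'

theorem W_del {m B : ℕ} {X : Lang} (h1 : RR m B X) {k : ℕ} (hk1 : 1 ≤ k) (hk : 2 * k ≤ m) :
    DelSucc X (k + 1) ⊆ DelSucc (join X (W (2 * k) X)) k := by
  rintro L ⟨C, hC, hL⟩
  obtain ⟨j, B', h⟩ := ct_univ hC
  have hj : jj (2 * k) = k := by
    unfold jj
    omega
  have e : C = fun x => xor (cd B (2 * k) X (false :: code j B' x))
      (cd B (2 * k) X (true :: code j B' x)) := by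
    funext x
    rw [← h x]
    have h2 := h1 (2 * k) (by omega) hk (code j B' x)
    rw [hj] at h2
    rw [← h2]
    unfold vlu
    rw [if_pos (by omega)]
  have hC2 : C ∈ PO (cd B (2 * k) X) := by
    rw [e]
    exact Pa76659P.xor_mem (Pa76659P.code_mem_cons false _ j B')
      (Pa76659P.code_mem_cons true _ j B')
  obtain ⟨k', rfl⟩ : ∃ k', k = k' + 1 := ⟨k - 1, by omega⟩
  exact ⟨cd B (2 * (k' + 1)) X, cd_sig B _ X k' hj, PO_subset hC2 hL⟩

theorem HC_of_sub {m B : ℕ} {X A : Lang} (h1 : RR m B X) {s : ℕ} (hs1 : 1 ≤ s)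
    (hs : s ≤ m) (hA : A ∈ NPO X) (hW : join X (W s X) ∈ PO (join X A)) : A ∈ HC X s := by
  rcases Nat.even_or_odd' s with ⟨k, rfl | rfl⟩
  · rw [HC_even]
    refine ⟨hA, ?_⟩
    intro L hL
    obtain ⟨C, hC, hL2⟩ := W_del h1 (by omega) hs hL
    exact ⟨C, Pa76659P.Sig_subset hW k hC, hL2⟩
  · rw [HC_odd]
    exact ⟨hA, (W_sig h1 hs).trans (Pa76659P.Sig_subset hW (k + 1))⟩

theorem W_out {m : ℕ} {X : Lang} (h4 : ∀ t, 1 ≤ t → t ≤ m → ∀ (p' p : PIx) (l : List NIx),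
      l.length + 1 = kap t → ∃ s, mach t p' p l X s ≠ QQ (kap t) X s) {j : ℕ} (hj : j < m) :
    W (j + 1) X ∉ HC X j := by
  intro hW
  rcases Nat.even_or_odd' j with ⟨k, rfl | rfl⟩
  · rw [HC_even] at hW
    obtain ⟨C, hC, hQ⟩ := hW.2 ⟨QQ (k + 1) X, QQ_mem X (k + 1), query_mem _⟩
    obtain ⟨p, l, hl, h5⟩ := exists_sEval hC
    obtain ⟨p', h6⟩ := exists_pEval hQ
    have hk : kap (2 * k + 1) = k + 1 := by
      unfold kap
      omega
    obtain ⟨s, hs⟩ := h4 (2 * k + 1) (by omega) (by omega) p' p l (by rw [hl, hk])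
    rw [mach, if_neg (by omega), ← h5, ← h6, hk] at hs
    exact hs rfl
  · rw [HC_odd] at hW
    have hC := hW.2 (QQ_mem X (k + 1 + 1))
    obtain ⟨p, l, hl, h5⟩ := exists_sEval hC
    have hk : kap (2 * k + 1 + 1) = k + 2 := by
      unfold kap
      omega
    obtain ⟨s, hs⟩ := h4 (2 * k + 1 + 1) (by omega) (by omega) (Prog.skip, 0) p l
      (by rw [hl, hk])
    rw [mach, if_pos (by omega), ← h5, hk] at hs
    exact hs rfl

theorem initial_of {m : ℕ} (hm : 1 ≤ m) (B : ℕ) (X : Lang) (h1 : RR m B X)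
    (h2 : ∀ (p : PIx) (l : List NIx), l ≠ [] → ∃ s, sEval p l X s ≠ QQ (l.length + 1) X s)
    (h3 : ∀ (a : NIx) (p : PIx) (l : List NIx), l ≠ [] →
      (∃ s, sEval p l (join X (nEval a X)) s ≠ QQ (l.length + 1) X s) ∨
      ∃ c : Col, c.a = a ∧ nEval c.i X = W m X ∧ ∀ x, Wk c X x)
    (h4 : ∀ t, 1 ≤ t → t ≤ m → ∀ (p' p : PIx) (l : List NIx), l.length + 1 = kap t →
      ∃ s, mach t p' p l X s ≠ QQ (kap t) X s) :
    (∀ k, Sig X k ≠ Sig X (k + 1)) ∧ (∀ j < m, HC X j ⊂ HC X (j + 1)) ∧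
      ∀ j, m ≤ j → HC X j = HC X (j + 1) := by
  have hin : ∀ s, 1 ≤ s → s ≤ m → W s X ∈ HC X s := by
    intro s hs1 hs
    refine HC_of_sub h1 hs1 hs (W_mem s X) (query_mem _)
  have hall : ∀ k, High X (k + 1) ⊆ HC X m := by
    rintro k A ⟨hA, hS⟩
    obtain ⟨a, ha⟩ := exists_nEval hA
    obtain ⟨p, l, hl, h5⟩ := exists_sEval (hS (QQ_mem X (k + 1 + 1)))
    have hW : W m X ∈ PO (join X A) := by
      rcases h3 a p l (by rintro rfl; simp at hl) with ⟨s, hs⟩ | ⟨c, hc1, hc2, hc3⟩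
      · rw [← ha, hl, ← h5] at hs
        exact absurd rfl hs
      · apply walk_mem c.j c.B
        intro x
        have h6 := hc3 x
        unfold Wk hs fuel at h6
        rw [hc1, hc2, ← ha] at h6
        exact h6
    exact HC_of_sub h1 hm le_rfl hA
      (Pa76659P.join_mem2 (Pa76659P.cons_mem false (join X A)) hW)
  refine ⟨?_, ?_, ?_⟩
  · have h5 : ∀ k, Sig X (k + 1) ≠ Sig X (k + 1 + 1) := by
      intro k hk
      have h6 := QQ_mem X (k + 1 + 1)
      rw [← hk] at h6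
      obtain ⟨p, l, hl, h7⟩ := exists_sEval h6
      obtain ⟨s, hs⟩ := h2 p l (by rintro rfl; simp at hl)
      rw [hl, ← h7] at hs
      exact hs rfl
    intro k hk
    exact h5 k (sig_congr hk)
  · intro j hj
    rw [ssubset_iff_subset_ne]
    refine ⟨HC_succ X j, fun he => ?_⟩
    have h5 := hin (j + 1) (by omega) (by omega)
    rw [← he] at h5
    exact W_out h4 hj h5
  · intro j hj
    apply Set.Subset.antisymm (HC_succ X j)
    obtain ⟨k, hk⟩ := HC_high X (j + 1)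
    exact hk.trans ((hall k).trans (HC_mono X hj))

end Pool.Agent.Lib.Pa76659I
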