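import Pool.Agent.Lib.Pa76659I.Mem

/-!
# Pa76659I.Frm: the frames of Pa76659H with lanes

`leaves'` and `fin'` are `Inv.leaves` (Pa76659H/Ext.lean) and `Inv.fin` (Pa76659H/Start.lean) where
the hypotheses about all members of `Γ.q` are replaced by hypotheses about the worlds `Γ.F τ YY x`
only: the proofs are the same text (`hJust (Γ.F τ YY (emb hN i0 y)) (h.mem hΓ _) (rs i0 Γ.n)` becomes
`hJ (emb hN i0 y) (rs i0 Γ.n)`, and `hX (..) (h.mem hΓ _) (..)` becomes `hX (..) (..)`).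

`LaneW`: all lane strings are in complete mode in all worlds. `laneW_comp` is trivial.

`start'`: take `YY, R` from `Pa76659H.start hΓ ..` and put `fun x => bg P (YY x)`: `lit` by
`bg_cases` (a constant is `Or.inl`), `tree`: `X (false :: v) = bg P (YY x) (false :: v) =
YY x (false :: v)` by `bg_false`; `tab1`, `tab0`, `lvl`, `le` do not mention `YY`; `tab` is void
(`none = some T`), `read` is void (`i < 0`). `LaneW` by `bg_lane`.

`mem'_F`: `mem_lane` with `h.mem hΓ x`, `Phi_free`, `ls_free`.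
-/

set_option maxHeartbeats 4000000
set_option linter.unusedSectionVars false

namespace Pool.Agent.Lib.Pa76659I

open Pool.Agent.Lib.Pa76659 Pool.Agent.Lib.Pa76659.Hier Pool.Agent.Lib.Pa76659H

variable {m : ℕ}

/-- all lanes are in complete mode in all worlds -/
def LaneW (P : Par m) {Γ : Ctx} (YY : Γ.W → Lang) : Prop :=
  ∀ x s w, 1 ≤ s → s ≤ m → YY x (ls s w) = SC P s w

theorem laneW_comp {P : Par m} {Γ : Ctx} {YY : Γ.W → Lang} (h : LaneW P YY) (ρ : Γ.W → Γ.W) :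
    LaneW P (fun z => YY (ρ z)) := fun x s w h1 h2 => h (ρ x) s w h1 h2

theorem mem'_F (P : Par m) {Γ : Ctx} (hΓ : Γ.OK) (hq : WF' P Γ.q) {i0 lv : ℕ} {mm : ℕ → ℕ → ℕ}
    {τ : ℕ → Str → Option (DT Str Bool)} {YY : Γ.W → Lang}
    {R : ℕ → Var → DT Str (Option (Fin Γ.N))} (h : Inv Γ i0 lv mm τ YY R) (hl : LaneW P YY)
    (x : Γ.W) : Mem' P Γ.q (Γ.F τ YY x) := by
  refine mem_lane P hq (h.mem hΓ x) ?_
  intro s h1 h2 w hw
  have e := Phi_free Γ.q τ (YY x) (ls s w) hw (ls_free Γ.q s w)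
  exact e.trans (hl x s w h1 h2)

theorem start' (P : Par m) {Γ : Ctx} (hΓ : Γ.OK) (mm : ℕ → ℕ → ℕ) (hJ : ∀ i ≤ Γ.J, i + 2 ≤ Γ.n)
    (hN : Γ.N ≤ 2 ^ Γ.n) (hm : ∀ i ≤ Γ.J, ∀ h < Γ.k i, mm i h ≤ 2 ^ Γ.n) :
    ∃ (YY : Γ.W → Lang) (R : ℕ → Var → DT Str (Option (Fin Γ.N))),
      LaneW P YY ∧ Inv Γ 0 0 mm (fun _ _ => none) YY R := by
  obtain ⟨YY, R, h⟩ := start hΓ mm hJ hN hm
  refine ⟨fun x => bg P (YY x), R, fun x s w h1 h2 => bg_lane P (YY x) h1 h2 w, ?_⟩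
  refine ⟨?_, ?_, h.tab1, h.tab0, ?_, h.lvl, h.le, ?_⟩
  · intro v
    rcases bg_cases P v with ⟨b, hb⟩ | hb
    · exact Or.inl ⟨b, fun x => hb (YY x)⟩
    · have e : (fun x : Γ.W => bg P (YY x) v) = fun x => YY x v := by
        funext x
        exact hb (YY x)
      show LitF _ (fun x : Γ.W => bg P (YY x) v)
      rw [e]
      exact h.lit v
  · intro i hi x X hX
    apply h.tree i hi x X
    intro v hv
    rw [hX v hv]
    exact bg_false P (YY x) v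
  · intro i hi y T hT
    simp at hT
  · intro i hi
    omega

theorem leaves' {Γ : Ctx} (hΓ : Γ.OK) {i0 lv : ℕ} {mm : ℕ → ℕ → ℕ}
    {τ : ℕ → Str → Option (DT Str Bool)} {YY : Γ.W → Lang}
    {R : ℕ → Var → DT Str (Option (Fin Γ.N))} (h : Inv Γ i0 lv mm τ YY R) (hi : i0 < Γ.J)
    (hJ : ∀ (x : Γ.W) (s : Str), sEval (Γ.col i0).p (Γ.col i0).l
      (join (Γ.F τ YY x) (hs (Γ.col i0) (Γ.F τ YY x))) s =
        QQ ((Γ.col i0).l.length + 1) (Γ.F τ YY x) s)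
    (hN : 1 ≤ Γ.N) (hin : i0 + 2 ≤ Γ.n)
    (hC : ∀ u ∈ Γ.Q i0, ∃ T : MT Var (Option (Fin Γ.N)) Bool,
      T.dle (Γ.n ^ (Γ.col i0).bM + 2) ∧ ∀ x, Γ.C τ YY i0 x u = T.eval x)
    (s a : ℕ) (hst : Γ.n ^ (Γ.col i0).bM * (Γ.n ^ (Γ.col i0).bM + 2) ≤ s)
    (ha : ∀ h < Γ.k i0, mm i0 h ≤ 2 ^ a)
    (hs : Γ.n ^ (Γ.col i0).bM * Γ.k i0 + a * Γ.k i0 + 4 * Γ.k i0 + 4 ≤ s)
    (hm0 : 2 * ((s + 1) * (s + 2) * (4 * s * Γ.N ^ 2 + 1)) ≤ mm i0 0)
    (hm : ∀ h, h + 1 < Γ.k i0 →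
      (s + 1) * (s + 2) * (4 * s * (mm i0 h) ^ 2 + 1) ^ (h + 2) < mm i0 (h + 1)) :
    ∃ (b : List ℕ) (x0 : List ℕ → Option (Fin Γ.N)) (Good : Finset ℕ), b.length + 1 = Γ.k i0 ∧
      VP (mm i0) 1 b ∧ Good ⊆ Finset.range (mm i0 0) ∧ mm i0 0 ≤ 2 * Good.card ∧
      ∀ a ∈ Good, ∃ L : DT Str Bool, L.depth ≤ Γ.n ^ (Γ.col i0).bM ∧ L.QIn (Γ.Q i0) ∧
        ∀ o, L.eval (Γ.C τ YY i0 (Function.update (emb hN i0 x0) (i0, a :: b) o)) = o.isSome := by
  have hgd := hΓ.gd hi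
  have hemb : ∀ v : Var, ∃ j : List ℕ, ∀ x y : List ℕ → Option (Fin Γ.N), x j = y j →
      emb hN i0 x v = emb hN i0 y v := by
    intro v
    refine ⟨v.2, fun x y hxy => ?_⟩
    unfold emb
    rw [hxy]
  obtain ⟨b, x0, Good, h1, h2, h3, h4, h5⟩ := extract (Γ.k i0) Γ.N (Γ.n ^ (Γ.col i0).bM)
    (Γ.n ^ (Γ.col i0).bM) (Γ.n ^ (Γ.col i0).bM + 2) s a (mm i0) (hΓ.hk1 i0 (by omega)) hN
    (fun y => Γ.C τ YY i0 (emb hN i0 y)) (Γ.Q i0) (by
      intro u hu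
      obtain ⟨T, hT1, hT2⟩ := hC u hu
      obtain ⟨T', hT'1, hT'2⟩ := MT.exists_comap (emb hN i0) hemb hT1
      exact ⟨T', hT'1, fun x => by rw [hT'2, ← hT2]⟩)
    (fun O => sEval (Γ.col i0).p (Γ.col i0).l O (rs i0 Γ.n)) (by
      rw [hΓ.hk i0 hi]
      have := hgd.hM Γ.n (by omega) (rs i0 Γ.n) (by rw [rs_length hin])
      exact this) (by
      intro y
      have h6 := hJ (emb hN i0 y) (rs i0 Γ.n)
      have h7 := h.tree i0 (Finset.mem_Icc.2 ⟨le_rfl, hi.le⟩) (emb hN i0 y)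
        (Γ.F τ YY (emb hN i0 y)) (fun v hv => F_false hΓ _ v hv)
      rw [← hΓ.hk i0 hi] at h6
      refine (h6.trans h7).trans ?_
      have e : ∀ u, emb hN i0 y (i0, u) = y u := by intro u; simp [emb]
      simp only [e]) hst ha hs hm0 hm
  refine ⟨b, x0, Good, h1, h2, h3, h4, fun a ha => ?_⟩
  obtain ⟨L, a1, a2, a3, a4⟩ := h5 a ha
  refine ⟨L, a1, a2, fun o => ?_⟩
  cases o with
  | none =>
      rw [← emb_update]
      exact a3
  | some y =>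
      rw [← emb_update]
      exact a4 y

theorem fin' {Γ : Ctx} (hΓ : Γ.OK) {lv : ℕ} {mm : ℕ → ℕ → ℕ}
    {τ : ℕ → Str → Option (DT Str Bool)} {YY : Γ.W → Lang}
    {R : ℕ → Var → DT Str (Option (Fin Γ.N))} (h : Inv Γ Γ.J lv mm τ YY R)
    (p : PIx) (l : List NIx) (hkJ : Γ.k Γ.J = l.length) (bM : ℕ)
    (hM : ∀ n : ℕ, 2 ≤ n → ∀ x : Str, x.length ≤ n →
      IsC (SL (n ^ bM)) (n ^ bM) (n ^ bM) l.length (fun O => sEval p l O x))
    (hX : ∀ (x : Γ.W) (s : Str), sEval p l (Γ.F τ YY x) s = QQ (l.length + 1) (Γ.F τ YY x) s)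
    (hV : Γ.n ^ bM < Γ.V lv) (hNt : Γ.n ^ bM < Γ.N) (hin : Γ.J + 2 ≤ Γ.n)
    (s a : ℕ) (hst : Γ.n ^ bM ≤ s)
    (ha : ∀ h < Γ.k Γ.J, mm Γ.J h ≤ 2 ^ a)
    (hs : Γ.n ^ bM * Γ.k Γ.J + a * Γ.k Γ.J + 4 * Γ.k Γ.J + 4 ≤ s)
    (hm0 : 2 * ((s + 1) * (s + 2) * (4 * s * Γ.N ^ 2 + 1)) ≤ mm Γ.J 0)
    (hm : ∀ h, h + 1 < Γ.k Γ.J →
      (s + 1) * (s + 2) * (4 * s * (mm Γ.J h) ^ 2 + 1) ^ (h + 2) < mm Γ.J (h + 1)) : False := by
  classical
  have hN : 1 ≤ Γ.N := by omega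
  have hbits : ∀ u : Str, u.length ≤ Γ.n ^ bM → LitF (Γ.P Γ.J mm) (fun x => Γ.F τ YY x u) :=
    fun u hu => h.bits hΓ u (by omega)
  have hemb : ∀ v : Var, ∃ j : List ℕ, ∀ x y : List ℕ → Option (Fin Γ.N), x j = y j →
      emb hN Γ.J x v = emb hN Γ.J y v := by
    intro v
    refine ⟨v.2, fun x y hxy => ?_⟩
    unfold emb
    rw [hxy]
  obtain ⟨b, x0, Good, h1, h2, h3, h4, h5⟩ := extract (Γ.k Γ.J) Γ.N (Γ.n ^ bM)
    (Γ.n ^ bM) 1 s a (mm Γ.J) (hΓ.hk1 Γ.J le_rfl) hN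
    (fun y => Γ.F τ YY (emb hN Γ.J y)) (SL (Γ.n ^ bM)) (by
      intro u hu
      obtain ⟨T, hT1, hT2⟩ := (hbits u hu).mt
      obtain ⟨T', hT'1, hT'2⟩ := MT.exists_comap (emb hN Γ.J) hemb hT1
      exact ⟨T', hT'1, fun x => by rw [hT'2, ← hT2]⟩)
    (fun O => sEval p l O (rs Γ.J Γ.n)) (by
      rw [hkJ]
      exact hM Γ.n (by omega) (rs Γ.J Γ.n) (by rw [rs_length hin])) (by
      intro y
      have h6 := hX (emb hN Γ.J y) (rs Γ.J Γ.n)
      have h7 := h.tree Γ.J (Finset.mem_Icc.2 ⟨le_rfl, le_rfl⟩) (emb hN Γ.J y)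
        (Γ.F τ YY (emb hN Γ.J y)) (fun v hv => F_false hΓ _ v hv)
      rw [← hkJ] at h6
      refine (h6.trans h7).trans ?_
      have e : ∀ u, emb hN Γ.J y (Γ.J, u) = y u := by intro u; simp [emb]
      simp only [e]) (by rw [mul_one]; exact hst) ha hs hm0 hm
  have hne : Good.Nonempty := by
    rw [← Finset.card_pos]
    have : 0 < mm Γ.J 0 := lt_of_lt_of_le (by positivity) hm0
    omega
  obtain ⟨c, hc⟩ := hne
  obtain ⟨L, a1, a2, a3, a4⟩ := h5 c hc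
  set z0 : Γ.W := emb hN Γ.J x0 with hz0
  have a3' : L.eval (Γ.F τ YY (Function.update z0 (Γ.J, c :: b) none)) = false := by
    rw [hz0, ← emb_update]; exact a3
  have a4' : ∀ y, L.eval (Γ.F τ YY (Function.update z0 (Γ.J, c :: b) (some y))) = true := by
    intro y
    rw [hz0, ← emb_update]; exact a4 y
  set x1 := Function.update z0 (Γ.J, c :: b) none with hx1
  set qs := queries (Γ.F τ YY x1) L with hqs
  have hq : ∀ u ∈ qs, u.length ≤ Γ.n ^ bM := by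
    rw [hqs]
    clear a1 a3 a4 a3' a4' hqs
    induction L with
    | leaf b => intro u hu; simp [queries] at hu
    | node v f t ihf iht =>
        obtain ⟨b1, b2, b3⟩ := a2
        intro u hu
        simp only [queries, List.mem_cons] at hu
        rcases hu with rfl | hu
        · exact b1
        · split_ifs at hu
          · exact iht b3 u hu
          · exact ihf b2 u hu
  have hch : ∀ u : Str, ∃ y : Fin Γ.N, u ∈ qs → ∀ y' : Fin Γ.N, y' ≠ y →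
      Γ.F τ YY (Function.update z0 (Γ.J, c :: b) (some y')) u = Γ.F τ YY x1 u := by
    intro u
    by_cases hu : u ∈ qs
    · rcases hbits u (hq u hu) with ⟨e, he⟩ | ⟨v, _, y, e, he⟩
      · exact ⟨⟨0, hN⟩, fun _ y' _ => (he _).trans (he _).symm⟩
      · refine ⟨y, fun _ y' hy' => ?_⟩
        have e1 := he (Function.update z0 (Γ.J, c :: b) (some y'))
        have e2 := he x1
        beta_reduce at e1 e2
        rw [e1, e2, hx1]
        congr 1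
        apply decide_eq_decide.2
        by_cases hv : v = (Γ.J, c :: b)
        · subst hv
          simp [hy']
        · rw [Function.update_of_ne hv, Function.update_of_ne hv]
    · exact ⟨⟨0, hN⟩, fun h => absurd h hu⟩
  choose yy hyy using hch
  have hcard : (qs.map yy).toFinset.card < (Finset.univ : Finset (Fin Γ.N)).card := by
    rw [Finset.card_univ, Fintype.card_fin]
    have h6 := List.toFinset_card_le (qs.map yy)
    have h7 := queries_length (Γ.F τ YY x1) L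
    rw [← hqs] at h7
    rw [List.length_map] at h6
    omega
  obtain ⟨y', _, hy'⟩ := Finset.exists_mem_notMem_of_card_lt_card hcard
  have h8 := queries_eval (Γ.F τ YY x1)
    (Γ.F τ YY (Function.update z0 (Γ.J, c :: b) (some y'))) L (by
      intro u hu
      apply hyy u hu
      rintro rfl
      exact hy' (List.mem_toFinset.2 (List.mem_map_of_mem hu)))
  rw [a4' y', a3'] at h8
  simp at h8

end Pool.Agent.Lib.Pa76659I
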