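import Pool.Agent.Lib.Pa76659I.Defs

/-!
# Pa76659I.Lane: tables of a lane, value of a root

PROOFS. `lane_W`: `Pa76659P.enc_tabOf hG` applied to `Z = join (ln s X) X`: for `r.length + x.length
= 2^1 * x.length` the bit `Z (false :: (x ++ r)) = X (ls s (x ++ r)) = SG G (x ++ r)` and
`(x ++ r).take ((x ++ r).length / 2) = x`. The conclusion of `Enc` is
`J 1 Z x = G x (fun u => Z (true :: u)) = G x X`.

`enc_false`: all table bits false make `J 1` false (`J_succ`, `EE_true`, `J0`).

`LT_leaf`: uniqueness of root and path: `es_prefix` and `code_append_inj` give the same root, `es_inj`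
the same path (see `Pa76659P.es_bas_inj`).

`cd_root`: `QQ (jj s) = EE^[jj s]` (rfl). `QQ_tr (code 0 B ζ) (jj s) (W s X) bits` with
`bits u = lf (D ζ) u X` at `j = jj s`, `u = []` (`es _ [] = code ..`) gives the tree with the full
fan-ins; `tr_valid` (Pa76659H/Start.lean) with `mm = (D ζ).mm`, `K = jj s` replaces the full fan-ins
by `(D ζ).mm` (`lf` is the constant prescribed by `nb` at the invalid paths; `nb mm j [] = none` by
rfl); `tr_congr'` (Pa76659H/Lit.lean) replaces `lf (D ζ) p X` by `(D ζ).g p X` on the valid paths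
(`nb_none`).
-/

set_option maxHeartbeats 4000000

namespace Pool.Agent.Lib.Pa76659I

open Pool.Agent.Lib.Pa76659 Pool.Agent.Lib.Pa76659.Hier Pool.Agent.Lib.Pa76659H

variable {m : ℕ}

theorem lane_W (s : ℕ) (G : Str → Lang → Bool) (x : Str)
    (hG : ∃ T, Pa76659P.Enc 1 (G x) x T) (X : Lang)
    (hX : ∀ y : Str, y.length = x.length → X (ls s (x ++ y)) = SG G (x ++ y)) :
    W s X x = G x X := by
  have h := Pa76659P.enc_tabOf hG (join (ln s X) X) (by
    intro r hr
    have hr' : r.length = x.length := by omega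
    have h1 : (x ++ r).take ((x ++ r).length / 2) = x := by
      have e : (x ++ r).length / 2 = x.length := by
        rw [List.length_append, hr']; omega
      rw [e, List.take_left']
      rfl
    show X (ls s (x ++ r)) = _
    rw [hX r hr', SG, h1])
  exact h

theorem enc_false (x : Str) : ∃ T, Pa76659P.Enc 1 (fun _ => false) x T := by
  refine ⟨fun _ => false, fun Z hZ => ?_⟩
  rw [J_succ, J_zero]
  cases h : EE (J0 Z) x with
  | false => rfl
  | true =>
    exfalso
    obtain ⟨y, hy, hy2⟩ := (EE_true _ _).1 h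
    have h1 := hZ y (by omega)
    simp [J0, h1] at hy2

theorem LT_leaf (B s : ℕ) (D : Str → RD) (ζ : Str) (p : List ℕ) (hp : p.length = jj s)
    (hv : Valid (code 0 B ζ) p) : LT B s D (es (code 0 B ζ) p) = lf (D ζ) p := by
  have hh : ∃ q : Str × List ℕ, q.2.length = jj s ∧ Valid (code 0 B q.1) q.2 ∧
      es (code 0 B q.1) q.2 = es (code 0 B ζ) p := ⟨(ζ, p), hp, hv, rfl⟩
  unfold LT
  rw [dif_pos hh]
  obtain ⟨a1, a2, a3⟩ := hh.choose_spec
  set q := hh.choose with hq
  obtain ⟨r, hr⟩ := es_prefix (code 0 B q.1) q.2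
  obtain ⟨r', hr'⟩ := es_prefix (code 0 B ζ) p
  have e1 : q.1 = ζ := by
    apply (code_append_inj (j := 0) (B := B) (j' := 0) (r := r) (r' := r') _).2
    rw [← hr, ← hr', a3]
  rw [e1] at a2 a3
  have e2 := es_inj (code 0 B ζ) q.2 p (a1.trans hp.symm) a2 hv a3
  rw [e1, e2]

theorem cd_root (B s : ℕ) (D : RD) (ζ : Str) (X : Lang)
    (hm : ∀ i < jj s, D.mm i ≤ 2 ^ ((code 0 B ζ).length * 2 ^ (jj s - 1 - i)))
    (hX : ∀ p : List ℕ, p.length = jj s → Valid (code 0 B ζ) p →
      W s X (es (code 0 B ζ) p) = lf D p X) :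
    cd B s X ζ = tr D.mm (jj s) (fun p => D.g p X) [] := by
  have h1 : cd B s X ζ = tr (fun i => 2 ^ ((code 0 B ζ).length * 2 ^ (jj s - 1 - i))) (jj s)
      (fun p => lf D p X) [] :=
    QQ_tr (code 0 B ζ) (jj s) (W s X) (fun p => lf D p X) hX (jj s) [] (by simp) trivial
  rw [h1, tr_valid D.mm _ (fun p => lf D p X) (jj s) hm (fun j => Nat.one_le_two_pow)
    (by
      intro u c hu
      simp only [lf, hu]) (jj s) [] le_rfl rfl]
  apply tr_congr' _ _ _ (jj s) [] trivial
  intro v _ hv
  simp only [lf, (nb_none D.mm 0 v).2 hv]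

end Pool.Agent.Lib.Pa76659I
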