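import Pool.Agent.Lib.Pa76659I.Mem
import Pool.Agent.Lib.Pa76659I.Idx

/-!
# Pa76659I.Lim: the limit oracle

This is the second half of Pa76659H/Lim.lean (`exists_limit2`, `Req2`, `Sat2`, `next2`,
`exists_oracle2`) with `PP'`, `Mem'`, and one more kind of requirement.

PROOF. Requirements `Req3 := (PIx × List NIx) ⊕ (NIx × PIx × List NIx) ⊕ (ℕ × PIx × PIx × List NIx)`.
`Sat3 q`: for `(p, l)` as in `Sat2`; for `(a, p, l)`: `l ≠ [] →` (`∃ s, ∀ X, Agree q X →
sEval p l (join X (nEval a X)) s ≠ QQ ..`) or `∃ c ∈ q.cols, c.a = a ∧ ∀ X, nEval c.i X = W m X`; for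
`(t, p', p, l)`: `1 ≤ t → t ≤ m → l.length + 1 = kap t → ∃ s, ∀ X, Agree q X → mach t p' p l X s ≠
QQ (kap t) X s`.
`next3`: as `next2`. `key` (freezing a member `X` beyond a given length `M`) uses `exists_frz'`,
`PP'.frz`, `frz_mem'`. In the second kind, if the set is high on all `Mem'` members, add a column by
`exists_col` with the index `i` of `exists_im m` and `addc_PP'`. Third kind: `hZ t`, and locality of
`mach t p' p l` and `QQ (kap t)` at the string `s`: `loc_QQ`, `loc_sEval`, `Loc.comp`, `loc_join`,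
`Loc (W t)` from `W_congr`, `Loc (pEval p')` (it is `sEval p' []`, `loc_sEval p' []`).
Limit: as `exists_limit2`, with `PP' P` in the place of `PP` (only `(PP' P q).1.wf` is used); in
addition `∀ M, ∃ q, PP' P q ∧ Agree q X ∧ M < q.N` (the lengths `N` of the sequence are unbounded).
This gives `RR m P.B X`: for `s, z` take `q` with `tlx P.B s (rt s false z) < q.N`, `(hq.1.rl ..)` and
`rule_congr` (`X` and `q.σ` agree below `q.N`).
The start condition is `⟨0, fun _ => false, []⟩` (all clauses are void).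
-/

set_option maxHeartbeats 4000000

namespace Pool.Agent.Lib.Pa76659I

open Pool.Agent.Lib.Pa76659 Pool.Agent.Lib.Pa76659.Hier Pool.Agent.Lib.Pa76659H

variable {m : ℕ}

namespace LimAux

theorem loc_W (s : ℕ) : Loc (W s) := by
  intro n
  exact ⟨s + 6 + 2 * n, fun O O' h x hx => W_congr s O O' x fun v hv => h v (by omega)⟩

theorem loc_mach (t : ℕ) (p' p : PIx) (l : List NIx) : Loc (mach t p' p l) := by
  have h1 : Loc (fun X => sEval p l (join X (W t X))) := (loc_sEval p l).comp (loc_join (loc_W t))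
  by_cases ht : t % 2 = 0
  · intro n
    obtain ⟨k, hk⟩ := h1 n
    refine ⟨k, fun O O' h x hx => ?_⟩
    unfold mach
    rw [if_pos ht, if_pos ht]
    exact hk O O' h x hx
  · have h2 : Loc (fun X => pEval p' (sEval p l (join X (W t X)))) := (loc_sEval p' []).comp h1
    intro n
    obtain ⟨k, hk⟩ := h2 n
    refine ⟨k, fun O O' h x hx => ?_⟩
    unfold mach
    rw [if_neg ht, if_neg ht]
    exact hk O O' h x hx

theorem exists_limit3 (P : Par m) (S : ℕ → Cnd → Prop) (q0 : Cnd) (h0 : PP' P q0)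
    (next : ∀ (n : ℕ) (q : Cnd), PP' P q → ∃ q', PP' P q' ∧ q.N < q'.N ∧
      (∀ X, Agree q' X → Agree q X) ∧ (∀ c ∈ q.cols, c ∈ q'.cols) ∧ S n q') :
    ∃ X, (∀ n, ∃ q, S n q ∧ PP' P q ∧ Agree q X ∧ ∀ c ∈ q.cols, ∀ x, Wk c X x) ∧
      ∀ M, ∃ q, PP' P q ∧ Agree q X ∧ M < q.N := by
  classical
  let St := {q : Cnd // PP' P q}
  choose nx h1 h2 h3 h4 h5 using fun (n : ℕ) (a : St) => next n a.1 a.2
  let st : ℕ → St := fun n => Nat.rec (⟨q0, h0⟩ : St) (fun n a => ⟨nx n a, h1 n a⟩) n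
  have hst : ∀ n, (st (n + 1)).1 = nx n (st n) := fun n => rfl
  have hN : ∀ n, n ≤ (st n).1.N := by
    intro n
    induction n with
    | zero => exact Nat.zero_le _
    | succ n ih =>
        have := h2 n (st n)
        rw [hst]; omega
  have hag : ∀ n m, n ≤ m → ∀ X, Agree (st m).1 X → Agree (st n).1 X := by
    intro n m hnm
    induction m, hnm using Nat.le_induction with
    | base => exact fun X h => h
    | succ m _ ih =>
        intro X hX
        rw [hst] at hX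
        exact ih X (h3 m (st m) X hX)
  have hcol : ∀ n m, n ≤ m → ∀ c ∈ (st n).1.cols, c ∈ (st m).1.cols := by
    intro n m hnm
    induction m, hnm using Nat.le_induction with
    | base => exact fun c h => h
    | succ m _ ih =>
        intro c hc
        rw [hst]
        exact h4 m (st m) c (ih c hc)
  have hσ : ∀ n m, n ≤ m → ∀ v : Str, v.length < (st n).1.N → (st m).1.σ v = (st n).1.σ v :=
    fun n m hnm v hv => hag n m hnm _ (fun _ _ => rfl) v hv
  let X : Lang := fun v => (st (v.length + 1)).1.σ v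
  have hX : ∀ n, Agree (st n).1 X := by
    intro n v hv
    show (st (v.length + 1)).1.σ v = (st n).1.σ v
    have h6 : v.length < (st (v.length + 1)).1.N := by
      have := hN (v.length + 1); omega
    rcases le_total n (v.length + 1) with h | h
    · exact hσ n _ h v hv
    · exact (hσ _ n h v h6).symm
  refine ⟨X, fun n => ⟨(st (n + 1)).1, h5 n (st n), (st (n + 1)).2, hX (n + 1), ?_⟩, fun M =>
    ⟨(st (M + 1)).1, (st (M + 1)).2, hX (M + 1), by have := hN (M + 1); omega⟩⟩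
  intro c hc x
  set m := max (n + 1) (tl c x + 1) with hm
  have h6 : tl c x < (st m).1.N := by
    have := hN m; omega
  exact (st m).2.1.wf.wk c (hcol _ m (le_max_left _ _) c hc) x h6 X (hX m)

/-- requirements -/
abbrev Req3 := (PIx × List NIx) ⊕ (NIx × PIx × List NIx) ⊕ (ℕ × PIx × PIx × List NIx)

/-- the condition decides the requirement -/
def Sat3 (m : ℕ) (q : Cnd) : Req3 → Prop
  | Sum.inl (p, l) => l ≠ [] → ∃ s, ∀ X, Agree q X → sEval p l X s ≠ QQ (l.length + 1) X s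
  | Sum.inr (Sum.inl (a, p, l)) => l ≠ [] →
      (∃ s, ∀ X, Agree q X → sEval p l (join X (nEval a X)) s ≠ QQ (l.length + 1) X s) ∨
      ∃ c ∈ q.cols, c.a = a ∧ ∀ X, nEval c.i X = W m X
  | Sum.inr (Sum.inr (t, p', p, l)) => 1 ≤ t → t ≤ m → l.length + 1 = kap t →
      ∃ s, ∀ X, Agree q X → mach t p' p l X s ≠ QQ (kap t) X s

theorem next3 (P : Par m) (hSL : ScaleLemma' P) (hZ : ∀ t, 1 ≤ t → t ≤ m → ZoneLemma P t)
    (r : Req3) {q : Cnd} (hq : PP' P q) : ∃ q', PP' P q' ∧ q.N < q'.N ∧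
    (∀ X, Agree q' X → Agree q X) ∧ (∀ c ∈ q.cols, c ∈ q'.cols) ∧ Sat3 m q' r := by
  -- freezing
  have key : ∀ X, Mem' P q X → ∀ M, ∃ q', PP' P q' ∧ q.N < q'.N ∧ M < q'.N ∧
      (∀ X, Agree q' X → Agree q X) ∧ q'.cols = q.cols ∧
      (∀ X', Agree q' X' → ∀ v : Str, v.length ≤ M → X' v = X v) ∧
      (∀ X', Mem' P q' X' → Mem' P q X') := by
    intro X hX M
    obtain ⟨n0, hn0⟩ := exists_frz' P hq.1 hX
    set n := max n0 (max (q.N + 1) (M + 1)) with hn
    have e1 : n0 ≤ n := le_max_left _ _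
    have e2 : q.N + 1 ≤ n := le_trans (le_max_left _ _) (le_max_right _ _)
    have e3 : M + 1 ≤ n := le_trans (le_max_right _ _) (le_max_right _ _)
    obtain ⟨h1, h2⟩ := hn0 n e1
    refine ⟨frz q X n, hq.frz hX h1 h2, ?_, ?_, ?_, rfl, ?_, fun X' h => frz_mem' P hX.1.1 h1 h⟩
    · show q.N < n; omega
    · show M < n; omega
    · intro X' hX' v hv
      rw [hX' v (by show v.length < n; omega)]
      exact hX.1.1 v hv
    · intro X' hX' v hv
      exact hX' v (by show v.length < n; omega)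
  have triv : ∃ q', PP' P q' ∧ q.N < q'.N ∧
      (∀ X, Agree q' X → Agree q X) ∧ (∀ c ∈ q.cols, c ∈ q'.cols) := by
    obtain ⟨X, hX⟩ := exists_mem' P hq.1
    obtain ⟨q', h1, h2, _, h3, h4, _⟩ := key X hX 0
    exact ⟨q', h1, h2, h3, fun c hc => by rw [h4]; exact hc⟩
  rcases r with ⟨p, l⟩ | ⟨a, p, l⟩ | ⟨t, p', p, l⟩
  · by_cases hl : l = []
    · obtain ⟨q', h1, h2, h3, h4⟩ := triv
      exact ⟨q', h1, h2, h3, h4, fun h => absurd hl h⟩
    · obtain ⟨X, hX, s, hs⟩ := hSL q hq p l hl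
      obtain ⟨m1, hm1⟩ := loc_sEval p l s.length
      obtain ⟨m2, hm2⟩ := loc_QQ (l.length + 1) s.length
      obtain ⟨q', h1, h2, _, h3, h4, h5, _⟩ := key X hX (max m1 m2)
      refine ⟨q', h1, h2, h3, fun c hc => by rw [h4]; exact hc, fun _ => ⟨s, fun X' hX' => ?_⟩⟩
      rw [hm1 X' X (fun v hv => h5 X' hX' v (by omega)) s le_rfl,
        hm2 X' X (fun v hv => h5 X' hX' v (by omega)) s le_rfl]
      exact hs
  · by_cases hl : l = []
    · obtain ⟨q', h1, h2, h3, h4⟩ := triv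
      exact ⟨q', h1, h2, h3, h4, fun h => absurd hl h⟩
    by_cases hJ : ∀ X, Mem' P q X → ∀ s, sEval p l (join X (nEval a X)) s = QQ (l.length + 1) X s
    · obtain ⟨i, hi⟩ := exists_im m
      obtain ⟨X, hX⟩ := exists_mem' P hq.1
      obtain ⟨q', h1, h2, _, h3, h4, h5, h6⟩ := key X hX 0
      obtain ⟨m0, hm0⟩ := list_bound q'.cols (fun c n => c.m ≤ n)
        (fun c _ => ⟨c.m, fun n hn => hn⟩)
      -- room for a new index
      obtain ⟨X1, hX1m⟩ := exists_mem' P h1.1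
      obtain ⟨n0, hn0⟩ := exists_frz' P h1.1 hX1m
      set n := max n0 (q'.N + 1) with hn
      have e1 : n0 ≤ n := le_max_left _ _
      have e2 : q'.N + 1 ≤ n := le_max_right _ _
      obtain ⟨h7, h8⟩ := hn0 n e1
      obtain ⟨c, hc1, hc2, hc3, hc4, hc5, hc6, hc7⟩ := exists_col (n - 1) m0 a i p l hl
      have hP := h1.frz hX1m h7 h8
      have hci : ∀ X, nEval c.i X = W m X := by
        intro X
        rw [hc5]
        exact hi X
      refine ⟨addc (frz q' X1 n) c, addc_PP' P hP hc1 ?_ ?_ ?_ hci ?_, ?_, ?_, ?_, ?_⟩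
      · show c.j + 1 = n; omega
      · intro c' hc'
        have := h1.1.wf.lt c' hc'
        omega
      · intro c' hc'
        exact (hm0 m0 le_rfl c' hc').trans hc3
      · intro X' hX' s
        unfold hs
        rw [hc6, hc4, hc7]
        exact hJ X' (h6 X' (frz_mem' P hX1m.1.1 h7 hX')) s
      · show q.N < n; omega
      · intro X' hX'
        apply h3
        intro v hv
        have : X' v = X1 v := hX' v (by show v.length < n; omega)
        rw [this]
        exact hX1m.1.1 v hv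
      · intro c' hc'
        show c' ∈ q'.cols ++ [c]
        rw [h4]; simp [hc']
      · intro _
        right
        exact ⟨c, by show c ∈ q'.cols ++ [c]; simp, hc4, hci⟩
    · push Not at hJ
      obtain ⟨X, hX, s, hs⟩ := hJ
      obtain ⟨m1, hm1⟩ := ((loc_sEval p l).comp (loc_join (loc_nEval a))) s.length
      obtain ⟨m2, hm2⟩ := loc_QQ (l.length + 1) s.length
      obtain ⟨q', h1, h2, _, h3, h4, h5, _⟩ := key X hX (max m1 m2)
      refine ⟨q', h1, h2, h3, fun c hc => by rw [h4]; exact hc,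
        fun _ => Or.inl ⟨s, fun X' hX' => ?_⟩⟩
      have e1 := hm1 X' X (fun v hv => h5 X' hX' v (by omega)) s le_rfl
      beta_reduce at e1
      rw [e1, hm2 X' X (fun v hv => h5 X' hX' v (by omega)) s le_rfl]
      exact hs
  · by_cases ht : 1 ≤ t ∧ t ≤ m ∧ l.length + 1 = kap t
    · obtain ⟨t1, t2, t3⟩ := ht
      obtain ⟨X, hX, s, hs⟩ := hZ t t1 t2 q hq p' p l t3
      obtain ⟨m1, hm1⟩ := loc_mach t p' p l s.length
      obtain ⟨m2, hm2⟩ := loc_QQ (kap t) s.length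
      obtain ⟨q', h1, h2, _, h3, h4, h5, _⟩ := key X hX (max m1 m2)
      refine ⟨q', h1, h2, h3, fun c hc => by rw [h4]; exact hc,
        fun _ _ _ => ⟨s, fun X' hX' => ?_⟩⟩
      rw [hm1 X' X (fun v hv => h5 X' hX' v (by omega)) s le_rfl,
        hm2 X' X (fun v hv => h5 X' hX' v (by omega)) s le_rfl]
      exact hs
    · obtain ⟨q', h1, h2, h3, h4⟩ := triv
      exact ⟨q', h1, h2, h3, h4, fun a b c => absurd ⟨a, b, c⟩ ht⟩

end LimAux

open LimAux in
theorem exists_oracle3 (P : Par m) (hSL : ScaleLemma' P)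
    (hZ : ∀ t, 1 ≤ t → t ≤ m → ZoneLemma P t) : ∃ X : Lang, RR m P.B X ∧
    (∀ (p : PIx) (l : List NIx), l ≠ [] → ∃ s, sEval p l X s ≠ QQ (l.length + 1) X s) ∧
    (∀ (a : NIx) (p : PIx) (l : List NIx), l ≠ [] →
      (∃ s, sEval p l (join X (nEval a X)) s ≠ QQ (l.length + 1) X s) ∨
      ∃ c : Col, c.a = a ∧ nEval c.i X = W m X ∧ ∀ x, Wk c X x) ∧
    (∀ t, 1 ≤ t → t ≤ m → ∀ (p' p : PIx) (l : List NIx), l.length + 1 = kap t →
      ∃ s, mach t p' p l X s ≠ QQ (kap t) X s) := by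
  have hne : Nonempty Req3 := ⟨Sum.inl ((Prog.skip, 0), [])⟩
  obtain ⟨req, hreq⟩ := exists_surjective_nat Req3
  have hq0 : PP' P ⟨0, fun _ => false, []⟩ :=
    ⟨⟨⟨by simp, by simp, by simp, List.Pairwise.nil, by simp⟩,
      fun s _ _ z h => absurd h (Nat.not_lt_zero _), by simp⟩, by simp⟩
  obtain ⟨X, hX, hlong⟩ := exists_limit3 P (fun n q => Sat3 m q (req n)) _ hq0
    (fun n q hq => next3 P hSL hZ (req n) hq)
  refine ⟨X, ?_, fun p l hl => ?_, fun a p l hl => ?_, fun t t1 t2 p' p l t3 => ?_⟩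
  · intro s h1 hs z
    obtain ⟨q, hq, hag, hM⟩ := hlong (tlx P.B s (rt s false z))
    exact rule_congr P hs z q.σ X (fun v hv => (hag v (lt_of_le_of_lt hv hM)).symm)
      (hq.1.rl s h1 hs z hM)
  · obtain ⟨n, hn⟩ := hreq (Sum.inl (p, l))
    obtain ⟨q, h1, _, h2, _⟩ := hX n
    rw [hn] at h1
    obtain ⟨s, hs⟩ := h1 hl
    exact ⟨s, hs X h2⟩
  · obtain ⟨n, hn⟩ := hreq (Sum.inr (Sum.inl (a, p, l)))
    obtain ⟨q, h1, _, h2, h3⟩ := hX n
    rw [hn] at h1
    rcases h1 hl with ⟨s, hs⟩ | ⟨c, hc, h4, h5⟩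
    · exact Or.inl ⟨s, hs X h2⟩
    · exact Or.inr ⟨c, h4, h5 X, h3 c hc⟩
  · obtain ⟨n, hn⟩ := hreq (Sum.inr (Sum.inr (t, p', p, l)))
    obtain ⟨q, h1, _, h2, _⟩ := hX n
    rw [hn] at h1
    obtain ⟨s, hs⟩ := h1 t1 t2 t3
    exact ⟨s, hs X h2⟩

end Pool.Agent.Lib.Pa76659I
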