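import Pool.Agent.Lib.Pa76659I.Frm

/-!
# Pa76659I.Run: the scale lemma

PROOF. `run'` is `Pa76659H.run` (Pa76659H/Drive.lean) with the extra hypothesis `LaneW P YY` on the
worlds: the text of the proof is the same, `leaves` is replaced by `leaves'` (its hypothesis `hJ` is
`hJust i0 hi0 _ (mem'_F P hΓ hq hI1 hl1 x) s`), `fin` by `fin'` (hypothesis `hX` from `mem'_F`), and
`LaneW` is carried along by `laneW_comp` (the steps `shallow`, `connect`, `level` of Pa76659H replace
`YY` by `fun z => YY (ρ z)`; check the form of `level` in Pa76659H/Step.lean).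
`scaleLemma'` is `Pa76659H.scaleLemma` (Pa76659H/Main.lean) with `exists_mem'`, `exists_frz'`,
`PP'.frz`, `start'`, `run'`, `frz_mem'` (`hq.1.wf` in the place of `hq.1`).
-/

set_option maxHeartbeats 4000000

namespace Pool.Agent.Lib.Pa76659I

open Pool.Agent.Lib.Pa76659 Pool.Agent.Lib.Pa76659.Hier Pool.Agent.Lib.Pa76659H

variable {m : ℕ}

theorem run' (P : Par m) {Γ : Ctx} (hΓ : Γ.OK) (hq : WF' P Γ.q) {kk mJ cc : ℕ}
    (hNm : Nm Γ.J kk mJ Γ.ν Γ.n Γ.N cc)
    (hkk : ∀ i ≤ Γ.J, Γ.k i ≤ kk) (hmJ : ∀ i < Γ.J, (Γ.col i).m ≤ mJ)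
    (hj : ∀ i < Γ.J, 2 * ((Γ.col i).j + 7) ≤ Γ.n) (hJust : ∀ i < Γ.J, Just' P Γ.q (Γ.col i))
    (a : ℕ → ℕ) (hcc : ∀ i ≤ Γ.J, ∀ h < Γ.k i, seqE (a i) h ≤ cc)
    (p : PIx) (l : List NIx) (hkJ : Γ.k Γ.J = l.length) (bM : ℕ)
    (hM : ∀ n : ℕ, 2 ≤ n → ∀ x : Str, x.length ≤ n →
      IsC (SL (n ^ bM)) (n ^ bM) (n ^ bM) l.length (fun O => sEval p l O x))
    (hX : ∀ X, Mem' P Γ.q X → ∀ s, sEval p l X s = QQ (l.length + 1) X s)
    (hbM : 2 * bM + 5 ≤ 2 ^ mJ) :
    ∀ (μ i0 lv : ℕ) (ee : ℕ → ℕ → ℕ) (τ : ℕ → Str → Option (DT Str Bool)) (YY : Γ.W → Lang)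
      (R : ℕ → Var → DT Str (Option (Fin Γ.N))), LaneW P YY → Inv Γ i0 lv (shp Γ.N ee) τ YY R →
      μ = 2 * (Γ.J - i0) + (mJ - lv) → (∀ i h, 1 ≤ h → ee i h = seqE (a i) h) →
      (∀ i, ee i 0 ≤ a i) →
      (∀ i, 8 + 4 * μ + ∑ i' ∈ Finset.Ioc i Γ.J, ∑ h ∈ Finset.range (Γ.k i'), seqE (a i') h ≤
        ee i 0) → lv ≤ mJ → False := by
  intro μ
  induction μ using Nat.strong_induction_on with
  | _ μ ih =>
    intro i0 lv ee τ YY R hLW hI hμ hee1 hee0 hbud hlv
    obtain ⟨hn16, hnT⟩ := hNm.T16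
    set T := Γ.n ^ (2 ^ mJ) with hT
    have hN1 : 1 ≤ Γ.N := by have := hNm.c; omega
    have h4 : ∀ i, 8 ≤ ee i 0 := fun i => by have := hbud i; omega
    have hshp1 : thinM (Γ.N ^ 4) (shp Γ.N ee) = shp Γ.N (dec4 ee) :=
      thinM_shp hN1 (fun i => by have := h4 i; omega)
    have hdec0 : ∀ i, dec4 ee i 0 = ee i 0 - 4 := fun i => by simp [dec4]
    have hdec1 : ∀ i h, 1 ≤ h → dec4 ee i h = ee i h := by
      intro i h hh
      unfold dec4
      rw [Function.update_of_ne (by omega)]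
    have hdecle : ∀ i h, dec4 ee i h ≤ seqE (a i) h := by
      intro i h
      rcases Nat.eq_zero_or_pos h with rfl | hh
      · rw [hdec0]
        have := hee0 i
        show ee i 0 - 4 ≤ a i
        omega
      · rw [hdec1 i h hh, hee1 i h hh]
    have hsmall : ∀ i ∈ Finset.Icc i0 Γ.J, ∀ h < Γ.k i, shp Γ.N (dec4 ee) i h ≤ 2 ^ Γ.n := by
      intro i hi h hh
      have hiJ := (Finset.mem_Icc.1 hi).2
      exact hNm.hcc _ ((hdecle i h).trans (hcc i hiJ h hh))
    have hnames : 4 * (names (Finset.Icc i0 Γ.J) Γ.k (thinM (Γ.N ^ 4) (shp Γ.N ee))).card ≤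
        2 ^ (Γ.n * kk + Γ.J + 3) := by
      rw [hshp1]
      apply card_names_le
      · rw [Nat.card_Icc]; omega
      · exact fun i hi => hkk i (Finset.mem_Icc.1 hi).2
      · exact hsmall
    have hG0 : 1 ≤ Γ.N ^ 4 := Nat.one_le_pow _ _ hN1
    have hVT : ∀ l', l' ≤ mJ → Γ.V l' ≤ T := by
      intro l' hl'
      unfold Ctx.V
      rw [hT]
      exact Nat.pow_le_pow_right (by omega) (Nat.pow_le_pow_right (by norm_num) hl')
    have hVN : ∀ l', l' ≤ mJ → Γ.V l' < Γ.N := fun l' hl' =>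
      lt_of_le_of_lt (hVT l' hl') hNm.c
    have hGV : ∀ l', l' ≤ mJ → (4 * Γ.V l' * (Γ.N + 1) * Γ.N + 1 + 1) *
        (Γ.n * kk + Γ.J + 3) ≤ Γ.N ^ 4 := by
      intro l' hl'
      refine le_trans (Nat.mul_le_mul_right _ ?_) hNm.b
      have h5 := hVT l' hl'
      have h6 : 4 * Γ.V l' * (Γ.N + 1) * Γ.N ≤ 4 * T * (Γ.N + 1) * Γ.N :=
        Nat.mul_le_mul_right _ (Nat.mul_le_mul_right _ (Nat.mul_le_mul_left _ h5))
      exact Nat.add_le_add_right (Nat.add_le_add_right h6 1) 1
    -- the conditions for extraction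
    have hext0 : ∀ i, 2 * ((T + 1) * (T + 2) * (4 * T * Γ.N ^ 2 + 1)) ≤
        shp Γ.N (dec4 ee) i 0 ∨ dec4 ee i 0 < 3 := by
      intro i
      by_cases h5 : dec4 ee i 0 < 3
      · exact Or.inr h5
      · left
        refine hNm.d.trans ?_
        exact Nat.pow_le_pow_right hN1 (by omega)
    have hext1 : ∀ i ≤ Γ.J, ∀ h, h + 1 < Γ.k i →
        (T + 1) * (T + 2) * (4 * T * (shp Γ.N (dec4 ee) i h) ^ 2 + 1) ^ (h + 2) <
          shp Γ.N (dec4 ee) i (h + 1) := by
      intro i hi h hh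
      have h5 := hkk i hi
      apply hNm.e (g := h) (e := dec4 ee i h) (by omega) rfl _ (by omega)
      rw [hdec1 i (h + 1) (by omega), hee1 i (h + 1) (by omega), seqE_succ]
      have h6 := hdecle i h
      have h7 : (2 * dec4 ee i h + 1) * (h + 2) ≤ (2 * seqE (a i) h + 1) * (h + 2) :=
        Nat.mul_le_mul_right _ (by omega)
      omega
    have hin : ∀ i ≤ Γ.J, i + 2 ≤ Γ.n := by
      intro i hi
      have := hNm.hn
      omega
    by_cases hA : i0 < Γ.J ∧ (Γ.col i0).m ≤ lv
    · -- process a column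
      obtain ⟨hi0, hm⟩ := hA
      have hgd := hΓ.gd hi0
      have hTlev : Γ.n ^ (2 * (Γ.col i0).bM + 5) ≤ T := by
        refine (hgd.lev hΓ.hn3).2.trans ?_
        exact Nat.pow_le_pow_right (show 0 < Γ.q.N by have := hΓ.hn3; omega)
          (Nat.pow_le_pow_right (by norm_num) (hmJ i0 hi0))
      obtain ⟨f1, f2, f3, f4⟩ := pow_facts hΓ.hn3 hTlev
      obtain ⟨ρ1, R1, hI1, hC1⟩ := hI.shallow hΓ hi0 hm _ _ (Γ.N ^ 4) le_rfl (hVN lv hlv)
        (hGV lv hlv) hG0 hnames
      rw [hshp1] at hI1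
      obtain ⟨b, x0, Good, g1, g2, g3, g4, g5⟩ := leaves' hΓ hI1 hi0
        (fun x s => hJust i0 hi0 _ (mem'_F P hΓ hq hI1 (laneW_comp hLW ρ1) x) s) hN1
        (hin i0 hi0.le) hC1 T Γ.n f1 (fun h hh => hsmall i0 (Finset.mem_Icc.2 ⟨le_rfl, hi0.le⟩) h hh)
        (small_sum hNm.hn (hkk i0 hi0.le) (Nat.one_le_pow _ _ (by omega)) f2)
        ((hext0 i0).resolve_right (by
          rw [hdec0]
          have := hbud i0
          omega)) (hext1 i0 hi0.le)
      have hshp2 : thinM (Γ.N ^ 4) (shp Γ.N (dec4 ee)) = shp Γ.N (dec4 (dec4 ee)) :=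
        thinM_shp hN1 (fun i => by rw [hdec0]; have := h4 i; omega)
      have hle2 : ∀ i h, dec4 (dec4 ee) i h ≤ seqE (a i) h := by
        intro i h
        refine le_trans ?_ (hdecle i h)
        unfold dec4
        rcases Nat.eq_zero_or_pos h with rfl | hh
        · simp
        · rw [Function.update_of_ne (by omega)]
      obtain ⟨ρ2, R2, hI2⟩ := hI1.connect hΓ hi0 hm hN1 hNm.hN hC1 b x0 Good g1 g2 g3 g5
        ((Γ.N + 1) * T) (Γ.N ^ 4) (Nat.mul_le_mul_left _ f1) hNm.G (by
          rw [hshp2]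
          have h5 := card_names_shp (N := Γ.N) (J := Γ.J) (i0 := i0) (k := Γ.k)
            (e0 := fun i h => seqE (a i) h) hN1 hle2
          set W := ∑ i' ∈ Finset.Ioc i0 Γ.J, ∑ h ∈ Finset.range (Γ.k i'), seqE (a i') h with hW
          set cd := (names (Finset.Icc (i0 + 1) Γ.J) Γ.k (shp Γ.N (dec4 (dec4 ee)))).card
          have h6 : 2 * (2 * (2 * ((Γ.N + 1) * T) + 1) * (cd * (Γ.ν + 1))) ≤
              shp Γ.N (dec4 ee) i0 0 := by
            calc 2 * (2 * (2 * ((Γ.N + 1) * T) + 1) * (cd * (Γ.ν + 1)))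
                ≤ 2 * (2 * (2 * ((Γ.N + 1) * T) + 1) * (Γ.J * Γ.N ^ W * (Γ.ν + 1))) :=
                  Nat.mul_le_mul_left _ (Nat.mul_le_mul_left _ (Nat.mul_le_mul_right _ h5))
              _ = 4 * (2 * ((Γ.N + 1) * T) + 1) * (Γ.J * (Γ.ν + 1)) * Γ.N ^ W := by ring
              _ ≤ Γ.N ^ 3 * Γ.N ^ W := Nat.mul_le_mul_right _ hNm.f
              _ = Γ.N ^ (3 + W) := by rw [pow_add]
              _ ≤ Γ.N ^ (dec4 ee i0 0) := by
                  apply Nat.pow_le_pow_right hN1
                  rw [hdec0]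
                  have := hbud i0
                  omega
          omega)
      rw [hshp2] at hI2
      have hd0 : ∀ i, dec4 (dec4 ee) i 0 = ee i 0 - 8 := by
        intro i
        have : dec4 (dec4 ee) i 0 = dec4 ee i 0 - 4 := by simp [dec4]
        rw [this, hdec0]; omega
      refine ih (μ - 2) (by omega) (i0 + 1) lv _ _ _ _ (laneW_comp (laneW_comp hLW ρ1) ρ2) hI2 (by omega) ?_ ?_ ?_ hlv
      · intro i h hh
        rw [← hee1 i h hh]
        unfold dec4
        rw [Function.update_of_ne (by omega), Function.update_of_ne (by omega)]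
      · intro i
        rw [hd0]
        have := hee0 i
        omega
      · intro i
        rw [hd0]
        have := hbud i
        omega
    · by_cases hB : lv < mJ
      · -- next level
        obtain ⟨τ', ρ1, R1, hI1⟩ := hI.level hΓ (fun i hi hi0 => by
            push Not at hA
            have h5 := hA (by omega)
            have h6 := hΓ.hcm i0 i hi0 hi
            omega) _ _ (Γ.N ^ 4) le_rfl (hVN (lv + 1) hB) (hGV (lv + 1) hB) hG0 hnames
          (by have := hNm.hn; omega) hNm.hνn hj hn16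
        rw [hshp1] at hI1
        refine ih (μ - 1) (by omega) i0 (lv + 1) _ _ _ _ (laneW_comp hLW ρ1) hI1 (by omega) ?_ ?_ ?_ hB
        · intro i h hh
          rw [hdec1 i h hh, hee1 i h hh]
        · intro i
          rw [hdec0]
          have := hee0 i
          omega
        · intro i
          rw [hdec0]
          have := hbud i
          omega
      · -- the end
        have hlv' : lv = mJ := by omega
        have hi0 : i0 = Γ.J := by
          push Not at hA
          have h5 := hI.le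
          by_contra hne
          have h6 := hA (by omega)
          have h7 := hmJ i0 (by omega)
          omega
        subst hi0
        subst hlv'
        have hTlev : Γ.n ^ (2 * bM + 5) ≤ T :=
          Nat.pow_le_pow_right (by omega) hbM
        obtain ⟨f1, f2, f3, f4⟩ := pow_facts hΓ.hn3 hTlev
        have hle : ∀ i h, ee i h ≤ seqE (a i) h := by
          intro i h
          rcases Nat.eq_zero_or_pos h with rfl | hh
          · exact hee0 i
          · rw [hee1 i h hh]
        refine fin' hΓ hI p l hkJ bM hM (fun x s => hX _ (mem'_F P hΓ hq hI hLW x) s) f3 (lt_trans f3 hNm.c) (hin _ le_rfl) T Γ.n f4 ?_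
          (small_sum hNm.hn (hkk _ le_rfl) (Nat.one_le_pow _ _ (by omega)) f2) ?_ ?_
        · intro h hh
          exact hNm.hcc _ ((hle _ h).trans (hcc _ le_rfl h hh))
        · refine hNm.d.trans ?_
          apply Nat.pow_le_pow_right hN1
          have := h4 Γ.J
          omega
        · intro h hh
          have h5 := hkk Γ.J le_rfl
          apply hNm.e (g := h) (e := ee Γ.J h) (by omega) rfl _ (by omega)
          rw [hee1 Γ.J (h + 1) (by omega), seqE_succ]
          have h6 := hle Γ.J h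
          have h7 : (2 * ee Γ.J h + 1) * (h + 2) ≤ (2 * seqE (a Γ.J) h + 1) * (h + 2) :=
            Nat.mul_le_mul_right _ (by omega)
          omega

theorem scaleLemma' (P : Par m) : ScaleLemma' P := by
  classical
  intro q hq p l hl
  by_contra hcon
  push Not at hcon
  set J := q.cols.length with hJ
  set col : ℕ → Col := fun i => q.cols.getD i default with hcoldef
  have hcolget : ∀ i (hi : i < J), col i = q.cols[i] := by
    intro i hi
    simp only [hcoldef]
    exact List.getD_eq_getElem _ _ hi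
  have hmemcol : ∀ i < J, col i ∈ q.cols := by
    intro i hi
    rw [hcolget i hi]
    exact List.getElem_mem _
  set k : ℕ → ℕ := fun i => if i < J then (col i).l.length else l.length with hk
  obtain ⟨bM, hM⟩ := sEval_isC p l
  obtain ⟨m1, hm1⟩ := list_bound q.cols (fun c n => c.m ≤ n) (fun c _ => ⟨c.m, fun n hn => hn⟩)
  obtain ⟨j1, hj1⟩ := list_bound q.cols (fun c n => 2 * (c.j + 7) ≤ n)
    (fun c _ => ⟨2 * (c.j + 7), fun n hn => hn⟩)
  set mJ := m1 + 2 * bM + 5 with hmJ
  set kk := ∑ i ∈ Finset.range (J + 1), k i with hkk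
  obtain ⟨a, ha⟩ := exists_exponents J k (8 + 4 * (2 * J + mJ))
  set cc := 1 + ∑ i ∈ Finset.range (J + 1), ∑ h ∈ Finset.range (k i), seqE (a i) h with hcc
  obtain ⟨X0, hX0⟩ := exists_mem' P hq.1
  obtain ⟨n0, hn0⟩ := exists_frz' P hq.1 hX0
  obtain ⟨ν, n, N, hn, hNm⟩ := exists_nm J kk mJ cc (n0 + j1) (by omega)
  obtain ⟨hqn, hwf⟩ := hn0 n (by omega)
  have hPP := hq.frz hX0 hqn hwf
  set Γ : Ctx := ⟨frz q X0 n, J, col, k, N, ν⟩ with hΓdef
  have hpair := List.pairwise_iff_getElem.1 hq.1.wf.sorted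
  have hn16 := hNm.T16.1
  have hccb : ∀ i ≤ J, ∀ h < k i, seqE (a i) h ≤ cc := by
    intro i hi h hh
    have h1 : seqE (a i) h ≤ ∑ h ∈ Finset.range (k i), seqE (a i) h :=
      Finset.single_le_sum (f := fun h => seqE (a i) h) (fun _ _ => Nat.zero_le _)
        (Finset.mem_range.2 hh)
    have h2 : ∑ h ∈ Finset.range (k i), seqE (a i) h ≤
        ∑ i ∈ Finset.range (J + 1), ∑ h ∈ Finset.range (k i), seqE (a i) h :=
      Finset.single_le_sum (f := fun i => ∑ h ∈ Finset.range (k i), seqE (a i) h)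
        (fun _ _ => Nat.zero_le _) (Finset.mem_range.2 (by omega))
    omega
  have hkkb : ∀ i ≤ J, k i ≤ kk := fun i hi =>
    Finset.single_le_sum (f := k) (fun _ _ => Nat.zero_le _) (Finset.mem_range.2 (by omega))
  have hΓ : Γ.OK := by
    refine ⟨hwf.wf, ?_, ?_, ?_, ?_, ?_, ?_⟩
    · intro c
      show c ∈ q.cols ↔ ∃ i < J, c = col i
      constructor
      · intro hc
        obtain ⟨i, hi, rfl⟩ := List.getElem_of_mem hc
        exact ⟨i, hi, (hcolget i hi).symm⟩
      · rintro ⟨i, hi, rfl⟩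
        exact hmemcol i hi
    · intro i hi i' hi' he
      have hi : i < J := hi
      have hi' : i' < J := hi'
      have he : (col i).j = (col i').j := he
      rw [hcolget i hi, hcolget i' hi'] at he
      rcases lt_trichotomy i i' with h1 | h1 | h1
      · have := (hpair i i' hi hi' h1).2
        omega
      · exact h1
      · have := (hpair i' i hi' hi h1).2
        omega
    · intro i i' hii hi'
      have hi' : i' < J := hi'
      show (col i).m ≤ (col i').m
      rcases hii.eq_or_lt with rfl | h1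
      · exact le_rfl
      · rw [hcolget i (by omega), hcolget i' hi']
        exact (hpair i i' (by omega) hi' h1).1
    · intro i hi
      have hi : i < J := hi
      show k i = (col i).l.length
      simp only [hk, hi, if_true]
    · intro i hi
      show 1 ≤ k i
      simp only [hk]
      split_ifs with h1
      · have h2 := (hq.1.wf.gd _ (hmemcol i h1)).hl
        exact List.length_pos_of_ne_nil h2
      · exact List.length_pos_of_ne_nil hl
    · show 3 ≤ n
      omega
  have hmJb : ∀ i < Γ.J, (Γ.col i).m ≤ mJ := by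
    intro i hi
    have := hm1 m1 le_rfl _ (hmemcol i hi)
    show (col i).m ≤ mJ
    omega
  have hjb : ∀ i < Γ.J, 2 * ((Γ.col i).j + 7) ≤ Γ.n := by
    intro i hi
    have := hj1 j1 le_rfl _ (hmemcol i hi)
    show 2 * ((col i).j + 7) ≤ n
    omega
  have hJust : ∀ i < Γ.J, Just' P Γ.q (Γ.col i) := fun i hi => hPP.2 _ (hmemcol i hi)
  have hkJ : Γ.k Γ.J = l.length := by
    show (if J < J then (col J).l.length else l.length) = l.length
    rw [if_neg (lt_irrefl _)]
  have hX : ∀ X, Mem' P Γ.q X → ∀ s, sEval p l X s = QQ (l.length + 1) X s :=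
    fun X hX => hcon X (frz_mem' P hX0.1.1 hqn hX)
  have hbM : 2 * bM + 5 ≤ 2 ^ mJ := by
    have : mJ < 2 ^ mJ := Nat.lt_two_pow_self
    omega
  obtain ⟨YY, R, hLW, hI⟩ := start' P hΓ (shp N (fun i h => seqE (a i) h)) (by
      intro i hi
      have hi : i ≤ J := hi
      show i + 2 ≤ n
      have := hNm.hn
      omega) (by
      show N ≤ 2 ^ n
      have := hNm.hcc 1 (by omega)
      rwa [pow_one] at this) (by
      intro i hi h hh
      exact hNm.hcc _ (hccb i hi h hh))
  refine run' P hΓ hwf hNm hkkb hmJb hjb hJust a hccb p l hkJ bM hM hX hbM (2 * J + mJ) 0 0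
    (fun i h => seqE (a i) h) _ YY R hLW hI ?_ (fun _ _ _ => rfl) (fun i => le_rfl) ?_ (Nat.zero_le _)
  · show 2 * J + mJ = 2 * (J - 0) + (mJ - 0)
    omega
  · intro i
    exact ha i

end Pool.Agent.Lib.Pa76659I
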