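import Pool.Agent.Lib.Pa76659I.ZBase

/-!
# Pa76659I.ZAgree: the contents of `z` depend only on the free trees of lower rank

PROOF. `ct_congr P hk z`: it suffices that `Xz x v = Xz x' v` for `v.length ≤ Lz P z`. This is
`Phi_local hq.wf (τ := none) (τ' := none) (n := Lz P z + 1)`: we need `Yz x v = Yz x' v` for
`v.length ≤ Lz P z`. By `Yz_cases` the bit is constant, or `x (p ++ [0])` (use `h` with
`r' = 0 < r`), or `x (p ++ [rk y])` with `v = nmv P y p`: then `(bas P y).length ≤ v.length ≤ Lz P z`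
(`ls_length`, `es_length`), and `bas_len` (`2 ^ (m+1) * Lz P y + 2 ≤ (bas P y).length`) gives
`Lz P y < Lz P z`, so `y.length < z.length` (`Lz_mono`), so `rk y < 2 ^ (y.length + 1) ≤
2 ^ z.length ≤ r` (`Pa76659P.rk_lt`). `(p ++ [a]).getLast? = some a`.
-/

set_option maxHeartbeats 4000000

namespace Pool.Agent.Lib.Pa76659I

open Pool.Agent.Lib.Pa76659 Pool.Agent.Lib.Pa76659.Hier Pool.Agent.Lib.Pa76659H

variable {m : ℕ}

theorem Xz_agree (P : Par m) (t E : ℕ) {q : Cnd} (hq : WF' P q) {k : ℕ} (hk : k ≤ m) (z : Str)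
    {r : ℕ} (hr : 2 ^ z.length ≤ r) {x x' : List ℕ → Bool} (h : Pa76659P.AgreeBelow r x x') :
    ct k (Xz P t E q x) z = ct k (Xz P t E q x') z := by
  have hr0 : 0 < r := lt_of_lt_of_le (by positivity) hr
  apply ct_congr P hk z
  intro v hv
  apply Phi_local hq.wf (fun _ _ => none) (fun _ _ => none) (Yz P t q.N E x) (Yz P t q.N E x')
    (Lz P z + 1) (fun _ _ _ _ => rfl) ?_ v (by omega)
  intro v _ hv2 _
  rcases Yz_cases P t q.N E v with ⟨b, hb⟩ | ⟨y, p, _, _, hve, hb⟩ | ⟨p, hb⟩
  · rw [hb, hb]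
  · rw [hb, hb]
    refine h (p ++ [Pa76659P.rk y]) (Pa76659P.rk y) (by simp) ?_
    have h1 := bas_len P y
    have h2 : (bas P y).length ≤ v.length := by
      rw [hve]
      unfold nmv
      rw [ls_length, es_length]
      have h4 : (bas P y).length ≤ (bas P y).length * 2 ^ p.length :=
        Nat.le_mul_of_pos_right _ (by positivity)
      omega
    have h3 : Lz P y ≤ 2 ^ (m + 1) * Lz P y := Nat.le_mul_of_pos_left _ (by positivity)
    have h5 : y.length < z.length := by
      by_contra h6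
      have h7 := Lz_mono P (z := z) (z' := y) (by omega)
      omega
    have h8 := Pa76659P.rk_lt y
    have h9 : 2 ^ (y.length + 1) ≤ 2 ^ z.length := Nat.pow_le_pow_right (by norm_num) h5
    omega
  · rw [hb, hb]
    exact h (p ++ [0]) 0 (by simp) hr0

end Pool.Agent.Lib.Pa76659I
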