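import Pool.Agent.Lib.Pa76659I.ZDT
import Pool.Agent.Lib.Pa76659I.ZAgree

/-!
# Pa76659I.ZEven: the zone lemma for even `t`

PROOF (as `step_D` in Pa76659P/Step.lean). `t = 2 k + 2`, `jj t = k + 1`, `kap t = k + 2`,
`l.length = k + 1`. Given `q` with `PP' P q`, `p'` (not used), `p`, `l`.
Choose `b` from `sEval_isC p l`. Let `E N = N ^ b + N + 1`, `R N = E N + 4 + N * 2 ^ (k+1) + 1`.
Replace `q` by `q' = frz q X0 N` for a member `X0` (`exists_mem'`, `exists_frz'`, `PP'.frz`) with
`N` so large that `2 ≤ N`, `Lz P [] < N` and `MD k (N^b) (N^b * 2) R ≤ 2 ^ N` (`Pa76659P.MD_poly`,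
`pow_le_two_pow`, `poly_le`).
Apply `Pa76659P.advDelta k (N^b) (N^b*2) R (2^R) n` with `n = 2 ^ (E + 3)`, `m = mA t N`
(`2^N ≤ mA t N i ≤ 2^(N * 2^(k+1))`), `f x = sEval p l (join (Xz x) (W t (Xz x))) (s0 N)`
(`mach_isC`; `(s0 N).length = N`), and the contents
`cont c x = if ∃ f z, rk (f :: z) = c ∧ act P N E (rt (lof m t f) false z) then cz m t f z (Xz x)
else false` (agreement below `2 * c`: `Xz_agree`, `c = rk (f :: z) ≥ 2^(z.length+1)`).
The pair `2 c, 2 c + 1` is `rk (false :: f :: z), rk (true :: f :: z)` (`rk` unfolds), and `FT` for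
even `t` is the xor of `T1 P t N (b :: f :: z)`; `T1_Xz`. So `hfor` of `RR_Xz` holds, and `Xz x` is in
`Mem' P q'`. Finally `mach t p' p l (Xz x) (s0 N) = f x` and `QQ_Xz`.
-/

set_option maxHeartbeats 4000000

namespace Pool.Agent.Lib.Pa76659I

open Pool.Agent.Lib.Pa76659 Pool.Agent.Lib.Pa76659.Hier Pool.Agent.Lib.Pa76659H

variable {m : ℕ}

namespace ZEvenAux

theorem rt_len (s : ℕ) (b : Bool) (z : Str) :
    z.length ≤ (rt s b z).length ∧ (rt s b z).length ≤ z.length + 1 := by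
  unfold rt
  split_ifs <;> simp

end ZEvenAux

open ZEvenAux in
theorem zone_even (P : Par m) {t : ℕ} (ht1 : 1 ≤ t) (ht : t ≤ m) (he : t % 2 = 0) :
    ZoneLemma P t := by
  classical
  intro q hq p' p l hl
  obtain ⟨k, hk⟩ : ∃ k, t = 2 * k + 2 := ⟨t / 2 - 1, by omega⟩
  have hkap : kap t = k + 2 := by unfold kap; omega
  have hjj : jj t = k + 1 := by unfold jj; omega
  have hlk : l.length = k + 1 := by omega
  obtain ⟨b, hb⟩ := sEval_isC p l
  obtain ⟨B, hB⟩ := poly_le (Polynomial.X ^ b * 2 + ((Polynomial.X ^ b + Polynomial.X + 1) + 4 +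
    Polynomial.X * Polynomial.C (2 ^ (k + 1)) + 1))
  obtain ⟨d, hMD⟩ := Pa76659P.MD_poly k B
  obtain ⟨n1, hn1⟩ := pow_le_two_pow d
  obtain ⟨X0, hX0⟩ := exists_mem' P hq.1
  obtain ⟨n0, hn0⟩ := exists_frz' P hq.1 hX0
  obtain ⟨N, hN⟩ : ∃ N, N = n0 + n1 + 2 + Lz P [] + 1 := ⟨_, rfl⟩
  have e1 : n1 ≤ N := by omega
  have e2 : 2 ≤ N := by omega
  have e3 : Lz P [] < N := by omega
  obtain ⟨hqN, hwf⟩ := hn0 N (by omega)
  have hBN := hB N e2
  simp only [Polynomial.eval_add, Polynomial.eval_mul, Polynomial.eval_pow, Polynomial.eval_X,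
    Polynomial.eval_C, Polynomial.eval_ofNat, Polynomial.eval_one] at hBN
  obtain ⟨q', hq'⟩ : ∃ q', q' = frz q X0 N := ⟨_, rfl⟩
  have hq'N : q'.N = N := by rw [hq']; rfl
  rw [← hq'] at hwf
  obtain ⟨E, hE⟩ : ∃ E, E = N ^ b + N + 1 := ⟨_, rfl⟩
  obtain ⟨R, hR⟩ : ∃ R, R = E + 4 + N * 2 ^ (k + 1) + 1 := ⟨_, rfl⟩
  have hs0 : (s0 N).length = N := by
    unfold s0
    simp only [List.length_cons, List.length_replicate]
    omega
  let cont : ℕ → (List ℕ → Bool) → Bool := fun c x =>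
    if h : ∃ a : Bool × Str, Pa76659P.rk (a.1 :: a.2) = c ∧
        act P N E (rt (lof m t a.1) false a.2) then
      cz m t h.choose.1 h.choose.2 (Xz P t E q' x) else false
  obtain ⟨x, hx1, hx2⟩ := Pa76659P.advDelta k (N ^ b) (N ^ b * 2) R (2 ^ R) (2 ^ (E + 3)) le_rfl
    (by
      rw [← pow_succ']
      exact Nat.pow_le_pow_right (by norm_num) (by omega)) (mA t N) (by
      intro i hi
      unfold mA
      have h1 : kap t - 1 - i ≤ k + 1 := by omega
      have h2 : 1 ≤ 2 ^ (kap t - 1 - i) := Nat.one_le_two_pow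
      have h3 : 2 ^ (kap t - 1 - i) ≤ 2 ^ (k + 1) := Nat.pow_le_pow_right (by norm_num) h1
      constructor
      · refine (hMD N e2 (N ^ b) (N ^ b * 2) R (by omega) (by omega) (by omega)).trans
          ((hn1 N e1).trans (Nat.pow_le_pow_right (by norm_num) ?_))
        exact Nat.le_mul_of_pos_right _ h2
      · refine Nat.pow_le_pow_right (by norm_num) ?_
        have h4 : N * 2 ^ (kap t - 1 - i) ≤ N * 2 ^ (k + 1) := Nat.mul_le_mul_left _ h3
        omega)
    (fun x => sEval p l (join (Xz P t E q' x) (W t (Xz P t E q' x))) (s0 N)) (by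
      have h1 := hb N e2 (s0 N) hs0.le
      rw [hlk] at h1
      exact mach_isC P ht1 ht E hwf (by rw [hq'N]; exact e3) (M := N ^ b) (by omega) h1)
    cont (by
      intro c x x' hxx
      simp only [cont]
      split_ifs with h
      · have h1 := h.choose_spec.1
        have h2 := Pa76659P.rk_ge (h.choose.1 :: h.choose.2)
        rw [h1, List.length_cons, pow_succ] at h2
        have h3 : 2 ^ h.choose.2.length ≤ 2 * c := by omega
        unfold cz
        split_ifs
        · exact Xz_agree P t E hwf (by unfold jj; omega) _ h3 hxx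
        · exact Xz_agree P t E hwf (by unfold jj; omega) _ h3 hxx
      · rfl)
  have hRR : RR m P.B (Xz P t E q' x) := by
    apply RR_Xz P ht1 ht E hwf x
    intro f z hact
    rw [hq'N] at hact ⊢
    obtain ⟨hl1, hl2⟩ := rt_len (lof m t f) false z
    have hL : ∀ b : Bool, q'.N ≤ Lz P (b :: f :: z) := by
      intro b
      rw [hq'N]
      refine hact.1.trans (Lz_mono P ?_)
      simp only [List.length_cons]
      omega
    have hc := hx1 (Pa76659P.rk (f :: z)) (Pa76659P.rk_pos _) (by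
      refine (Pa76659P.rk_lt _).trans_le (Nat.pow_le_pow_right (by norm_num) ?_)
      have := hact.2
      simp only [List.length_cons]
      omega)
    have hF : FT P t N f z (Xz P t E q' x) = xor
        (tr (mA t N) (k + 1) x [2 * Pa76659P.rk (f :: z)])
        (tr (mA t N) (k + 1) x [2 * Pa76659P.rk (f :: z) + 1]) := by
      have g1 := T1_Xz P ht1 ht E x (false :: f :: z) (hL false)
      have g2 := T1_Xz P ht1 ht E x (true :: f :: z) (hL true)
      rw [hq'N, hjj] at g1 g2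
      unfold FT yv
      rw [if_pos he, if_pos he, if_pos he, g1, g2]
      simp only [Pa76659P.rk]
      simp
    rw [hF, hc]
    have h : ∃ a : Bool × Str, Pa76659P.rk (a.1 :: a.2) = Pa76659P.rk (f :: z) ∧
        act P N E (rt (lof m t a.1) false a.2) := ⟨(f, z), rfl, hact⟩
    simp only [cont]
    rw [dif_pos h]
    have h1 := Pa76659P.rk_inj _ _ h.choose_spec.1
    have h2 : h.choose.1 = f := (List.cons.inj h1).1
    have h3 : h.choose.2 = z := (List.cons.inj h1).2
    rw [h2, h3]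
  refine ⟨Xz P t E q' x, ?_, s0 N, ?_⟩
  · apply frz_mem' P hX0.1.1 hqN
    rw [← hq']
    exact ⟨Xz_mem P t E hwf x, hRR⟩
  · have h1 := QQ_Xz P t E (q := q') (by omega) x
    rw [hq'N] at h1
    rw [h1, hkap]
    unfold mach
    rw [if_pos he]
    exact hx2

end Pool.Agent.Lib.Pa76659I
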