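import Pool.Agent.Lib.Pa76659I.ZDT
import Pool.Agent.Lib.Pa76659I.ZAgree

/-!
# Pa76659I.ZOdd: the zone lemma for odd `t`

PROOF (as `step_S` in Pa76659P/Step.lean). `t = 2 k + 1`, `jj t = kap t = k + 1`, `l.length = k`.
Given `q` with `PP' P q`, `p'`, `p`, `l`.
Choose `b` from `sEval_isC p l` (`IsC (SL (n^b)) (n^b) (n^b) l.length (fun O => sEval p l O x)` for
`x.length ≤ n`). Let `M N = N + p'.2.eval N`, `E N = (M N) ^ b + M N + 1`,
`R N = E N + 3 + N * 2 ^ k + 1`. Replace `q` by `q' = frz q X0 N` for a member `X0` (`exists_mem'`,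
`exists_frz'`, `PP'.frz`) with `N` so large that `2 ≤ N`, `Lz P [] < N` and
`MS k (M^b) (M^b * 2) (2 M + 1) (p'.2.eval N) R ≤ 2 ^ N` (`Pa76659P.MS_poly`, `pow_le_two_pow`,
`poly_le`). Members of `q'` are members of `q` (`frz_mem'`).
Apply `Pa76659P.advSigma k w T a D R (2^R) n` with `n = 2 ^ (E + 3)`, `m = mA t N`
(`2^N ≤ mA t N i ≤ 2^(N * 2^k)`), the queries `i : Qs M` (`Pa76659P.card_Qs`),
`q i x = (sEval p l (join (Xz x) (W t (Xz x)))) (List.ofFn i.2)` (`mach_isC`), the decision tree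
`T' ` of `p'` on the input `s0 N` (`accTree`, `Pa76659P.exists_dtQ`), and the contents
`cont r x = if ∃ f z, rk (f :: z) = r ∧ act P N E (rt (lof m t f) false z) then cz m t f z (Xz x)
else false` (agreement: `Xz_agree` with `r = rk (f :: z) ≥ 2^(z.length+1)`, `Pa76659P.rk_ge`,
`rk_inj`). The result `x` has `tr (mA t N) (k+1) x [rk (f :: z)] = cz ..` for all active roots
(`(f :: z).length ≤ E + 1`, so `rk (f :: z) < 2^(E+2)`, `Pa76659P.rk_lt`), which is `hfor` of
`RR_Xz` by `T1_Xz` (`FT` for odd `t` is `T1 P t N (f :: z)`; `N ≤ Lz P (f :: z)` from activity).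
So `Xz x` is in `Mem' P q'` (`Xz_mem`, `RR_Xz`). Finally `mach t p' p l (Xz x) (s0 N) =
T'.eval (fun i => q i x)` (`accTree_eval`), and `QQ_Xz`.
-/

set_option maxHeartbeats 4000000

namespace Pool.Agent.Lib.Pa76659I

open Pool.Agent.Lib.Pa76659 Pool.Agent.Lib.Pa76659.Hier Pool.Agent.Lib.Pa76659H

variable {m : ℕ}

namespace ZOddAux

theorem lz_mono (P : Par m) {y z : Str} (h : y.length ≤ z.length) : Lz P y ≤ Lz P z := by
  unfold Lz
  exact Nat.pow_le_pow_left (by omega) _

theorem rt_length (s : ℕ) (b : Bool) (z : Str) :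
    z.length ≤ (rt s b z).length ∧ (rt s b z).length ≤ z.length + 1 := by
  unfold rt
  split_ifs <;> simp

theorem s0_length {N : ℕ} (h : 1 ≤ N) : (s0 N).length = N := by
  unfold s0
  simp only [List.length_cons, List.length_replicate]
  omega

end ZOddAux

theorem zone_odd (P : Par m) {t : ℕ} (ht1 : 1 ≤ t) (ht : t ≤ m) (ho : t % 2 = 1) :
    ZoneLemma P t := by
  classical
  intro q hq p' p l hl
  set k := l.length with hk
  have hkap : kap t = k + 1 := hl.symm
  have hjj : jj t = k + 1 := by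
    rw [← hkap]
    unfold jj kap
    omega
  have hjm : jj m ≤ m := by unfold jj; omega
  have hjt : jj t ≤ m := by unfold jj; omega
  obtain ⟨X0, hX0⟩ := exists_mem' P hq.1
  obtain ⟨n0, hn0⟩ := exists_frz' P hq.1 hX0
  obtain ⟨b, hb⟩ := sEval_isC p l
  obtain ⟨B, hB⟩ := poly_le ((Polynomial.X + p'.2) ^ b * 2 + (2 * (Polynomial.X + p'.2) + 1) +
    ((((Polynomial.X + p'.2) ^ b + (Polynomial.X + p'.2) + 1) + 3) + Polynomial.X * Polynomial.C
      (2 ^ k) + 1))
  obtain ⟨d, hMS⟩ := Pa76659P.MS_poly k B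
  obtain ⟨n1, hn1⟩ := pow_le_two_pow d
  set N := max (max n0 n1) (max 2 (Lz P [] + 1)) with hN
  have e0 : n0 ≤ N := le_trans (le_max_left _ _) (le_max_left _ _)
  have e1 : n1 ≤ N := le_trans (le_max_right _ _) (le_max_left _ _)
  have e2 : 2 ≤ N := le_trans (le_max_left _ _) (le_max_right _ _)
  have e3 : Lz P [] + 1 ≤ N := le_trans (le_max_right _ _) (le_max_right _ _)
  clear_value N
  obtain ⟨hqN, hqw⟩ := hn0 N e0
  have hBN := hB N e2
  simp only [Polynomial.eval_add, Polynomial.eval_mul, Polynomial.eval_pow, Polynomial.eval_X,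
    Polynomial.eval_C, Polynomial.eval_ofNat, Polynomial.eval_one] at hBN
  set M := N + p'.2.eval N with hM
  set E := M ^ b + M + 1 with hE
  set R := E + 3 + N * 2 ^ k + 1 with hR
  have hMb : 0 ≤ M ^ b := Nat.zero_le _
  set q' := frz q X0 N with hq'
  have hq'N : q'.N = N := rfl
  have hq'P : PP' P q' := hq.frz hX0 hqN hqw
  have hs0l : (s0 N).length = N := ZOddAux.s0_length (by omega)
  set T := accTree p'.1 (inp (s0 N)) (p'.2.eval (s0 N).length) with hT
  have hTq : T.QIn {v | v.length ≤ M} := by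
    have h1 := accTree_qin p'.1 (inp (s0 N)) (p'.2.eval (s0 N).length) (s0 N).length
      (inp_bdd (s0 N))
    rw [hs0l] at h1
    rw [hT, hs0l]
    exact h1
  have hTd : T.depth ≤ p'.2.eval N := by
    have h1 := accTree_depth p'.1 (inp (s0 N)) (p'.2.eval (s0 N).length)
    rw [hs0l] at h1
    rw [hT, hs0l]
    exact h1
  obtain ⟨T', hT'1, hT'2⟩ := Pa76659P.exists_dtQ M T hTq
  let cont : ℕ → (List ℕ → Bool) → Bool := fun r x =>
    if h : ∃ a : Bool × Str, Pa76659P.rk (a.1 :: a.2) = r ∧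
        act P N E (rt (lof m t a.1) false a.2) then
      cz m t h.choose.1 h.choose.2 (Xz P t E q' x) else false
  have hleM : N ≤ M := by omega
  obtain ⟨x, hx1, hx2⟩ := Pa76659P.advSigma k (M ^ b) (M ^ b * 2) (2 * M + 1) (p'.2.eval N) R
    (2 ^ R) (2 ^ (E + 3)) le_rfl (Nat.pow_le_pow_right (by norm_num) (by omega)) (mA t N) (by
      intro i _
      constructor
      · refine (hMS N e2 (M ^ b) (M ^ b * 2) (2 * M + 1) (p'.2.eval N) R (by omega) (by omega)
          (by omega) (by omega) (by omega)).trans ((hn1 N e1).trans ?_)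
        unfold mA
        exact Nat.pow_le_pow_right (by norm_num) (Nat.le_mul_of_pos_right _ (by positivity))
      · unfold mA
        apply Nat.pow_le_pow_right (by norm_num)
        have h1 : N * 2 ^ (kap t - 1 - i) ≤ N * 2 ^ k :=
          Nat.mul_le_mul_left _ (Nat.pow_le_pow_right (by norm_num) (by omega))
        omega)
    (Pa76659P.card_Qs M) (fun i x => sEval p l (join (Xz P t E q' x) (W t (Xz P t E q' x)))
      (List.ofFn i.2)) (by
      intro i
      have h1 := hb M (by omega) (List.ofFn i.2) (by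
        rw [List.length_ofFn]
        have := i.1.2
        omega)
      exact mach_isC P ht1 ht E hq'P.1 (by rw [hq'N]; omega) (M := M ^ b) (by omega) h1)
    T' (hT'1.trans hTd) cont (by
      intro r x x' hxx
      simp only [cont]
      split_ifs with h
      · have h1 := h.choose_spec.1
        have h2 := Pa76659P.rk_ge (h.choose.1 :: h.choose.2)
        rw [h1, List.length_cons, pow_succ] at h2
        have h3 : 2 ^ h.choose.2.length ≤ r := by omega
        unfold cz
        split_ifs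
        · exact Xz_agree P t E hq'P.1 hjm _ h3 hxx
        · exact Xz_agree P t E hq'P.1 hjt _ h3 hxx
      · rfl)
  have hmem : Mem' P q' (Xz P t E q' x) := by
    refine ⟨Xz_mem P t E hq'P.1 x, RR_Xz P ht1 ht E hq'P.1 x ?_⟩
    intro f z hact
    rw [hq'N] at hact
    obtain ⟨ha1, ha2⟩ := hact
    have hlen := ZOddAux.rt_length (lof m t f) false z
    have hLz : N ≤ Lz P (f :: z) := ha1.trans (ZOddAux.lz_mono P (by
      rw [List.length_cons]; exact hlen.2))
    have hy : yv t f false z = f :: z := by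
      unfold yv
      rw [if_neg (by omega)]
    unfold FT
    rw [if_neg (by omega), hy, T1_Xz P ht1 ht E x (f :: z) (by rw [hq'N]; exact hLz), hq'N, hjj]
    rw [hx1 (Pa76659P.rk (f :: z)) (Pa76659P.rk_pos _) ((Pa76659P.rk_lt _).trans_le
      (Nat.pow_le_pow_right (by norm_num) (by rw [List.length_cons]; omega)))]
    have h : ∃ a : Bool × Str, Pa76659P.rk (a.1 :: a.2) = Pa76659P.rk (f :: z) ∧
        act P N E (rt (lof m t a.1) false a.2) := ⟨(f, z), rfl, ha1, ha2⟩
    simp only [cont]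
    rw [dif_pos h]
    have h5 := Pa76659P.rk_inj _ _ h.choose_spec.1
    rw [List.cons.injEq] at h5
    rw [h5.1, h5.2]
  refine ⟨Xz P t E q' x, frz_mem' P hX0.1.1 hqN hmem, s0 N, ?_⟩
  have hQ := QQ_Xz P t E (q := q') (by rw [hq'N]; omega) x
  rw [hq'N] at hQ
  rw [hQ, hkap]
  intro h
  apply hx2
  rw [← h]
  have h2 := hT'2 (sEval p l (join (Xz P t E q' x) (W t (Xz P t E q' x))))
  rw [h2, hT, accTree_eval]
  unfold mach
  rw [if_neg (by omega)]
  rfl

end Pool.Agent.Lib.Pa76659I
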