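import Pool.Agent.Lib.Pa76659I.Par
import Pool.Agent.Lib.Pa76659I.Lim
import Pool.Agent.Lib.Pa76659I.Run
import Pool.Agent.Lib.Pa76659I.ZOdd
import Pool.Agent.Lib.Pa76659I.ZEven
import Pool.Agent.Lib.Pa76659I.Fin

/-!
# Pa76659I.Main: the theorem
-/

set_option maxHeartbeats 4000000

namespace Pool.Agent.Lib.Pa76659I

open Pool.Agent.Lib.Pa76659 Pool.Agent.Lib.Pa76659.Hier Pool.Agent.Lib.Pa76659H

theorem initial (m : ℕ) : ∃ X : Lang, (∀ k, Sig X k ≠ Sig X (k + 1)) ∧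
    (∀ j < m, HC X j ⊂ HC X (j + 1)) ∧ ∀ j, m ≤ j → HC X j = HC X (j + 1) := by
  rcases Nat.eq_zero_or_pos m with rfl | hm
  · obtain ⟨X, h1, h2, h3⟩ := highCollapse
    refine ⟨X, h1, by omega, fun j _ => ?_⟩
    have h : ∀ j, HC X j = TComp X := by
      intro j
      unfold HC
      split_ifs
      · exact h3 _
      · exact h2 _
    rw [h, h]
  · obtain ⟨P⟩ := exists_par m
    obtain ⟨X, h1, h2, h3, h4⟩ := exists_oracle3 P (scaleLemma' P) (fun t h1 h2 => by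
      rcases Nat.mod_two_eq_zero_or_one t with h | h
      · exact zone_even P h1 h2 h
      · exact zone_odd P h1 h2 h)
    exact ⟨X, initial_of hm P.B X h1 h2 h3 h4⟩

end Pool.Agent.Lib.Pa76659I
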