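import Pool.Agent.Lib.Pa76659I.Cmp

/-!
# Pa76659I.Mem: members, freezing, adding a column

These are the statements of Pa76659H/Lim.lean (`exists_mem`, `exists_frz`, `frz_mem`, `PP.frz`,
`addc_PP`) for `Mem'`, `WF'`, `PP'`.

PROOFS. `ls_free`: a table string is `true :: t1 :: t2 :: (enc w ++ false :: code j B x)`; `enc w` is
empty or starts with `true`, and `code j B x` starts with `true`, so a table string never starts with
`true, _, _, false, false`; `ls s w` starts with `true, false, false, false, false`.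
`bg_lane`: `ls_inj` and `choose_spec`; `bg_other`.
`mem_lane`: for `z` with `tlx .. < q.N` use `hq.rl` and `rule_congr` (`X` and `q.σ` agree below `q.N`
by `hX.1`), otherwise `rule_complete` with `N = q.N`.
`exists_mem'`: `X = Phi q (fun _ _ => none) (bg P (fun _ => false))`, `Mem q X` by `Phi_mem` as in
`exists_mem`; `Phi_free` and `ls_free` give the lanes.
`exists_frz'`: `exists_frz hq.wf hX.1` gives `n0`; the rule clause for `n`: `(frz q X n).σ = X` and
`hX.2`. `ci` is the same list of columns.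
`frz_mem'`: `frz_mem` and the same rule.
`addc_PP'`: as `addc_PP` (the columns of `addc q c` are `q.cols ++ [c]`; `wf` is the proof of
`addc_PP`, which can be copied: it only uses `h.1.gd, .uniq, .lt, .sorted, .wk`; `rl` is `h.1.rl`
since `N` and `σ` are the same; members of `addc q c` are members of `q`).
-/

set_option maxHeartbeats 4000000

namespace Pool.Agent.Lib.Pa76659I

open Pool.Agent.Lib.Pa76659 Pool.Agent.Lib.Pa76659.Hier Pool.Agent.Lib.Pa76659H

variable {m : ℕ}

theorem ls_free (q : Cnd) (s : ℕ) (w : Str) : Free q (ls s w) := by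
  intro c _ x w' t1 t2 h
  simp only [ls, tab, List.cons.injEq, true_and] at h
  obtain ⟨-, -, h⟩ := h
  cases w' with
  | nil => simp [enc, code] at h
  | cons b w' => simp [enc] at h

theorem bg_lane (P : Par m) (Y : Lang) {s : ℕ} (h1 : 1 ≤ s) (hs : s ≤ m) (w : Str) :
    bg P Y (ls s w) = SC P s w := by
  have h : ∃ t : ℕ × Str, 1 ≤ t.1 ∧ t.1 ≤ m ∧ ls s w = ls t.1 t.2 := ⟨(s, w), h1, hs, rfl⟩
  unfold bg
  rw [dif_pos h]
  obtain ⟨e1, e2⟩ := ls_inj h.choose_spec.2.2
  rw [← e1, ← e2]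

theorem bg_false (P : Par m) (Y : Lang) (v : Str) : bg P Y (false :: v) = Y (false :: v) := by
  unfold bg
  rw [dif_neg]
  rintro ⟨t, -, -, h⟩
  simp [ls] at h

/-- a bit of `bg P Y` is a constant or the bit of `Y` -/
theorem bg_cases (P : Par m) (v : Str) :
    (∃ b, ∀ Y : Lang, bg P Y v = b) ∨ ∀ Y : Lang, bg P Y v = Y v := by
  by_cases h : ∃ t : ℕ × Str, 1 ≤ t.1 ∧ t.1 ≤ m ∧ v = ls t.1 t.2
  · left
    refine ⟨SC P h.choose.1 h.choose.2, fun Y => ?_⟩
    unfold bg
    rw [dif_pos h]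
  · right
    intro Y
    unfold bg
    rw [dif_neg h]

theorem mem_lane (P : Par m) {q : Cnd} (hq : WF' P q) {X : Lang} (hX : Mem q X)
    (hl : ∀ s, 1 ≤ s → s ≤ m → ∀ w, q.N ≤ (ls s w).length → X (ls s w) = SC P s w) :
    Mem' P q X := by
  refine ⟨hX, fun s h1 hs z => ?_⟩
  by_cases h : tlx P.B s (rt s false z) < q.N
  · exact rule_congr P hs z q.σ X (fun v hv => (hX.1 v (by omega)).symm) (hq.rl s h1 hs z h)
  · exact rule_complete P hs z X q.N (by omega) (fun w hw => hl s h1 hs w hw)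

theorem exists_mem' (P : Par m) {q : Cnd} (hq : WF' P q) : ∃ X, Mem' P q X := by
  refine ⟨Phi q (fun _ _ => none) (bg P (fun _ => false)), mem_lane P hq ?_ ?_⟩
  · exact Phi_mem hq.wf _ _ (fun c _ x T h => by simp at h) 0 (fun _ _ _ _ => rfl)
  · intro s h1 hs w hw
    rw [Phi_free q _ _ _ hw (ls_free q s w)]
    exact bg_lane P _ h1 hs w

theorem exists_frz' (P : Par m) {q : Cnd} (hq : WF' P q) {X : Lang} (hX : Mem' P q X) :
    ∃ n0, ∀ n, n0 ≤ n → q.N ≤ n ∧ WF' P (frz q X n) := by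
  obtain ⟨n0, hn0⟩ := exists_frz hq.wf hX.1
  refine ⟨n0, fun n hn => ?_⟩
  obtain ⟨h1, h2⟩ := hn0 n hn
  exact ⟨h1, h2, fun s hs1 hs z _ => hX.2 s hs1 hs z, fun c hc Y => hq.ci c hc Y⟩

theorem frz_mem' (P : Par m) {q : Cnd} {X : Lang} (hX : Agree q X) {n : ℕ} (hn : q.N ≤ n)
    {X' : Lang} (h : Mem' P (frz q X n) X') : Mem' P q X' :=
  ⟨frz_mem hX hn h.1, h.2⟩

theorem PP'.frz {P : Par m} {q : Cnd} (h : PP' P q) {X : Lang} (hX : Mem' P q X) {n : ℕ}
    (hn : q.N ≤ n) (hw : WF' P (frz q X n)) : PP' P (frz q X n) :=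
  ⟨hw, fun c hc X' hX' => h.2 c hc X' (frz_mem' P hX.1.1 hn hX')⟩

theorem addc_PP' (P : Par m) {q : Cnd} (h : PP' P q) {c : Col} (hc : Gd c) (hj : c.j + 1 = q.N)
    (hjn : ∀ c' ∈ q.cols, c'.j < c.j) (hm : ∀ c' ∈ q.cols, c'.m ≤ c.m)
    (hi : ∀ X, nEval c.i X = W m X) (hJ : Just' P q c) : PP' P (addc q c) := by
  have hmem : ∀ X, Mem' P (addc q c) X → Mem' P q X := by
    rintro X ⟨⟨h1, h2, n, h3⟩, h4⟩
    exact ⟨⟨h1, fun c' hc' => h2 c' (by simp [Pa76659H.addc, hc']), n,
      fun c' hc' => h3 c' (by simp [Pa76659H.addc, hc'])⟩, h4⟩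
  refine ⟨⟨⟨?_, ?_, ?_, ?_, ?_⟩, fun s h1 hs z hz => h.1.rl s h1 hs z hz, ?_⟩, ?_⟩
  · intro c' hc'
    rcases List.mem_append.1 hc' with hc' | hc'
    · exact h.1.wf.gd c' hc'
    · rw [List.mem_singleton.1 hc']; exact hc
  · intro c1 hc1 c2 hc2 he
    rcases List.mem_append.1 hc1 with hc1 | hc1 <;> rcases List.mem_append.1 hc2 with hc2 | hc2
    · exact h.1.wf.uniq c1 hc1 c2 hc2 he
    · rw [List.mem_singleton.1 hc2] at he
      have := hjn c1 hc1; omega
    · rw [List.mem_singleton.1 hc1] at he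
      have := hjn c2 hc2; omega
    · rw [List.mem_singleton.1 hc1, List.mem_singleton.1 hc2]
  · intro c' hc'
    rcases List.mem_append.1 hc' with hc' | hc'
    · exact h.1.wf.lt c' hc'
    · rw [List.mem_singleton.1 hc']; show c.j < q.N; omega
  · show (q.cols ++ [c]).Pairwise _
    rw [List.pairwise_append]
    refine ⟨h.1.wf.sorted, List.pairwise_singleton _ _, ?_⟩
    intro c1 hc1 c2 hc2
    rw [List.mem_singleton.1 hc2]
    exact ⟨hm c1 hc1, hjn c1 hc1⟩
  · intro c' hc' x hx X hX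
    rcases List.mem_append.1 hc' with hc' | hc'
    · exact h.1.wf.wk c' hc' x hx X hX
    · rw [List.mem_singleton.1 hc'] at hx
      have hx : tl c x < q.N := hx
      unfold tl at hx
      omega
  · intro c' hc' X
    rcases List.mem_append.1 hc' with hc' | hc'
    · exact h.1.ci c' hc' X
    · rw [List.mem_singleton.1 hc']; exact hi X
  · intro c' hc'
    rcases List.mem_append.1 hc' with hc' | hc'
    · exact fun X hX => h.2 c' hc' X (hmem X hX)
    · rw [List.mem_singleton.1 hc']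
      exact fun X hX => hJ X (hmem X hX)

end Pool.Agent.Lib.Pa76659I
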