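import Pool.Agent.Lib.Pa76659I.Defs

/-!
# Pa76659I.Par: the parameters exist

PROOF. As `Pa76659P.exists_par` (file Pa76659P/Par.lean).
`ct k X z = J (k+1) (join U0 X) z`. `Pa76659P.J_isC (k+1)` gives `b_k` with
`IsC (SL (n^b_k)) (n^b_k) (n^b_k) (k+1) (fun Z => J (k+1) Z z)` for `n = z.length + 2`; rename the
variables (`IsC.rename`) by `φ [] = Sum.inr false`, `φ (false :: w) = Sum.inr (U0 w)`,
`φ (true :: u) = Sum.inl u` (`join U0 X v = Sum.elim X id (φ v)`; the variable `u` is shorter).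
`b := (Finset.range (m+1)).sup b_k` (`IsC.mono`, `SL_mono`). Then `e` and `B` exist since both
left sides are polynomials in `n + 2` (`poly_le`, and `x^c ≤ x^(2^c)`), see `exists_par` in P; for
`hB` note `nl m e n ≤ m + 7 + (3 + ((n+2)+2)^(2^e) + (n+2)) * 2^m`, a polynomial in `n + 2`.
-/

set_option maxHeartbeats 4000000

namespace Pool.Agent.Lib.Pa76659I

open Pool.Agent.Lib.Pa76659 Pool.Agent.Lib.Pa76659.Hier Pool.Agent.Lib.Pa76659H

theorem exists_par (m : ℕ) : Nonempty (Par m) := by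
  classical
  choose b1 hb1 using fun k : ℕ => Pa76659P.J_isC (k + 1)
  set b : ℕ := (Finset.range (m + 1)).sup b1 with hb
  have hpow : ∀ (c n : ℕ), 2 ≤ n → n ^ c ≤ n ^ (2 ^ c) := fun c n hn =>
    Nat.pow_le_pow_right (by omega) (Nat.lt_two_pow_self).le
  have h1 : ∃ e : ℕ, ∀ n : ℕ, 2 ^ (m + 1) * (n + 2) ^ b + 2 ≤ (n + 2) ^ (2 ^ e) := by
    obtain ⟨c, hc⟩ := poly_le (Polynomial.C (2 ^ (m + 1)) * Polynomial.X ^ b + 2)
    refine ⟨c, fun n => ?_⟩
    have h := hc (n + 2) (by omega)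
    simp only [Polynomial.eval_add, Polynomial.eval_mul, Polynomial.eval_pow, Polynomial.eval_X,
      Polynomial.eval_C, Polynomial.eval_ofNat] at h
    exact h.trans (hpow _ _ (by omega))
  obtain ⟨e, he⟩ := h1
  have h2 : ∃ B : ℕ, ∀ n : ℕ, need m b e n ≤ (n + 2) ^ (2 ^ B) := by
    let L : Polynomial ℕ := Polynomial.X ^ b
    let Q : Polynomial ℕ := Polynomial.C (m + 7) +
      (3 + (Polynomial.X + 2) ^ (2 ^ e) + Polynomial.X) * Polynomial.C (2 ^ m)
    obtain ⟨c, hc⟩ := poly_le (L + L + 1 + L * (3 * L + 3) +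
      2 * (L * Polynomial.C (2 ^ m) + 3) + 3 + 2 * (3 * Q + 3))
    refine ⟨c, fun n => ?_⟩
    have h := hc (n + 2) (by omega)
    simp only [L, Q, Polynomial.eval_add, Polynomial.eval_mul, Polynomial.eval_pow,
      Polynomial.eval_X, Polynomial.eval_C, Polynomial.eval_ofNat, Polynomial.eval_one] at h
    refine le_trans (le_of_eq ?_) (h.trans (hpow _ _ (by omega)))
    unfold need nl
    rfl
  obtain ⟨B, hB⟩ := h2
  refine ⟨⟨b, e, B, ?_, he, hB⟩⟩
  intro k hk z
  have hbk : b1 k ≤ b := Finset.le_sup (f := b1) (Finset.mem_range.2 (by omega))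
  have h3 := hb1 k (z.length + 2) (by omega) z (by omega)
  let φ : Str → Str ⊕ Bool := fun v => match v with
    | [] => Sum.inr false
    | false :: w => Sum.inr (U0 w)
    | true :: u => Sum.inl u
  have h4 := h3.rename (S' := SL ((z.length + 2) ^ b1 k)) φ (by
    intro v hv v' hv'
    have h5 : v.length ≤ (z.length + 2) ^ b1 k := hv
    rcases v with _ | ⟨c, v⟩
    · simp [φ] at hv'
    · cases c
      · simp [φ] at hv'
      · simp only [φ, Sum.inl.injEq] at hv'
        simp only [List.length_cons] at h5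
        show v'.length ≤ (z.length + 2) ^ b1 k
        rw [← hv']
        omega)
  have h6 : (z.length + 2) ^ b1 k ≤ (z.length + 2) ^ b :=
    Nat.pow_le_pow_right (by omega) hbk
  refine (h4.mono (SL_mono h6) h6 h6).congr (fun X => ?_)
  unfold ct
  congr 1
  funext v
  rcases v with _ | ⟨c, v⟩
  · rfl
  · cases c <;> rfl

end Pool.Agent.Lib.Pa76659I
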