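import Pool.Agent.Lib.Pa76659I.Mem

/-!
# Pa76659I.ZBase: the bits of the worlds of a zone

`Xz P t E q x = Phi q (fun _ _ => none) (Yz P t q.N E x)`.

PROOFS. `Xz_mem`: `Phi_mem hq.wf _ _ (..) 0 (..)`, `TOK` is void for `none` (see `exists_mem`).
`Xz_lane`: `Phi_free` with `ls_free`, then the first `dif` of `Yz` (`ls_inj`).
`Xz_name`: `nmv P y p = ls (m + 1) (..)` is free (`ls_free`); the first `dif` of `Yz` is false since
`ls_inj` would give `m + 1 ≤ m`; the second is true; `ls_inj`, `es_prefix`, `code_append_inj`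
(`bas P y = code 0 P.e y`) and `es_inj` show that the chosen pair is `(y, p)` (see
`Pa76659P.es_bas_inj`, `ph_code`).
`Xz_main`: `es (s0 N) p = s0 N ++ r` starts with `false` (`es_prefix`), so it is free
(`free_false`) and the first two `dif` are false (`ls ..` starts with `true`); `es_inj`. Length:
`es_length`, `(s0 N).length = N`.
`QQ_Xz`: `QQ_tr (s0 q.N) (kap t) (Xz ..) (fun p => x (p ++ [0]))` at `j = kap t`, `u = []`, and
`Pa76659P.tr_shift` (see `Dt_XA` in Pa76659P/Act.lean): `mA t N i` is the fan-in of `QQ_tr`.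
`T1_Xz`: `Pa76659P.tr_shift`, and `tr_congr` (Hier) with `W = 2 ^ (N * 2 ^ (kap t - 1))`: a path with
entries below `W` is valid for `bas P y` since `N * 2 ^ (kap t - 1) ≤ (bas P y).length`
(`Pa76659P.valid_of_lt`), and the name is at least as long as `bas P y` (`ls_length`, `es_length`).
`bas_len`: `code_length` and `P.he y.length`.
-/

set_option maxHeartbeats 4000000

namespace Pool.Agent.Lib.Pa76659I

open Pool.Agent.Lib.Pa76659 Pool.Agent.Lib.Pa76659.Hier Pool.Agent.Lib.Pa76659H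

variable {m : ℕ}

theorem kap_le {t : ℕ} (ht : t ≤ m) : kap t - 1 ≤ m := by
  unfold kap
  omega

theorem bas_len (P : Par m) (y : Str) : 2 ^ (m + 1) * Lz P y + 2 ≤ (bas P y).length := by
  have h := P.he y.length
  unfold bas Lz
  rw [code_length]
  omega

namespace ZBaseAux

theorem nmv_inj (P : Par m) {y y' : Str} {p p' : List ℕ} (hl : p.length = p'.length)
    (hv : Valid (bas P y) p) (hv' : Valid (bas P y') p') (h : nmv P y p = nmv P y' p') :
    y = y' ∧ p = p' := by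
  have h0 := (ls_inj h).2
  obtain ⟨r, hr⟩ := es_prefix (bas P y) p
  obtain ⟨r', hr'⟩ := es_prefix (bas P y') p'
  have h1 : code 0 P.e y ++ r = code 0 P.e y' ++ r' := by
    rw [← show bas P y = code 0 P.e y from rfl,
      ← show bas P y' = code 0 P.e y' from rfl, ← hr, ← hr', h0]
  have h2 := (code_append_inj h1).2
  subst h2
  exact ⟨rfl, es_inj _ _ _ hl hv hv' h0⟩

theorem nmv_not_lane (P : Par m) (y : Str) (p : List ℕ) :
    ¬ ∃ a : ℕ × Str, 1 ≤ a.1 ∧ a.1 ≤ m ∧ nmv P y p = ls a.1 a.2 := by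
  rintro ⟨a, _, h2, h3⟩
  have := (ls_inj h3).1
  omega

theorem false_not_ls (v : Str) (s : ℕ) (w : Str) : false :: v ≠ ls s w := by
  unfold ls
  simp

theorem Yz_lane (P : Par m) (t N E : ℕ) (x : List ℕ → Bool) {s : ℕ}
    (h1 : 1 ≤ s) (hs : s ≤ m) (w : Str) : Yz P t N E x (ls s w) = SZ P t N E s w := by
  have h : ∃ a : ℕ × Str, 1 ≤ a.1 ∧ a.1 ≤ m ∧ ls s w = ls a.1 a.2 := ⟨(s, w), h1, hs, rfl⟩
  unfold Yz
  rw [dif_pos h]
  obtain ⟨_, _, h4⟩ := h.choose_spec
  obtain ⟨h5, h6⟩ := ls_inj h4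
  rw [← h5, ← h6]

theorem Yz_name (P : Par m) (t N E : ℕ) (x : List ℕ → Bool) (y : Str) (p : List ℕ)
    (hp : p.length = jj t) (hv : Valid (bas P y) p) :
    Yz P t N E x (nmv P y p) = x (p ++ [Pa76659P.rk y]) := by
  have h : ∃ a : Str × List ℕ, a.2.length = jj t ∧ Valid (bas P a.1) a.2 ∧
      nmv P y p = nmv P a.1 a.2 := ⟨(y, p), hp, hv, rfl⟩
  unfold Yz
  rw [dif_neg (nmv_not_lane P y p), dif_pos h]
  obtain ⟨h2, h3, h4⟩ := h.choose_spec
  obtain ⟨h5, h6⟩ := nmv_inj P (hp.trans h2.symm) hv h3 h4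
  rw [← h5, ← h6]

theorem es_s0 (N : ℕ) (p : List ℕ) : ∃ r, es (s0 N) p = false :: r := by
  obtain ⟨r, hr⟩ := es_prefix (s0 N) p
  exact ⟨List.replicate (N - 1) false ++ r, by rw [hr]; rfl⟩

theorem Yz_main (P : Par m) (t N E : ℕ) (x : List ℕ → Bool)
    (p : List ℕ) (hp : p.length = kap t) (hv : Valid (s0 N) p) :
    Yz P t N E x (es (s0 N) p) = x (p ++ [0]) := by
  obtain ⟨r, hr⟩ := es_s0 N p
  have n1 : ¬ ∃ a : ℕ × Str, 1 ≤ a.1 ∧ a.1 ≤ m ∧ es (s0 N) p = ls a.1 a.2 := by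
    rintro ⟨a, _, _, h3⟩
    rw [hr] at h3
    exact false_not_ls _ _ _ h3
  have n2 : ¬ ∃ a : Str × List ℕ, a.2.length = jj t ∧ Valid (bas P a.1) a.2 ∧
      es (s0 N) p = nmv P a.1 a.2 := by
    rintro ⟨a, _, _, h3⟩
    rw [hr] at h3
    exact false_not_ls _ _ _ h3
  have h : ∃ p' : List ℕ, p'.length = kap t ∧ Valid (s0 N) p' ∧ es (s0 N) p = es (s0 N) p' :=
    ⟨p, hp, hv, rfl⟩
  unfold Yz
  rw [dif_neg n1, dif_neg n2, dif_pos h]
  obtain ⟨h2, h3, h4⟩ := h.choose_spec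
  rw [← es_inj _ _ _ (hp.trans h2.symm) hv h3 h4]

theorem s0_length {N : ℕ} (hN : 1 ≤ N) : (s0 N).length = N := by
  unfold s0
  simp only [List.length_cons, List.length_replicate]
  omega

end ZBaseAux

open ZBaseAux

theorem Xz_mem (P : Par m) (t E : ℕ) {q : Cnd} (hq : WF' P q) (x : List ℕ → Bool) :
    Mem q (Xz P t E q x) :=
  Phi_mem hq.wf _ _ (fun c _ x T h => by simp at h) 0 (fun _ _ _ _ => rfl)

theorem Xz_lane (P : Par m) (t E : ℕ) {q : Cnd} (x : List ℕ → Bool) {s : ℕ}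
    (h1 : 1 ≤ s) (hs : s ≤ m) (w : Str) (hw : q.N ≤ (ls s w).length) :
    Xz P t E q x (ls s w) = SZ P t q.N E s w := by
  unfold Xz
  rw [Phi_free q _ _ _ hw (ls_free q s w)]
  exact Yz_lane P t q.N E x h1 hs w

theorem Xz_name (P : Par m) (t E : ℕ) {q : Cnd} (x : List ℕ → Bool) (y : Str) (p : List ℕ)
    (hp : p.length = jj t) (hv : Valid (bas P y) p) (hw : q.N ≤ (nmv P y p).length) :
    Xz P t E q x (nmv P y p) = x (p ++ [Pa76659P.rk y]) := by
  unfold Xz
  rw [Phi_free q _ _ _ hw (ls_free q (m + 1) (es (bas P y) p))]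
  exact Yz_name P t q.N E x y p hp hv

theorem Xz_main (P : Par m) (t E : ℕ) {q : Cnd} (hN : 1 ≤ q.N) (x : List ℕ → Bool)
    (p : List ℕ) (hp : p.length = kap t) (hv : Valid (s0 q.N) p) :
    Xz P t E q x (es (s0 q.N) p) = x (p ++ [0]) := by
  have hlen : q.N ≤ (es (s0 q.N) p).length := by
    rw [es_length, s0_length hN]
    exact Nat.le_mul_of_pos_right _ (by positivity)
  have hfree : Free q (es (s0 q.N) p) := by
    obtain ⟨r, hr⟩ := es_s0 q.N p
    rw [hr]
    exact free_false q r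
  unfold Xz
  rw [Phi_free q _ _ _ hlen hfree]
  exact Yz_main P t q.N E x p hp hv

theorem QQ_Xz (P : Par m) (t E : ℕ) {q : Cnd} (hN : 1 ≤ q.N) (x : List ℕ → Bool) :
    QQ (kap t) (Xz P t E q x) (s0 q.N) = tr (mA t q.N) (kap t) x [0] := by
  have h1 := QQ_tr (s0 q.N) (kap t) (Xz P t E q x)
    (fun p => x (p ++ [0])) (by
      intro u hu hv
      exact Xz_main P t E hN x u hu hv) (kap t) [] (by simp) trivial
  have h2 := Pa76659P.tr_shift (mA t q.N) [0] (kap t) x []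
  rw [List.nil_append] at h2
  rw [h2]
  simp only [es] at h1
  rw [h1, s0_length hN]
  rfl

theorem T1_Xz (P : Par m) {t : ℕ} (ht1 : 1 ≤ t) (ht : t ≤ m) (E : ℕ) {q : Cnd}
    (x : List ℕ → Bool) (y : Str) (hy : q.N ≤ Lz P y) :
    T1 P t q.N y (Xz P t E q x) = tr (mA t q.N) (jj t) x [Pa76659P.rk y] := by
  have h2 := Pa76659P.tr_shift (mA t q.N) [Pa76659P.rk y] (jj t) x []
  rw [List.nil_append] at h2
  rw [h2]
  unfold T1
  have hb := bas_len P y
  apply tr_congr (mA t q.N) (2 ^ (q.N * 2 ^ (kap t - 1)))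
  · intro i _
    unfold mA
    apply Nat.pow_le_pow_right (by norm_num)
    apply Nat.mul_le_mul_left
    apply Nat.pow_le_pow_right (by norm_num)
    omega
  · simp
  · intro v hv hv2
    have hlen : v.length = jj t := by simpa using hv
    have h3 : q.N * 2 ^ (kap t - 1) ≤ Lz P y * 2 ^ (m + 1) := by
      apply Nat.mul_le_mul hy
      apply Nat.pow_le_pow_right (by norm_num)
      have := kap_le ht
      omega
    have h5 : 2 ^ (m + 1) * Lz P y = Lz P y * 2 ^ (m + 1) := by ring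
    have hval : Valid (bas P y) v := by
      apply Pa76659P.valid_of_lt
      intro a ha
      refine (hv2 a ha).trans_le (Nat.pow_le_pow_right (by norm_num) ?_)
      omega
    have h6 : q.N ≤ (nmv P y v).length := by
      unfold nmv
      rw [ls_length, es_length]
      have h7 : (bas P y).length ≤ (bas P y).length * 2 ^ v.length :=
        Nat.le_mul_of_pos_right _ (by positivity)
      have h8 : Lz P y ≤ 2 ^ (m + 1) * Lz P y := Nat.le_mul_of_pos_left _ (by positivity)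
      omega
    exact Xz_name P t E x y v hlen hval h6

/-- the bits which are neither lanes, names, nor main are constant -/
theorem Yz_cases (P : Par m) (t N E : ℕ) (v : Str) : (∃ b, ∀ x, Yz P t N E x v = b) ∨
    (∃ (y : Str) (p : List ℕ), p.length = jj t ∧ Valid (bas P y) p ∧ v = nmv P y p ∧
      ∀ x, Yz P t N E x v = x (p ++ [Pa76659P.rk y])) ∨
    ∃ p : List ℕ, ∀ x, Yz P t N E x v = x (p ++ [0]) := by
  by_cases h1 : ∃ a : ℕ × Str, 1 ≤ a.1 ∧ a.1 ≤ m ∧ v = ls a.1 a.2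
  · left
    obtain ⟨a, h2, h3, rfl⟩ := h1
    exact ⟨_, fun x => Yz_lane P t N E x h2 h3 a.2⟩
  by_cases h2 : ∃ a : Str × List ℕ, a.2.length = jj t ∧ Valid (bas P a.1) a.2 ∧
      v = nmv P a.1 a.2
  · right; left
    obtain ⟨a, h3, h4, rfl⟩ := h2
    exact ⟨a.1, a.2, h3, h4, rfl, fun x => Yz_name P t N E x a.1 a.2 h3 h4⟩
  by_cases h3 : ∃ p : List ℕ, p.length = kap t ∧ Valid (s0 N) p ∧ v = es (s0 N) p
  · right; right
    obtain ⟨p, h4, h5, rfl⟩ := h3
    exact ⟨p, fun x => Yz_main P t N E x p h4 h5⟩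
  · left
    refine ⟨false, fun x => ?_⟩
    unfold Yz
    rw [dif_neg h1, dif_neg h2, dif_neg h3]

end Pool.Agent.Lib.Pa76659I
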