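import Pool.Agent.Lib.Pa76659I.ZRule

/-!
# Pa76659I.ZDT: in a zone all short bits of the oracle of the machines are decision trees of depth 2

PROOFS. `W_dt`: if `s + 6 + 2 * u.length < q.N`: `W s (Xz x) u = W s q.σ u` (`W_congr`, `Xz_mem`), a
leaf. Otherwise `W_Xz` gives `LT P.B s (RDz ..) u (Xz x)`. If `u` is not a leaf string this is
`false`. If `u = es (code 0 P.B ζ) p` (`LT_leaf`; `p.length = jj s`): `ζ.length < u.length < E`
(`code_length`, `es_length`). `lf` is a constant or:
 - `s = t`, `ζ` active: `Xz x (nmv P y p)`, `y = yv t false (bof ζ) (zof t ζ)`; the path satisfies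
   `VP (mA t q.N) 0 p` (`nb_none`), so it is valid for `bas P y` (`Pa76659P.valid_of_lt`, `bas_len`,
   `ζ.length ≤ y.length`; all entries are `< 2 ^ (N * 2 ^ (kap t - 1))`), and the name is longer than
   `q.N`: `Xz_name` gives `x (p ++ [rk y])`: a node.
 - `s = m ≠ t`, `ζ` active: `decD ..` is `IsC (nms P t ζ) w 2 0`: a decision tree of depth ≤ 2 with
   queries in `nms`, each of which is a bit `x (p ++ [rk y])` by `Xz_name` (`DT.subst`).
 - not active: since `ζ.length < E` this means `Lz P ζ < q.N` or (`s` even and `ζ = []`): in the first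
   case the leaf function of `RDc` is `IsC (SL (Lz P ζ)) .. 1` (`Pa76659P.Wd.decG_isC`), so its value
   is the one for `q.σ` (`IsC.eval_congr`). For `ζ = []` and `s` even: `ctr s [] = fun _ => false`, but
   the leaf functions read strings of length `≤ Lz P []`: here we need `hE : Lz P [] < q.N`.

`Xz_dt`: `v.length < q.N`: constant `q.σ v`. Free `v`: `Phi_free`, `Yz_cases`. A table string
`v = tab c.j c.B y w t1 t2`, `c ∈ q.cols`: `Phi_tab`: `t1 && (t2 || nEval c.i (Xz x) y)`, `hq.ci`
gives `W m (Xz x) y`, `y.length < v.length < E` (`tab_length`, or `tl_le`, `tl_large`), and `W_dt` with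
`s = m` (`DT.map`).

`mach_isC`: `IsC.subst` with `sub v` the decision tree of the bit `v` of `join (Xz x) (W t (Xz x))`:
`[]` is `false`, `false :: v` by `Xz_dt`, `true :: u` by `W_dt` with `s = t`; for `S = SL M`,
`M < E`. Result: bottom depth `T * 2`.
-/

set_option maxHeartbeats 4000000

namespace Pool.Agent.Lib.Pa76659I

open Pool.Agent.Lib.Pa76659 Pool.Agent.Lib.Pa76659.Hier Pool.Agent.Lib.Pa76659H

variable {m : ℕ}

namespace ZDTAux

/-- a single query -/
def qry (p : List ℕ) : DT (List ℕ) Bool := DT.node p (DT.leaf false) (DT.leaf true)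

theorem qry_eval (p : List ℕ) (x : List ℕ → Bool) : (qry p).eval x = x p := by
  simp only [qry, DT.eval]
  cases x p <;> simp

theorem qry_depth (p : List ℕ) : (qry p).depth ≤ 1 := by
  simp [qry, DT.depth]

theorem qin_univ {V α : Type*} : ∀ T : DT V α, T.QIn Set.univ
  | DT.leaf _ => trivial
  | DT.node _ f t => ⟨Set.mem_univ _, qin_univ f, qin_univ t⟩

theorem vp_lt (mm : ℕ → ℕ) (K : ℕ) (hK : ∀ i, mm i ≤ K) : ∀ (h : ℕ) (u : List ℕ), VP mm h u →
    ∀ a ∈ u, a < K
  | _, [], _ => by simp
  | h, b :: u, hu => by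
      intro a ha
      rcases List.mem_cons.1 ha with rfl | ha
      · exact lt_of_lt_of_le hu.1 (hK h)
      · exact vp_lt mm K hK (h + 1) u hu.2 a ha

theorem name_len (P : Par m) {N : ℕ} (ζ y : Str) (p : List ℕ) (hN : N ≤ Lz P ζ)
    (hy : ζ.length ≤ y.length) : N ≤ (nmv P y p).length := by
  have h1 := bas_len P y
  have h2 := Lz_mono P hy
  unfold nmv
  rw [ls_length, es_length]
  have h3 : (bas P y).length ≤ (bas P y).length * 2 ^ p.length :=
    Nat.le_mul_of_pos_right _ (by positivity)
  have h4 : Lz P y ≤ 2 ^ (m + 1) * Lz P y := Nat.le_mul_of_pos_left _ (by positivity)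
  omega

theorem yv_len_t (t : ℕ) (ζ : Str) :
    ζ.length ≤ (yv t false (bof ζ) (zof t ζ)).length := by
  unfold yv zof
  by_cases h : t % 2 = 0
  · rw [if_pos h, if_pos h]
    simp only [List.length_cons, List.length_tail]
    omega
  · rw [if_neg h, if_neg h]
    simp only [List.length_cons]
    omega

theorem yv_len_m (t s : ℕ) (b : Bool) (ζ : Str) :
    ζ.length ≤ (yv t true b (zof s ζ)).length := by
  have h1 : ζ.length ≤ (zof s ζ).length + 1 := by
    unfold zof
    split_ifs
    · simp only [List.length_tail]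
      omega
    · omega
  unfold yv
  split_ifs
  · simp only [List.length_cons]
    omega
  · simp only [List.length_cons]
    omega

end ZDTAux

open ZDTAux

theorem W_dt (P : Par m) {t : ℕ} (ht1 : 1 ≤ t) (ht : t ≤ m) (E : ℕ) {q : Cnd} (hq : WF' P q)
    (hE : Lz P [] < q.N) {s : ℕ} (hs : s = t ∨ s = m) (u : Str) (hu : u.length < E) :
    ∃ D : DT (List ℕ) Bool, D.depth ≤ 2 ∧ ∀ x, W s (Xz P t E q x) u = D.eval x := by
  classical
  have hlow : ∀ (x : List ℕ → Bool) (v : Str), v.length < q.N → Xz P t E q x v = q.σ v :=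
    fun x v hv => (Xz_mem P t E hq x).1 v hv
  have hs1 : 1 ≤ s := by rcases hs with rfl | rfl <;> omega
  have hsm : s ≤ m := by rcases hs with rfl | rfl <;> omega
  by_cases hN : s + 6 + 2 * u.length < q.N
  · refine ⟨DT.leaf (W s q.σ u), by simp [DT.depth], fun x => ?_⟩
    exact W_congr s _ _ u (fun v hv => hlow x v (by omega))
  push Not at hN
  have hW := fun x => W_Xz P ht1 ht E (q := q) x hs1 hsm u hN
  by_cases hleaf : ∃ a : Str × List ℕ, a.2.length = jj s ∧ Valid (code 0 P.B a.1) a.2 ∧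
      es (code 0 P.B a.1) a.2 = u
  swap
  · refine ⟨DT.leaf false, by simp [DT.depth], fun x => ?_⟩
    rw [hW x]
    unfold LT
    rw [dif_neg hleaf]
    rfl
  obtain ⟨⟨ζ, p⟩, hp, hv, rfl⟩ := hleaf
  simp only at hp hv hu hN hW ⊢
  have hLT := LT_leaf P.B s (RDz P t q.N E s) ζ p hp hv
  simp only [hLT] at hW
  simp only [hW]
  -- the root is short
  have hζ : ζ.length < E := by
    rw [es_length, code_length] at hu
    have h1 : 0 + 3 + (ζ.length + 2) ^ 2 ^ P.B + ζ.length ≤
        (0 + 3 + (ζ.length + 2) ^ 2 ^ P.B + ζ.length) * 2 ^ p.length :=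
      Nat.le_mul_of_pos_right _ (by positivity)
    omega
  unfold lf
  cases hnb : nb (RDz P t q.N E s ζ).mm 0 p with
  | some b => exact ⟨DT.leaf b, by simp [DT.depth], fun x => rfl⟩
  | none =>
    simp only
    by_cases hcond : act P q.N E ζ ∧ ¬ (s % 2 = 0 ∧ ζ = []) ∧ (s = t ∨ s = m)
    · have hact := hcond.1.1
      by_cases hst : s = t
      · -- literals of lane `t`
        have hR : RDz P t q.N E s ζ =
            ⟨mA t q.N, fun p X => X (nmv P (yv t false (bof ζ) (zof s ζ)) p)⟩ := by
          unfold RDz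
          rw [if_pos hcond, if_pos hst]
        rw [hR] at hnb ⊢
        subst hst
        set y := yv s false (bof ζ) (zof s ζ) with hy
        have hyl : ζ.length ≤ y.length := yv_len_t s ζ
        refine ⟨qry (p ++ [Pa76659P.rk y]), (qry_depth _).trans (by norm_num), fun x => ?_⟩
        rw [qry_eval]
        apply Xz_name P s E x y p hp _ (name_len P ζ y p hact hyl)
        apply Pa76659P.valid_of_lt
        have hVP := (nb_none _ 0 p).1 hnb
        intro a ha
        apply vp_lt (mA s q.N) _ _ 0 p hVP a ha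
        intro i
        unfold mA
        apply Nat.pow_le_pow_right (by norm_num)
        have h1 := bas_len P y
        have h2 := Lz_mono P hyl
        have h3 := kap_le ht
        have h4 : 2 ^ (kap s - 1 - i) ≤ 2 ^ (m + 1) := Nat.pow_le_pow_right (by norm_num) (by omega)
        have h5 : q.N * 2 ^ (kap s - 1 - i) ≤ Lz P y * 2 ^ (m + 1) :=
          Nat.mul_le_mul (hact.trans h2) h4
        have h6 : Lz P y * 2 ^ (m + 1) = 2 ^ (m + 1) * Lz P y := Nat.mul_comm _ _
        omega
      · -- lane `m`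
        have hsm' : s = m := hs.resolve_left hst
        have hR : RDz P t q.N E s ζ = ⟨fun _ => 2 ^ (2 * (Lz P ζ * 2 ^ m + 3)),
            decD (nms P t ζ) (jj m) (2 * (Lz P ζ * 2 ^ m + 3)) 2 (fd P t q.N ζ)⟩ := by
          unfold RDz
          rw [if_pos hcond, if_neg hst]
        rw [hR]
        obtain ⟨T, hT1, hT2, hT3⟩ := decD_isC (nms P t ζ) (jj m) (2 * (Lz P ζ * 2 ^ m + 3)) 2
          (fd P t q.N ζ) p
        have hnm : ∀ v ∈ nms P t ζ, ∃ l : List ℕ, ∀ x, Xz P t E q x v = x l := by
          rintro v ⟨b, p', hp', hv', rfl⟩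
          refine ⟨p' ++ [Pa76659P.rk (yv t true b (zof m ζ))], fun x => ?_⟩
          exact Xz_name P t E x _ p' hp' hv'
            (name_len P ζ _ p' hact (yv_len_m t m b ζ))
        let sub : Str → DT (List ℕ) Bool := fun v =>
          if h : v ∈ nms P t ζ then qry (hnm v h).choose else DT.leaf false
        have hsub1 : ∀ v ∈ nms P t ζ, (sub v).depth ≤ 1 := by
          intro v hv
          simp only [sub]
          rw [dif_pos hv]
          exact qry_depth _
        refine ⟨T.subst sub, ?_, fun x => ?_⟩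
        · have := DT.depth_subst sub (nms P t ζ) 1 hsub1 T hT2
          omega
        · rw [DT.eval_subst]
          show decD (nms P t ζ) (jj m) (2 * (Lz P ζ * 2 ^ m + 3)) 2 (fd P t q.N ζ) p _ = _
          rw [hT3]
          apply DT.eval_congr _ hT2
          intro v hv
          simp only [sub]
          rw [dif_pos hv, qry_eval]
          exact (hnm v hv).choose_spec x
    · -- complete mode, short content
      have hR : RDz P t q.N E s ζ = RDc P s ζ := by
        unfold RDz
        rw [if_neg hcond]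
      have hL : Lz P ζ < q.N := by
        by_contra hcon
        push Not at hcon
        apply hcond
        refine ⟨⟨hcon, hζ⟩, ?_, hs⟩
        rintro ⟨-, rfl⟩
        omega
      rw [hR]
      have hC := Pa76659P.Wd.decG_isC (jj s) (Lz P ζ) (ctr s ζ) p
      refine ⟨DT.leaf (Pa76659P.Wd.decG (jj s) (Lz P ζ) (ctr s ζ) p q.σ), by simp [DT.depth],
        fun x => ?_⟩
      show Pa76659P.Wd.decG (jj s) (Lz P ζ) (ctr s ζ) p (Xz P t E q x) = _
      refine IsC.eval_congr (x := Xz P t E q x) (y := q.σ) ?_ hC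
      intro v hv
      exact hlow x v (lt_of_le_of_lt hv hL)

theorem Xz_dt (P : Par m) {t : ℕ} (ht1 : 1 ≤ t) (ht : t ≤ m) (E : ℕ) {q : Cnd} (hq : WF' P q)
    (hE : Lz P [] < q.N) (v : Str) (hv : v.length < E) :
    ∃ D : DT (List ℕ) Bool, D.depth ≤ 2 ∧ ∀ x, Xz P t E q x v = D.eval x := by
  classical
  by_cases hN : v.length < q.N
  · exact ⟨DT.leaf (q.σ v), by simp [DT.depth], fun x => (Xz_mem P t E hq x).1 v hN⟩
  push Not at hN
  by_cases hf : Pa76659H.Free q v
  · have h1 : ∀ x, Xz P t E q x v = Yz P t q.N E x v := fun x => by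
      unfold Xz
      exact Phi_free q _ _ v hN hf
    simp only [h1]
    rcases Yz_cases P t q.N E v with ⟨b, hb⟩ | ⟨y, p, _, _, _, h⟩ | ⟨p, h⟩
    · exact ⟨DT.leaf b, by simp [DT.depth], fun x => hb x⟩
    · exact ⟨qry _, (qry_depth _).trans (by norm_num), fun x => by rw [h, qry_eval]⟩
    · exact ⟨qry _, (qry_depth _).trans (by norm_num), fun x => by rw [h, qry_eval]⟩
  · unfold Pa76659H.Free at hf
    push Not at hf
    obtain ⟨c, hc, y, w, t1, t2, rfl⟩ := hf
    have hyl : y.length < E := by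
      rw [tab_length] at hv
      omega
    obtain ⟨D, hD1, hD2⟩ := W_dt P ht1 ht E hq hE (Or.inr rfl : m = t ∨ m = m) y hyl
    refine ⟨D.map (fun b => t1 && (t2 || b)), by simpa using hD1, fun x => ?_⟩
    rw [DT.eval_map, ← hD2 x, ← hq.ci c hc]
    exact Phi_tab hq.wf (fun _ _ => none) (Yz P t q.N E x) hc y w t1 t2 hN

theorem mach_isC (P : Par m) {t : ℕ} (ht1 : 1 ≤ t) (ht : t ≤ m) (E : ℕ) {q : Cnd}
    (hq : WF' P q) (hE : Lz P [] < q.N) {M w T k : ℕ} (hM : M < E) {f : Lang → Bool}
    (hf : IsC (SL M) w T k f) :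
    IsC Set.univ w (T * 2) k
      (fun x : List ℕ → Bool => f (join (Xz P t E q x) (W t (Xz P t E q x)))) := by
  classical
  have key : ∀ v : Str, ∃ D : DT (List ℕ) Bool, v ∈ SL M → D.depth ≤ 2 ∧
      ∀ x, join (Xz P t E q x) (W t (Xz P t E q x)) v = D.eval x := by
    intro v
    by_cases hv : v ∈ SL M
    · have hv' : v.length ≤ M := hv
      rcases v with _ | ⟨b, u⟩
      · exact ⟨DT.leaf false, fun _ => ⟨by simp [DT.depth], fun x => rfl⟩⟩
      · simp only [List.length_cons] at hv'
        cases b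
        · obtain ⟨D, h1, h2⟩ := Xz_dt P ht1 ht E hq hE u (by omega)
          exact ⟨D, fun _ => ⟨h1, fun x => h2 x⟩⟩
        · obtain ⟨D, h1, h2⟩ := W_dt P ht1 ht E hq hE (Or.inl rfl : t = t ∨ t = m) u (by omega)
          exact ⟨D, fun _ => ⟨h1, fun x => h2 x⟩⟩
    · exact ⟨DT.leaf false, fun h => absurd h hv⟩
  choose sub hsub using key
  have h1 := hf.subst (S' := Set.univ) (d := 2) sub (fun v hv => (hsub v hv).1)
    (fun v _ => qin_univ _)
  refine h1.congr (fun x => ?_)
  exact IsC.eval_congr (fun v hv => ((hsub v hv).2 x).symm) hf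

end Pool.Agent.Lib.Pa76659I
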