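import Pool.Agent.Lib.Pa76659I.ZBase

/-!
# Pa76659I.ZEnc: the lane tables of a zone exist

PROOFS. `exists_dec0`: induction on `k`, the proof of `Pa76659P.exists_dec` (Pa76659P/Cpx.lean) with
base case level 0. `decD_isC`, `decD_spec`: `unfold decD; dif_pos` (see `decG_isC`, `decG_spec` in
Pa76659P/Win.lean).

`T1_isC`: `Pa76659P.tr_isC (mA t N) (fun p => nmv P y p) (jj t) [] ` with
`w = L * 2 ^ m`, `L = Lz P ζ`, `N ≤ L`: `mA t N i ≤ 2 ^ (N * 2 ^ (kap t - 1)) ≤ 2 ^ (L * 2 ^ m)`. The
path `p` with entries `< 2 ^ w` must be valid for `bas P y` : `w ≤ 2 ^ (m + 1) * Lz P y ≤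
(bas P y).length` (`bas_len`, `Lz P ζ ≤ Lz P y` by `ζ.length ≤ y.length`), `Pa76659P.valid_of_lt`.

`fd_isC`: if `m % 2 = 0 ∧ bof ζ = true`: `IsC.const`. Otherwise `fd .. X = FT P t N true (zof m ζ) X`.
The family strings `y = yv t true b (zof m ζ)` satisfy `ζ.length ≤ y.length`
(`(zof m ζ).length + 1 ≥ ζ.length`). `t` odd: one tree, level `jj t ≤ jj m` (`IsC.lift_le`,
`IsC.mono`). `t` even: `xor` of two trees: `IsC.dtree` with the decision tree of depth 2 on `Bool`
(`DT.node false (DT.node true (leaf false) (leaf true)) (DT.node true (leaf true) (leaf false))`),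
level `jj t + 1 ≤ jj m` because `t < m` and `t` is even; `w' = 2 * (L * 2 ^ m + 3)`, depth `2 * 1`.

`nms_len`: `ls_length`, `es_length`, `code_length`, `y.length ≤ ζ.length + 2`, `jj t ≤ m`.

`enc_LTz`: if `x` is not a leaf: `enc_false`. Otherwise `x = es (code 0 P.B ζ) p` and the target is
`lf (RDz P t N E s ζ) p`: a constant, or
 - the literal `fun X => X (nmv P y p)` (`s = t`; `IsC (SL nl) 0 1 1`: a node, `IsC.lift`; the name has
   length at most `nl m P.e ζ.length`; here `y.length ≤ ζ.length + 2`, `p.length = jj t ≤ m`),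
 - `decD .. p`, `IsC (nms ..) w 2 0` by `decD_isC` (`IsC.mono` with `nms_len`, `IsC.lift`),
 - a leaf function of `RDc` (`enc_lf_RDc`, or its proof).
`Pa76659P.exists_enc` needs `w + t + 1 + t * (3 * M + 3) ≤ x.length`; all three follow from
`need_le P ζ` and `(code 0 P.B ζ).length ≤ x.length`.
-/

set_option maxHeartbeats 4000000

namespace Pool.Agent.Lib.Pa76659I

open Pool.Agent.Lib.Pa76659 Pool.Agent.Lib.Pa76659.Hier Pool.Agent.Lib.Pa76659H

variable {m : ℕ}

theorem exists_dec0 {V : Type} {S : Set V} {w t : ℕ} (k : ℕ) {f : (V → Bool) → Bool}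
    (hf : IsC S w t k f) : ∃ g : List ℕ → (V → Bool) → Bool, (∀ p, IsC S w t 0 (g p)) ∧
      ∀ Y, f Y = tr (fun _ => 2 ^ w) k (fun p => g p Y) [] := by
  induction k generalizing f with
  | zero => exact ⟨fun _ => f, fun _ => hf, fun Y => rfl⟩
  | succ k ih =>
      classical
      obtain ⟨h, h1, h2⟩ := hf
      choose g hg1 hg2 using fun i => ih (h1 i)
      have h2pos : 0 < 2 ^ w := by positivity
      let lastI : List ℕ → Fin (2 ^ w) := fun p =>
        if hh : p.getLast?.getD 0 < 2 ^ w then ⟨_, hh⟩ else ⟨0, h2pos⟩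
      refine ⟨fun p => g (lastI p) p.dropLast, fun p => hg1 _ _, fun Y => ?_⟩
      have key : ∀ y (hy : y < 2 ^ w), tr (fun _ => 2 ^ w) k
          (fun p => g (lastI p) p.dropLast Y) [y] = h ⟨y, hy⟩ Y := by
        intro y hy
        have e := Pa76659P.tr_shift (fun _ => 2 ^ w) [y] k
          (fun p => g (lastI p) p.dropLast Y) []
        rw [List.nil_append] at e
        rw [e, hg2]
        congr 1
        funext p
        have e1 : lastI (p ++ [y]) = ⟨y, hy⟩ := by
          simp only [lastI, List.getLast?_append, List.getLast?_singleton, Option.some_or,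
            Option.getD_some]
          rw [dif_pos hy]
        rw [e1, List.dropLast_concat]
      have h3 : f Y = true ↔ tr (fun _ => 2 ^ w) (k + 1)
          (fun p => g (lastI p) p.dropLast Y) [] = true := by
        rw [h2, tr, decide_eq_true_eq]
        constructor
        · rintro ⟨j, hj⟩
          exact ⟨j.1, j.2, by rw [key j.1 j.2]; exact hj⟩
        · rintro ⟨y, hy, hy2⟩
          exact ⟨⟨y, hy⟩, by rw [← key y hy]; exact hy2⟩
      cases h4 : f Y <;> cases h5 : tr (fun _ => 2 ^ w) (k + 1)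
          (fun p => g (lastI p) p.dropLast Y) [] <;> simp_all

theorem decD_isC (S : Set Str) (k w T : ℕ) (f : Lang → Bool) (p : List ℕ) :
    IsC S w T 0 (decD S k w T f p) := by
  unfold decD
  split_ifs with h
  · exact h.choose_spec.1 p
  · exact IsC.const _ _ _ _ _

theorem decD_spec {S : Set Str} {k w T : ℕ} {f : Lang → Bool} (h : IsC S w T k f) (Y : Lang) :
    f Y = tr (fun _ => 2 ^ w) k (fun p => decD S k w T f p Y) [] := by
  have h1 := exists_dec0 k h
  unfold decD
  rw [dif_pos h1]
  exact h1.choose_spec.2 Y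

namespace ZEncAux

theorem zof_le (s : ℕ) (ζ : Str) : (zof s ζ).length ≤ ζ.length := by
  unfold zof
  split_ifs
  · rw [List.length_tail]; omega
  · exact le_rfl

theorem le_zof (s : ℕ) (ζ : Str) : ζ.length ≤ (zof s ζ).length + 1 := by
  unfold zof
  split_ifs
  · rw [List.length_tail]; omega
  · omega

theorem yv_le (t : ℕ) (f b : Bool) (z : Str) : (yv t f b z).length ≤ z.length + 2 := by
  unfold yv
  split_ifs <;> simp

theorem le_yv (t : ℕ) (f b : Bool) (z : Str) : z.length + 1 ≤ (yv t f b z).length := by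
  unfold yv
  split_ifs <;> simp

theorem nmv_len (P : Par m) {y : Str} {n : ℕ} (hy : y.length ≤ n + 2) {p : List ℕ}
    (hp : p.length ≤ m) : (nmv P y p).length ≤ nl m P.e n := by
  unfold nmv nl
  rw [ls_length, es_length]
  have h1 : (bas P y).length ≤ 3 + (n + 4) ^ (2 ^ P.e) + (n + 2) := by
    unfold bas
    rw [code_length]
    have h2 : (y.length + 2) ^ (2 ^ P.e) ≤ (n + 4) ^ (2 ^ P.e) :=
      Nat.pow_le_pow_left (by omega) _
    omega
  have h3 : 2 ^ p.length ≤ 2 ^ m := Nat.pow_le_pow_right (by norm_num) hp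
  have h4 := Nat.mul_le_mul h1 h3
  omega

theorem T1_isC (P : Par m) {t : ℕ} (htm : t < m) {N : ℕ} (ζ : Str) (hN : N ≤ Lz P ζ)
    (b : Bool) :
    IsC (nms P t ζ) (Lz P ζ * 2 ^ m) 1 (jj t) (T1 P t N (yv t true b (zof m ζ))) := by
  have hkap : ∀ i, kap t - 1 - i ≤ m := by
    intro i
    unfold kap
    omega
  have h := Pa76659P.tr_isC (S := nms P t ζ) (w := Lz P ζ * 2 ^ m) (mA t N)
    (fun p => nmv P (yv t true b (zof m ζ)) p) (jj t) [] (by
      intro i _
      unfold mA
      apply Nat.pow_le_pow_right (by norm_num)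
      exact Nat.mul_le_mul hN (Nat.pow_le_pow_right (by norm_num) (hkap i))) (by simp) (by
      intro p hp hp2
      refine ⟨b, p, by simpa using hp, ?_, rfl⟩
      apply Pa76659P.valid_of_lt
      intro a ha
      refine (hp2 a ha).trans_le (Nat.pow_le_pow_right (by norm_num) ?_)
      have h1 := bas_len P (yv t true b (zof m ζ))
      have h2 : Lz P ζ ≤ Lz P (yv t true b (zof m ζ)) :=
        Lz_mono P ((le_zof m ζ).trans (le_yv t true b (zof m ζ)))
      have h3 : 2 ^ m * Lz P ζ ≤ 2 ^ (m + 1) * Lz P (yv t true b (zof m ζ)) :=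
        Nat.mul_le_mul (Nat.pow_le_pow_right (by norm_num) (by omega)) h2
      rw [mul_comm]
      omega)
  exact h

/-- decision tree of the exclusive or -/
def xorT : DT Bool Bool :=
  DT.node false (DT.node true (DT.leaf false) (DT.leaf true))
    (DT.node true (DT.leaf true) (DT.leaf false))

theorem xorT_eval (h : Bool → Bool) : xorT.eval h = xor (h false) (h true) := by
  unfold xorT
  simp only [DT.eval]
  cases h false <;> cases h true <;> simp

end ZEncAux

open ZEncAux in
theorem fd_isC (P : Par m) {t : ℕ} (ht1 : 1 ≤ t) (htm : t < m) {N : ℕ} (ζ : Str)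
    (hN : N ≤ Lz P ζ) :
    IsC (nms P t ζ) (2 * (Lz P ζ * 2 ^ m + 3)) 2 (jj m) (fd P t N ζ) := by
  by_cases h1 : m % 2 = 0 ∧ bof ζ = true
  · refine (IsC.const _ _ _ _ false).congr fun X => ?_
    unfold fd
    rw [if_pos h1]
  · by_cases h2 : t % 2 = 0
    · have h3 := IsC.dtree (Set.univ : Set Bool)
        (fun b => T1 P t N (yv t true b (zof m ζ))) (fun b _ => T1_isC P htm ζ hN b) xorT
        ⟨Set.mem_univ _, ⟨Set.mem_univ _, trivial, trivial⟩, ⟨Set.mem_univ _, trivial, trivial⟩⟩
      have h4 : xorT.depth = 2 := by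
        unfold xorT
        simp [DT.depth]
      rw [h4] at h3
      have h5 : jj t + 1 ≤ jj m := by
        unfold jj
        omega
      refine (h3.lift_le h5).congr fun X => ?_
      unfold fd FT
      rw [if_neg h1, if_pos h2, xorT_eval]
    · have h5 : jj t ≤ jj m := by
        unfold jj
        omega
      have h3 := ((T1_isC P htm ζ hN false).lift_le h5).mono (subset_refl _)
        (w' := 2 * (Lz P ζ * 2 ^ m + 3)) (t' := 2) (by omega) (by omega)
      refine h3.congr fun X => ?_
      unfold fd FT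
      rw [if_neg h1, if_neg h2]

open ZEncAux in
theorem nms_len (P : Par m) {t : ℕ} (ht : t ≤ m) (ζ : Str) :
    nms P t ζ ⊆ SL (nl m P.e ζ.length) := by
  rintro v ⟨b, p, hp, _, rfl⟩
  apply nmv_len P
  · have h1 := yv_le t true b (zof m ζ)
    have h2 := zof_le m ζ
    omega
  · rw [hp]
    exact jj_le ht

namespace ZEncAux

theorem es_len_ge (P : Par m) (ζ : Str) (p : List ℕ) :
    need m P.b P.e ζ.length ≤ (es (code 0 P.B ζ) p).length := by
  have h := need_le P ζ
  rw [es_length]
  exact h.trans (Nat.le_mul_of_pos_right _ (by positivity))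

theorem enc_const (P : Par m) (ζ : Str) (p : List ℕ) (b : Bool) :
    ∃ T, Pa76659P.Enc 1 (fun _ => b) (es (code 0 P.B ζ) p) T := by
  apply Pa76659P.Wd.exists_enc_const 0
  have h := es_len_ge P ζ p
  unfold need at h
  omega

theorem enc_lf_RDz (P : Par m) {t : ℕ} (ht : t ≤ m) (N E : ℕ) {s : ℕ}
    (hs : s ≤ m) (ζ : Str) (p : List ℕ) (hp : p.length = jj s) :
    ∃ T, Pa76659P.Enc 1 (lf (RDz P t N E s ζ) p) (es (code 0 P.B ζ) p) T := by
  have hlen := es_len_ge P ζ p
  unfold need at hlen
  by_cases h1 : act P N E ζ ∧ ¬ (s % 2 = 0 ∧ ζ = []) ∧ (s = t ∨ s = m)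
  · by_cases h2 : s = t
    · have e : RDz P t N E s ζ =
          ⟨mA t N, fun p X => X (nmv P (yv t false (bof ζ) (zof s ζ)) p)⟩ := by
        unfold RDz
        rw [if_pos h1, if_pos h2]
      rw [e]
      unfold lf
      cases h3 : nb (mA t N) 0 p with
      | some b => exact enc_const P ζ p b
      | none =>
        have h4 : (nmv P (yv t false (bof ζ) (zof s ζ)) p).length ≤ nl m P.e ζ.length := by
          apply nmv_len P
          · have h1 := yv_le t false (bof ζ) (zof s ζ)
            have h2 := zof_le s ζ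
            omega
          · rw [hp]
            exact jj_le hs
        apply Pa76659P.exists_enc (m := nl m P.e ζ.length) (w := 0) (t := 1) (k := 0)
        · apply IsC.lift
          refine ⟨DT.node (nmv P (yv t false (bof ζ) (zof s ζ)) p) (DT.leaf false)
            (DT.leaf true), by simp [DT.depth], ⟨h4, trivial, trivial⟩, fun Y => ?_⟩
          simp only [DT.eval]
          cases Y (nmv P (yv t false (bof ζ) (zof s ζ)) p) <;> rfl
        · omega
    · have e : RDz P t N E s ζ = ⟨fun _ => 2 ^ (2 * (Lz P ζ * 2 ^ m + 3)),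
          decD (nms P t ζ) (jj m) (2 * (Lz P ζ * 2 ^ m + 3)) 2 (fd P t N ζ)⟩ := by
        unfold RDz
        rw [if_pos h1, if_neg h2]
      rw [e]
      unfold lf
      cases h3 : nb (fun _ => 2 ^ (2 * (Lz P ζ * 2 ^ m + 3))) 0 p with
      | some b => exact enc_const P ζ p b
      | none =>
        apply Pa76659P.exists_enc (m := nl m P.e ζ.length) (w := 2 * (Lz P ζ * 2 ^ m + 3))
          (t := 2) (k := 0)
        · exact ((decD_isC (nms P t ζ) (jj m) (2 * (Lz P ζ * 2 ^ m + 3)) 2
            (fd P t N ζ) p).mono (nms_len P ht ζ) le_rfl le_rfl).lift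
        · unfold Lz
          omega
  · have e : RDz P t N E s ζ = RDc P s ζ := by
      unfold RDz
      rw [if_neg h1]
    rw [e]
    exact enc_lf_RDc P hs ζ p

end ZEncAux

open ZEncAux in
theorem enc_LTz (P : Par m) {t : ℕ} (ht1 : 1 ≤ t) (ht : t ≤ m) (N E : ℕ) {s : ℕ}
    (hs : s ≤ m) (x : Str) :
    ∃ T, Pa76659P.Enc 1 (LT P.B s (RDz P t N E s) x) x T := by
  unfold LT
  split_ifs with h
  · obtain ⟨h1, _, h3⟩ := h.choose_spec
    have h4 := enc_lf_RDz P ht N E hs h.choose.1 h.choose.2 h1
    rw [h3] at h4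
    exact h4
  · exact enc_false x

end Pool.Agent.Lib.Pa76659I
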