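import Pool.Agent.Lib.Pa76659I.ZEnc

/-!
# Pa76659I.ZRule: the rule holds in the worlds of a zone if the free trees have the right values

PROOFS. `W_Xz`: `lane_W` with `G = LT P.B s (RDz ..)`, `enc_LTz`, `Xz_lane` (the table strings
`ls s (u ++ y)` have length `s + 6 + 2 * u.length`), `SZ` unfolds to `SG G`.

`cd_Xz`: `cd_root` with `D = RDz P t q.N E s ζ`: hypothesis `hX` is `W_Xz` at
`u = es (code 0 P.B ζ) p` (`es_length`: `2 * u.length = 2^(jj s + 1) * (code ..).length`) and
`LT_leaf`. Fan-ins (`hm`): for `RDc`: `Lz P ζ ≤ (code ..).length`; literal mode: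
`N * 2^(kap t - 1 - i) ≤ (code ..).length * 2^(jj t - 1 - i)` for `i < jj t`, since
`kap t ≤ jj t + 1`, `N ≤ Lz P ζ` and `2 * Lz P ζ ≤ need .. ≤ (code ..).length`; decD mode:
`2 * (Lz * 2^m + 3) ≤ need ..`.
Then: not active (or `s ≠ t, m`, or `s` even and `ζ = []`): `RDz = RDc`, value `ctr s ζ` by
`Pa76659P.Wd.decG_spec` and `ctr_isC` (as in `cd_complete`). `s = t`: the value is
`T1 P t N (yv t false (bof ζ) (zof t ζ))` by definition. `s = m > t`: `decD_spec (fd_isC ..)`.

`RR_Xz`: given `s` and `z`. If `tlx .. < q.N`: `hq.rl` and `rule_congr` (`Xz` agrees with `q.σ` below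
`q.N`, `(Xz_mem ..).1`). Otherwise `cd_Xz` for the roots `rt s b z` (`tlx_rt`):
 - not active or `s ≠ t, s ≠ m`: `ctr`, and `vlu = ct` as in `rule_complete`;
 - `s = t` active: `vlu P.B t X z = FT P t N false z X` (`t` even: `zof t (b :: z) = z`,
   `bof (b :: z) = b`; `t` odd: `yv` does not use the pair bit), which is `cz m t false z X =
   ct (jj t) X z` by `hfor`;
 - `s = m > t` active: `m` even: `xor (fd (false :: z)) (fd (true :: z)) = xor (FT .. true z) false`;
   `m` odd: `fd z = FT .. true z` (`m % 2 = 0` is false); `hfor` with `f = true`.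
 Activity of `rt s b z` depends on the length only.
-/

set_option maxHeartbeats 4000000

namespace Pool.Agent.Lib.Pa76659I

open Pool.Agent.Lib.Pa76659 Pool.Agent.Lib.Pa76659.Hier Pool.Agent.Lib.Pa76659H

variable {m : ℕ}

/-- lane of the family `f` -/
def lof (m t : ℕ) (f : Bool) : ℕ := if f = true then m else t

theorem W_Xz (P : Par m) {t : ℕ} (ht1 : 1 ≤ t) (ht : t ≤ m) (E : ℕ) {q : Cnd}
    (x : List ℕ → Bool) {s : ℕ} (hs1 : 1 ≤ s) (hs : s ≤ m) (u : Str)
    (hu : q.N ≤ s + 6 + 2 * u.length) :
    W s (Xz P t E q x) u = LT P.B s (RDz P t q.N E s) u (Xz P t E q x) := by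
  refine lane_W s (LT P.B s (RDz P t q.N E s)) u (enc_LTz P ht1 ht q.N E hs u) _ ?_
  intro y hy
  rw [Xz_lane P t E x hs1 hs (u ++ y) (by rw [ls_length, List.length_append]; omega)]
  rfl

namespace ZRuleAux

theorem mm_le (P : Par m) {t : ℕ} (N E : ℕ) {s : ℕ} (ζ : Str) {i : ℕ} (hi : i < jj s) :
    (RDz P t N E s ζ).mm i ≤ 2 ^ ((code 0 P.B ζ).length * 2 ^ (jj s - 1 - i)) := by
  classical
  have hn := need_le P ζ
  unfold need at hn
  have hL : Lz P ζ = (ζ.length + 2) ^ P.b := rfl
  rw [← hL] at hn
  have h1 : 1 ≤ 2 ^ (jj s - 1 - i) := Nat.one_le_two_pow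
  have h2 : (code 0 P.B ζ).length ≤ (code 0 P.B ζ).length * 2 ^ (jj s - 1 - i) :=
    Nat.le_mul_of_pos_right _ h1
  unfold RDz
  split_ifs with hc hst
  · show mA t N i ≤ _
    unfold mA
    refine Nat.pow_le_pow_right (by norm_num) ?_
    subst hst
    have h3 : N * 2 ^ (kap s - 1 - i) ≤ N * (2 * 2 ^ (jj s - 1 - i)) := by
      refine Nat.mul_le_mul_left _ ?_
      rw [← pow_succ']
      refine Nat.pow_le_pow_right (by norm_num) ?_
      unfold kap jj
      unfold jj at hi
      omega
    refine h3.trans ?_
    have h4 : N * (2 * 2 ^ (jj s - 1 - i)) = (2 * N) * 2 ^ (jj s - 1 - i) := by ring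
    rw [h4]
    refine Nat.mul_le_mul_right _ ?_
    have := hc.1.1
    omega
  · show 2 ^ (2 * (Lz P ζ * 2 ^ m + 3)) ≤ _
    refine Nat.pow_le_pow_right (by norm_num) ?_
    omega
  · show 2 ^ Lz P ζ ≤ _
    refine Nat.pow_le_pow_right (by norm_num) ?_
    omega

end ZRuleAux

open ZRuleAux in
theorem cd_Xz (P : Par m) {t : ℕ} (ht1 : 1 ≤ t) (ht : t ≤ m) (E : ℕ) {q : Cnd}
    (x : List ℕ → Bool) {s : ℕ} (hs1 : 1 ≤ s) (hs : s ≤ m) (ζ : Str) (hζ : q.N ≤ tlx P.B s ζ) :
    cd P.B s (Xz P t E q x) ζ =
      (open Classical in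
      if act P q.N E ζ ∧ ¬ (s % 2 = 0 ∧ ζ = []) ∧ (s = t ∨ s = m) then
        (if s = t then T1 P t q.N (yv t false (bof ζ) (zof t ζ)) (Xz P t E q x)
        else fd P t q.N ζ (Xz P t E q x))
      else ctr s ζ (Xz P t E q x)) := by
  classical
  have h1 := cd_root P.B s (RDz P t q.N E s ζ) ζ (Xz P t E q x)
    (fun i hi => mm_le P q.N E ζ hi) (fun p hp hv => by
      rw [W_Xz P ht1 ht E x hs1 hs (es (code 0 P.B ζ) p) ?_, LT_leaf P.B s _ ζ p hp hv]
      unfold tlx at hζ
      rw [es_length, hp]
      have : 2 ^ (jj s + 1) * (code 0 P.B ζ).length =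
          2 * ((code 0 P.B ζ).length * 2 ^ jj s) := by ring
      omega)
  rw [h1]
  unfold RDz
  by_cases hc : act P q.N E ζ ∧ ¬ (s % 2 = 0 ∧ ζ = []) ∧ (s = t ∨ s = m)
  · rw [if_pos hc, if_pos hc]
    by_cases hst : s = t
    · rw [if_pos hst, if_pos hst]
      subst hst
      rfl
    · rw [if_neg hst, if_neg hst]
      have hsm : s = m := hc.2.2.resolve_left hst
      subst hsm
      exact (decD_spec (fd_isC P ht1 (lt_of_le_of_ne ht (Ne.symm hst)) ζ hc.1.1) _).symm
  · rw [if_neg hc, if_neg hc]
    exact (Pa76659P.Wd.decG_spec (ctr_isC P hs ζ) _).symm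

theorem RR_Xz (P : Par m) {t : ℕ} (ht1 : 1 ≤ t) (ht : t ≤ m) (E : ℕ) {q : Cnd}
    (hq : WF' P q) (x : List ℕ → Bool)
    (hfor : ∀ (f : Bool) (z : Str), act P q.N E (rt (lof m t f) false z) →
      FT P t q.N f z (Xz P t E q x) = cz m t f z (Xz P t E q x)) :
    RR m P.B (Xz P t E q x) := by
  classical
  intro s hs1 hs z
  by_cases hl : tlx P.B s (rt s false z) < q.N
  · refine rule_congr P hs z q.σ _ (fun v hv => ?_) (hq.rl s hs1 hs z hl)
    exact ((Xz_mem P t E hq x).1 v (by omega)).symm
  · have hl' : ∀ b, q.N ≤ tlx P.B s (rt s b z) := by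
      intro b
      rw [tlx_rt]
      omega
    have hcd := fun b => cd_Xz P ht1 ht E x hs1 hs (rt s b z) (hl' b)
    have hF := hfor false z
    have hT := hfor true z
    simp only [lof, cz, if_true, Bool.false_eq_true, if_false] at hF hT
    by_cases hpar : s % 2 = 0
    · -- even lane
      have hrt : ∀ b, rt s b z = b :: z := fun b => by
        unfold rt
        rw [if_pos hpar]
      simp only [hrt] at hcd
      have hact : ∀ b, act P q.N E (b :: z) ↔ act P q.N E (false :: z) := fun b => by
        unfold act Lz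
        simp only [List.length_cons]
      have hne : ∀ b : Bool, ¬ (s % 2 = 0 ∧ b :: z = []) := fun b h => by
        simp at h
      unfold vlu
      rw [if_pos hpar]
      have c1 : ctr s (false :: z) (Xz P t E q x) = ct (jj s) (Xz P t E q x) z := by
        unfold ctr
        rw [if_pos hpar]
      have c2 : ctr s (true :: z) (Xz P t E q x) = false := by
        unfold ctr
        rw [if_pos hpar]
      have hz : ∀ b : Bool, zof s (b :: z) = z := fun b => by
        unfold zof
        rw [if_pos hpar, List.tail_cons]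
      by_cases ha : act P q.N E (false :: z)
      · by_cases hst : s = t
        · have e : ∀ b : Bool, cd P.B s (Xz P t E q x) (b :: z) =
              T1 P t q.N (yv t false b z) (Xz P t E q x) := by
            intro b
            rw [hcd b, if_pos ⟨(hact b).2 ha, hne b, Or.inl hst⟩, if_pos hst]
            subst hst
            rw [hz]
            rfl
          rw [e, e]
          subst hst
          have h1 := hF (by rw [hrt]; exact ha)
          unfold FT at h1
          rw [if_pos hpar] at h1
          exact h1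
        · by_cases hsm : s = m
          · have e : ∀ b : Bool, cd P.B s (Xz P t E q x) (b :: z) =
                fd P t q.N (b :: z) (Xz P t E q x) := by
              intro b
              rw [hcd b, if_pos ⟨(hact b).2 ha, hne b, Or.inr hsm⟩, if_neg hst]
            rw [e, e]
            subst hsm
            have h1 := hT (by rw [hrt]; exact ha)
            have f1 : fd P t q.N (false :: z) (Xz P t E q x) = ct (jj s) (Xz P t E q x) z := by
              unfold fd
              rw [if_neg (by simp [bof]), hz]
              exact h1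
            have f2 : fd P t q.N (true :: z) (Xz P t E q x) = false := by
              unfold fd
              rw [if_pos ⟨hpar, by simp [bof]⟩]
            rw [f1, f2, Bool.xor_false]
          · have e : ∀ b : Bool, cd P.B s (Xz P t E q x) (b :: z) =
                ctr s (b :: z) (Xz P t E q x) := by
              intro b
              rw [hcd b, if_neg (fun h => h.2.2.elim hst hsm)]
            rw [e, e, c1, c2, Bool.xor_false]
      · have e : ∀ b : Bool, cd P.B s (Xz P t E q x) (b :: z) =
            ctr s (b :: z) (Xz P t E q x) := by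
          intro b
          rw [hcd b, if_neg (fun h => ha ((hact b).1 h.1))]
        rw [e, e, c1, c2, Bool.xor_false]
    · -- odd lane
      have hrt : ∀ b, rt s b z = z := fun b => by
        unfold rt
        rw [if_neg hpar]
      simp only [hrt] at hcd
      have hne : ¬ (s % 2 = 0 ∧ z = []) := fun h => hpar h.1
      unfold vlu
      rw [if_neg hpar, hcd false]
      by_cases ha : act P q.N E z
      · by_cases hst : s = t
        · rw [if_pos ⟨ha, hne, Or.inl hst⟩, if_pos hst]
          subst hst
          have h1 := hF (by rw [hrt]; exact ha)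
          unfold FT at h1
          rw [if_neg hpar] at h1
          have hz : zof s z = z := by
            unfold zof
            rw [if_neg hpar]
          have hy : yv s false (bof z) z = yv s false false z := by
            unfold yv
            rw [if_neg hpar, if_neg hpar]
          rw [hz, hy]
          exact h1
        · by_cases hsm : s = m
          · rw [if_pos ⟨ha, hne, Or.inr hsm⟩, if_neg hst]
            subst hsm
            have h1 := hT (by rw [hrt]; exact ha)
            have hz : zof s z = z := by
              unfold zof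
              rw [if_neg hpar]
            unfold fd
            rw [if_neg (fun h => hpar h.1), hz]
            exact h1
          · rw [if_neg (fun h => h.2.2.elim hst hsm)]
            unfold ctr
            rw [if_neg hpar]
      · rw [if_neg (fun h => ha h.1)]
        unfold ctr
        rw [if_neg hpar]

end Pool.Agent.Lib.Pa76659I
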